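import Pool.Agent.H42.D2.Vlz
import Pool.Agent.H92.V0F.Rsb
import Pool.Agent.H92.V0F.Hex

/-!
# The dead velocity of a place in a subclass

`F1US`, `VelUS`: as `F1UZ`, `VelUZ`, the conclusion for a nonempty subclass, chosen after the windows.
`celZ_f1s`: then there is no drop at the place `r` (the conclusion of `CelZ` is about the levels
only). `F1UZ.s`: `F1UZ` implies `F1US`.
-/

set_option autoImplicit false

namespace Pool.PKG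

open Finset Real
open Pool.Agent.H49.Ent Pool.Agent.H32.Dense Pool.STK Pool.KA Pool.KSAT Pool.K2S Pool.PB
open Pool.GEN Pool.S6C Pool.STAT Pool.CHT Pool.GRW Pool.ONE Pool.STA
open Pool.LBT (LSys ThrOf)
open Pool.LEV (Law)
open Pool.ALL (RateOf)
open Pool.ISO (PtD lvN WinD)
open Pool.V1E (vF vF_ge TlW HnN HfN VfW XiN x10f_fin SlH VfN x10n_fin VuN vfw_of rstC)
open Pool.LA91 (TlAt epT slT FaQ sumQ qJets qJet)
open Pool.OWN68 (F1)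
open Pool.RCD (vg)

/-- **The first jet of the place** `r` is few bits, under the hypothesis `Z lam` on the class, in a
nonempty subclass chosen after the windows. -/
def F1US (m r : ℕ) (h : ℝ) (Sl : ℕ → ℝ) (κ : ℕ → Kg) {ι Λ : Type} (Q : PropG m ι)
    (Z : PropZ m Λ) : Prop :=
  ∀ al : ℝ, 0 < al → ∀ K₀ : ℝ, 0 < K₀ → ∀ S₀ : ℕ, 1 ≤ S₀ →
  ∃ (Kr : ℝ) (Nr : ℕ) (Ar Vr : ℕ → ℝ), 1 ≤ Kr ∧ (∀ k < Nr, -Kr ≤ Vr k ∧ Vr k ≤ Ar k ∧ Ar k ≤ Kr) ∧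
  ∀ S₂ : ℕ, S₀ ≤ S₂ → ∀ dd : ℝ, 0 < dd →
  ∃ (lam : Λ) (kf φ : ℝ), Sl r ≤ kf ∧ 0 < φ ∧
  ∃ (K₁ : ℝ) (Nv : ℕ) (Vv : ℕ → ℝ), (∀ j < Nv, -K₁ ≤ Vv j ∧ Vv j ≤ K₁) ∧ ∀ K' : ℝ, K₁ ≤ K' →
  ∃ ε₀ : ℝ, 0 < ε₀ ∧ ∀ ε : ℝ, 0 < ε → ε ≤ ε₀ →
  ∀ (S : PCl m) (g₀ : ℝ → ℝ) (P : List (Fin m) × Fin m → ℝ → ℝ → ℝ)
    (θ : ℝ) (P₂ : ℕ → List (Fin m) × Fin m → ℝ → ℝ → ℝ) (θ₂ Eb e₂ : ℕ → ℝ) (c : ℕ → Fin m)
    (Pt : ℝ → ℝ → ℝ) (rt : ℝ → ℝ) (L T : ℕ → ℝ → ℝ → ℝ) (G : Set ℝ) (g : ℝ),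
    IsClosed G → g ∈ G → (∀ l < m, HasDerivAt (fun x => L l x x) (Sl l) g) →
    Z lam S P θ c Pt rt L T κ G g →
    ∃ (p : ℕ → ι) (M : ℕ) (B₀ B₁ : ℕ → ℝ),
    (∀ j < M, B₀ j < B₁ j) ∧ ∀ k₀ : ℕ → ℕ, (∀ j < M, Q (p j) (k₀ j) S P θ c Pt rt L T κ G g) →
    ∃ q₁ : ℝ, 0 < q₁ ∧ ∀ (q t : ℝ) (x : ℕ → ℝ),
      q < q₁ → (∀ j < M, x j ∈ G ∧ t + B₀ j * q ≤ x j ∧ x j ≤ t + B₁ j * q ∧
        Q (p j) (k₀ j) S P θ c Pt rt L T κ G (x j)) →
      ∀ (N : ℕ) (A V : ℕ → ℝ) (N' : ℕ) (V' : ℕ → ℝ),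
      RecG S al g₀ P θ P₂ θ₂ Eb e₂ c Pt rt h K₀ g L T Sl κ G S₀ N A V S₂ N' V' K' ε q t →
      (∀ k < Nr, ∃ j < N, A j = Ar k ∧ V j = Vr k) → (∀ k < Nv, ∃ j < N', V' j = Vv k) →
      ∀ (pf : ℕ → ℝ) (pr : ℝ) (Nf : ℕ → ℕ → ℝ),
      (∀ l < r, L l t t - φ * q ≤ pf l ∧ pf l ≤ L l t t) →
      L r t t - φ * q ≤ pr → pr ≤ L r t t →
      (∀ l < r, ∀ j ≤ 1, Nf l j = L l t t + kf * q - (j : ℕ) * t) →
      ∃ S' : PCl m, S'.Ne ∧
        (∀ (τ : ℝ) (J : ℕ) (F : Fam m J) (A : F.Ω → Prop), S'.St τ J F A → S.St τ J F A) ∧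
        ∃ e : ℝ, 0 < e ∧ F1 S' (fun J F => ptr F J) (vg t) (fun _ F => F.T)
          (qJets m c 0 r 1 (fun _ _ => t) (fun l _ => pf l) Nf)
          (qJet m ((range r).image c) (c r) 1 t pr (L r t t + (Sl r - 1) * q - t)) e (dd * q)

/-- **The dead velocity of the place** `r`, in a nonempty subclass chosen after the windows. -/
def VelUS (m r : ℕ) (h : ℝ) (Sl : ℕ → ℝ) (κ : ℕ → Kg) {ι Λ : Type} (Q : PropG m ι)
    (Z : PropZ m Λ) : Prop :=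
  ∀ al : ℝ, 0 < al → ∀ K₀ : ℝ, 0 < K₀ → ∀ S₀ : ℕ, 1 ≤ S₀ →
  ∃ (Kr : ℝ) (Nr : ℕ) (Ar Vr : ℕ → ℝ), 1 ≤ Kr ∧ (∀ k < Nr, -Kr ≤ Vr k ∧ Vr k ≤ Ar k ∧ Ar k ≤ Kr) ∧
  ∀ S₂ : ℕ, S₀ ≤ S₂ → ∀ (D Dr : ℕ) (C δ : ℝ), 1 ≤ D → D ≤ Dr → 1 ≤ C → 0 < δ → δ ≤ 1 →
  ∃ (lam : Λ) (kf h₁ : ℝ), Sl r ≤ kf ∧ 0 < h₁ ∧ ∀ hh k₁ : ℝ, 0 < hh → hh ≤ h₁ → kf + 8 ≤ k₁ →
  ∃ (K₁ : ℝ) (Nv : ℕ) (Vv : ℕ → ℝ), (∀ j < Nv, -K₁ ≤ Vv j ∧ Vv j ≤ K₁) ∧ ∀ K' : ℝ, K₁ ≤ K' →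
  ∃ ε₀ : ℝ, 0 < ε₀ ∧ ∀ ε : ℝ, 0 < ε → ε ≤ ε₀ →
  ∀ (S : PCl m) (g₀ : ℝ → ℝ) (P : List (Fin m) × Fin m → ℝ → ℝ → ℝ)
    (θ : ℝ) (P₂ : ℕ → List (Fin m) × Fin m → ℝ → ℝ → ℝ) (θ₂ Eb e₂ : ℕ → ℝ) (c : ℕ → Fin m)
    (Pt : ℝ → ℝ → ℝ) (rt : ℝ → ℝ) (L T : ℕ → ℝ → ℝ → ℝ) (G : Set ℝ) (g : ℝ),
    IsClosed G → g ∈ G → (∀ l < m, HasDerivAt (fun x => L l x x) (Sl l) g) →
    Z lam S P θ c Pt rt L T κ G g →
    ∃ (p : ℕ → ι) (M : ℕ) (B₀ B₁ : ℕ → ℝ),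
    (∀ j < M, B₀ j < B₁ j) ∧ ∀ k₀ : ℕ → ℕ, (∀ j < M, Q (p j) (k₀ j) S P θ c Pt rt L T κ G g) →
    ∃ q₁ : ℝ, 0 < q₁ ∧ ∀ (q t : ℝ) (x : ℕ → ℝ),
      q < q₁ → (∀ j < M, x j ∈ G ∧ t + B₀ j * q ≤ x j ∧ x j ≤ t + B₁ j * q ∧
        Q (p j) (k₀ j) S P θ c Pt rt L T κ G (x j)) →
      ∀ (N : ℕ) (A V : ℕ → ℝ) (N' : ℕ) (V' : ℕ → ℝ),
      RecG S al g₀ P θ P₂ θ₂ Eb e₂ c Pt rt h K₀ g L T Sl κ G S₀ N A V S₂ N' V' K' ε q t →
      (∀ k < Nr, ∃ j < N, A j = Ar k ∧ V j = Vr k) → (∀ k < Nv, ∃ j < N', V' j = Vv k) →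
      ∃ S' : PCl m, S'.Ne ∧
        (∀ (τ : ℝ) (J : ℕ) (F : Fam m J) (A : F.Ω → Prop), S'.St τ J F A → S.St τ J F A) ∧
      ∀ (N₂ : ℕ) (vw : ℕ → ℝ) (κ' : ℝ) (qf : ℕ → Fin r → ℕ) (Pq : Fin r → ℝ), 0 < κ' →
      (∀ i, (kf + 1) * q ≤ Pq i) → (∀ (J : ℕ) (i : Fin r), Pq i * J - 2 ≤ qf J i) →
      ∃ K₂ : ℝ, 0 < K₂ ∧
      VfW S' c r D Dr N₂ C (t + (Sl r + 1) * q) (Eb r) (3 * ε * q) (hh * q) (hh * q) (Sl r * q)
        (kf * q) (L r) (fun k => t + vF k₁ vw k * q)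
        (fun k l => lvN P c r (L r) l (t + vF k₁ vw k * q) (t + vF k₁ vw k * q))
        (fun k l => bet P c l (t + (Sl r + 1) * q) (t + vF k₁ vw k * q)) κ' qf δ K₂

/-- **From the class to a subclass.** -/
theorem F1UZ.s {m r : ℕ} {h : ℝ} {Sl : ℕ → ℝ} {κ : ℕ → Kg} {ι Λ : Type} {Q : PropG m ι}
    {Z : PropZ m Λ} (hF : F1UZ m r h Sl κ Q Z) : F1US m r h Sl κ Q Z := by
  intro al hal K₀ hK₀ S₀ hS₀
  obtain ⟨Kr, Nr, Ar, Vr, hKr, hAV, hF⟩ := hF al hal K₀ hK₀ S₀ hS₀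
  refine ⟨Kr, Nr, Ar, Vr, hKr, hAV, fun S₂ hS₂ dd hdd => ?_⟩
  obtain ⟨lam, kf, φ, hkf, hφ, K₁, Nv, Vv, hVv, hF⟩ := hF S₂ hS₂ dd hdd
  refine ⟨lam, kf, φ, hkf, hφ, K₁, Nv, Vv, hVv, fun K' hK' => ?_⟩
  obtain ⟨ε₀, hε₀, hF⟩ := hF K' hK'
  refine ⟨ε₀, hε₀, fun ε hε hεε S g₀ P θ P₂ θ₂ Eb e₂ c Pt rt L T G g hG hg hd hZ => ?_⟩
  obtain ⟨p, M, B₀, B₁, hB, hF⟩ := hF ε hε hεε S g₀ P θ P₂ θ₂ Eb e₂ c Pt rt L T G g hG hg hd hZ
  refine ⟨p, M, B₀, B₁, hB, fun k₀ hk₀ => ?_⟩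
  obtain ⟨q₁, hq₁, hF⟩ := hF k₀ hk₀
  refine ⟨q₁, hq₁, fun q t x hq hx N A V N' V' R hp hv pf pr Nf h1 h2 h3 h4 => ?_⟩
  obtain ⟨Φ, hΦ, K₂, hK₂, hpart, e, he, hF⟩ := hF q t x hq hx N A V N' V' R hp hv pf pr Nf h1 h2 h3 h4
  obtain ⟨S', h5, h6, h7⟩ := Pool.V0F.her_extc (ι := Unit) R.ne (fun _ => Φ) (fun _ => hΦ)
    (fun _ => ⟨K₂, hpart⟩)
  refine ⟨S', h5, h6, e, he, fun K => ?_⟩
  obtain ⟨τ₁, hτ₁, J₁, h8⟩ := h7 ()
  obtain ⟨τ₂, hτ₂, J₂, h9⟩ := hF K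
  refine ⟨min τ₁ τ₂, lt_min hτ₁ hτ₂, max J₁ J₂, fun J hJ F A hA => ?_⟩
  have j1 : J₁ ≤ J := (le_max_left _ _).trans hJ
  have j2 : J₂ ≤ J := (le_max_right _ _).trans hJ
  exact h9 J j2 F A ⟨S.mono (min_le_right _ _) (h6 _ J F A hA),
    h8 J j1 F A (S'.mono (min_le_left _ _) hA)⟩

/-- **The dead velocity of a place** from its first jet, in a subclass. -/
theorem velUS_of_f1 {m r : ℕ} (hrm : r < m) {h : ℝ} {Sl : ℕ → ℝ} {κ : ℕ → Kg} (hs : 0 ≤ Sl r)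
    {ι Λ : Type} {Q : PropG m ι} {Z : PropZ m Λ} (hF : F1US m r h Sl κ Q Z) :
    VelUS m r h Sl κ Q Z := by
  intro al hal K₀ hK₀ S₀ hS₀
  obtain ⟨Kr, Nr, Ar, Vr, hKr, hAV, hF⟩ := hF al hal K₀ hK₀ S₀ hS₀
  refine ⟨Kr, Nr, Ar, Vr, hKr, hAV, fun S₂ hS₂ D Dr C δ hD hDr hC hδ hδ1 => ?_⟩
  obtain ⟨lam, kf, φ, hkf, hφ, K₁, Nv, Vv, hVv, hF⟩ := hF S₂ hS₂ (δ / 2) (by linarith only [hδ])
  obtain ⟨C', hC', hvf⟩ := vfw_of D r
  have hC0 : 0 < C := by linarith only [hC]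
  have hC'0 : 0 < C' := by linarith only [hC']
  obtain ⟨h₁, hh₁⟩ : ∃ h₁ : ℝ, h₁ = min φ (min (1 / 2) (δ / (8 * (C' * C)))) := ⟨_, rfl⟩
  have hh0 : 0 < h₁ := by rw [hh₁]; positivity
  have hhφ : h₁ ≤ φ := by rw [hh₁]; exact min_le_left _ _
  have hh2 : h₁ ≤ 1 / 2 := by rw [hh₁]; exact (min_le_right _ _).trans (min_le_left _ _)
  have hh3 : h₁ ≤ δ / (8 * (C' * C)) := by
    rw [hh₁]; exact (min_le_right _ _).trans (min_le_right _ _)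
  rw [le_div_iff₀ (by positivity)] at hh3
  refine ⟨lam, kf, h₁, hkf, hh0, fun hh k₁ hhp hhl hk₁ => ?_⟩
  refine ⟨max K₁ (k₁ + C + 1), Nv, Vv, fun j hj => ?_, fun K' hK' => ?_⟩
  · obtain ⟨h1, h2⟩ := hVv j hj
    have h3 := le_max_left K₁ (k₁ + C + 1)
    exact ⟨by linarith only [h1, h3], h2.trans h3⟩
  obtain ⟨ε₀, hε₀, hF⟩ := hF K' ((le_max_left _ _).trans hK')
  have hKk : k₁ + C + 1 ≤ K' := (le_max_right _ _).trans hK'
  refine ⟨ε₀, hε₀, fun ε hε hεε S g₀ P θ P₂ θ₂ Eb e₂ c Pt rt L T G g hG hg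
    hder hZ => ?_⟩
  obtain ⟨p, M, B₀, B₁, hB, hF⟩ := hF ε hε hεε S g₀ P θ P₂ θ₂ Eb e₂ c Pt rt L T G g hG hg hder hZ
  refine ⟨p, M, B₀, B₁, hB, fun k₀ hgk => ?_⟩
  obtain ⟨q₁, hq₁, hF⟩ := hF k₀ hgk
  refine ⟨q₁, hq₁, fun q t x hq hx N A V N' V' R hp hv => ?_⟩
  have hq0 := R.q0
  have ht0 := R.t0
  have ht1 := R.t1
  have hlv : ∀ l ≤ r, lvN P c r (L r) l t t = L l t t := fun l hl => by rw [← R.lv_at hrm hl]
  -- products
  have hkq : 0 ≤ kf * q := mul_nonneg (hs.trans hkf) hq0.le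
  have hsq : 0 ≤ Sl r * q := mul_nonneg hs hq0.le
  have hhq : 0 < hh * q := mul_pos hhp hq0
  have hhq2 : hh * q ≤ 1 / 2 * q := mul_le_mul_of_nonneg_right (hhl.trans hh2) hq0.le
  have hhφq : hh * q ≤ φ * q := mul_le_mul_of_nonneg_right (hhl.trans hhφ) hq0.le
  have hk1q : kf * q + 8 * q ≤ k₁ * q := by
    have := mul_le_mul_of_nonneg_right hk₁ hq0.le
    linarith only [this]
  have hKq : k₁ * q + C * q + q ≤ K' * q := by
    have := mul_le_mul_of_nonneg_right hKk hq0.le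
    linarith only [this]
  have hCq : 0 < C * q := mul_pos hC0 hq0
  have ht : 0 ≤ t := by linarith only [ht0, hKq, hk1q, hCq, hkq, hq0]
  have ht' : t ≤ 1 := by linarith only [ht1, hKq, hk1q, hCq, hkq, hq0]
  have hCh : C * (hh * q) ≤ C * q := by
    refine mul_le_mul_of_nonneg_left ?_ hC0.le
    linarith only [hhq2, hq0]
  have hsm : C' * (C * (hh * q + hh * q)) ≤ δ / 4 * q := by
    have h1 : C' * C * 8 * hh ≤ C' * C * 8 * h₁ :=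
      mul_le_mul_of_nonneg_left hhl (by positivity)
    have h2 : C' * C * 8 * hh ≤ δ := by linarith only [h1, hh3]
    have h3 := mul_le_mul_of_nonneg_right h2 hq0.le
    have h4 : C' * (C * (hh * q + hh * q)) = C' * C * 8 * hh * q / 4 := by ring
    rw [h4]
    linarith only [h3]
  have hδq : 0 < δ * q := mul_pos hδ hq0
  obtain ⟨S', hne, hsub, e, he, hF⟩ := hF q t x hq hx N A V N' V' R hp hv (fun l => lvN P c r (L r) l t t - hh * q)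
    (L r t t - hh * q) (fun l j => lvN P c r (L r) l t t + kf * q - (j : ℕ) * t)
    (fun l hl => by
      rw [hlv l hl.le]
      exact ⟨by linarith only [hhφq], by linarith only [hhq]⟩)
    (by linarith only [hhφq]) (by linarith only [hhq]) (fun l hl j _ => by rw [hlv l hl.le])
  refine ⟨S', hne, hsub, fun N₂ vw κ' qf Pq hκ' hPq hqf => ?_⟩
  have e0 : t + vF k₁ vw 0 * q = t := by simp [vF]
  have e2 : t + vF k₁ vw 2 * q = t - k₁ * q := by simp [vF]; ring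
  have e3 : t + vF k₁ vw 3 * q = t + q := by simp [vF]
  refine ⟨1, one_pos, hvf (kf := kf * q) (pr := L r t t - hh * q)
    (N₁ := L r t t + (Sl r - 1) * q - t) (e := e) (d := δ / 2 * q)
    (pf := fun l => lvN P c r (L r) l t t - hh * q) (Pq := Pq)
    (fun τ J F A h => R.pos τ J F A (hsub τ J F A h)) ?_ ?_⟩
  · simp only [e0]
    exact hF
  · exact
      { C1 := hC
        η0 := hhq
        ζ0 := hhq.le
        mb0 := hsq
        kk0 := hkq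
        kf0 := hkq
        o0 := by
          simp only [e2]
          linarith only [ht0, hKq, hCq, hq0]
        o01 := by
          simp only [e0, e2]
          linarith only [hk1q, hkq, hq0]
        o12 := by
          simp only [e0, e3]
          linarith only [hq0]
        l0 := fun l hl => by
          simp only [e0]
          rw [hlv l hl]
          exact ht.trans (R.low_at (by omega) ht le_rfl ht')
        pf0 := fun l hl => by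
          simp only [e0]
          linarith only [he]
        pr0 := by
          simp only [e0]
          rw [hlv r le_rfl]
          linarith only [he]
        kq := by
          simp only [e0, e3]
          linarith only [hhq2, hq0]
        kf1 := by
          simp only [e0, e2]
          linarith only [hhq2, hk1q, hq0]
        kf2 := fun i => by
          have := hPq i
          linarith only [this, hhq2, hq0]
        qf1 := hqf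
        N1 := by
          simp only [e0, e3]
          rw [hlv r le_rfl]
          linarith only []
        oJ := by
          simp only [e0]
          linarith only [hCh, ht1, hKq, hk1q, hkq, hq0]
        δ0 := hδ
        sm := by
          simp only [e0, e3]
          linarith only [hsm, hδq] }

/-- **The class theorem of a steep coordinate** over coordinates of slope one, from its velocity in a
subclass. -/
theorem celZ_us {m r : ℕ} (hr : 1 ≤ r) (hrm : r < m) {h : ℝ} {Sl : ℕ → ℝ} {κ : ℕ → Kg}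
    (hκ : ∀ l < r, κ l = .one) (hκt : κ r = .stp) (hs : 2 < Sl r) {ι Λ : Type} {Q : PropG m ι}
    {Z : PropZ m Λ} (hV : VelUS m r h Sl κ Q Z) : CelZ m r h Sl κ (sumQ Q FaQ) Z := by
  intro al hal K₀ hK₀ del hdel S₀ hS₀
  obtain ⟨Kr, Nr, Ar, Vr, hKr, hAV, hV⟩ := hV al hal K₀ hK₀ S₀ hS₀
  obtain ⟨CM, hCM⟩ := exists_nat_gt (Sl r)
  have hr0 : (0 : ℝ) ≤ r := Nat.cast_nonneg r
  obtain ⟨A, hA⟩ : ∃ A : ℕ → ℝ, A = fun k => if k < 2 then Sl r + 1 else if k = 2 then 1 else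
    Ar (k - 3) := ⟨_, rfl⟩
  obtain ⟨V, hVd⟩ : ∃ V : ℕ → ℝ, V = fun k => if k = 0 then 0 else if k = 1 then 3 / 2 else
    if k = 2 then 0 else Vr (k - 3) := ⟨_, rfl⟩
  have a0 : A 0 = Sl r + 1 := by simp [hA]
  have a1 : A 1 = Sl r + 1 := by simp [hA]
  have a2 : A 2 = 1 := by simp [hA]
  have a3 : ∀ k, A (3 + k) = Ar k := fun k => by
    simp only [hA]
    rw [if_neg (by omega), if_neg (by omega)]
    congr 1
    omega
  have v0 : V 0 = 0 := by simp [hVd]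
  have v1 : V 1 = 3 / 2 := by simp [hVd]
  have v2 : V 2 = 0 := by simp [hVd]
  have v3 : ∀ k, V (3 + k) = Vr k := fun k => by
    simp only [hVd]
    rw [if_neg (by omega), if_neg (by omega), if_neg (by omega)]
    congr 1
    omega
  refine ⟨max Kr (Sl r + 1), 3 + Nr, A, V, le_max_of_le_left hKr, fun k hk => ?_,
    fun S₂ hS₂ => ?_⟩
  · have m1 := le_max_left Kr (Sl r + 1)
    have m2 := le_max_right Kr (Sl r + 1)
    rcases Nat.lt_or_ge k 3 with h3 | h3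
    · interval_cases k
      · rw [v0, a0]
        exact ⟨by linarith, by linarith, by linarith⟩
      · rw [v1, a1]
        exact ⟨by linarith, by linarith, by linarith⟩
      · rw [v2, a2]
        exact ⟨by linarith, by linarith, by linarith⟩
    · obtain ⟨j, rfl⟩ : ∃ j, k = 3 + j := ⟨k - 3, by omega⟩
      rw [a3, v3]
      obtain ⟨h4, h5, h6⟩ := hAV j (by omega)
      exact ⟨by linarith, h5, by linarith⟩
  obtain ⟨D, hD, hx⟩ := x10f_fin m r S₂ CM hr (hS₀.trans hS₂) (Sl r) hs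
  obtain ⟨C, hC, hx⟩ := hx D le_rfl
  obtain ⟨δ, C', hδ, hδ1, hC', h₀, hh₀, hx⟩ := hx del hdel
  obtain ⟨lam, kf, h₁, hkf, hh₁, hV⟩ := hV S₂ hS₂ D D C δ hD le_rfl hC hδ hδ1
  obtain ⟨CT, hCT⟩ := exists_nat_ge (2 * kf + 7 * r + 18)
  have hCT0 : (0 : ℝ) ≤ CT := Nat.cast_nonneg CT
  obtain ⟨k₁, hk₁⟩ : ∃ k₁ : ℝ, k₁ = CT + 7 * r + 13 := ⟨_, rfl⟩
  have hC0 : 0 < C := by linarith
  have hC'0 : 0 < C' := by linarith
  obtain ⟨κT, hκT0, hκTδ⟩ : ∃ x : ℚ, (0 : ℝ) < x ∧ (x : ℝ) < δ := exists_rat_btwn hδ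
  have hep : 0 < epT r 1 κT := by
    unfold epT
    push_cast
    positivity
  have hsl : 0 < slT r 1 κT := by
    unfold slT epT
    push_cast
    positivity
  obtain ⟨ρ, hρ⟩ : ∃ ρ : ℝ, ρ = min (1 / 2) (δ / (4 * C')) := ⟨_, rfl⟩
  have hρ0 : 0 < ρ := by rw [hρ]; positivity
  have hρ1 : ρ ≤ 1 / 2 := by rw [hρ]; exact min_le_left _ _
  have hρ2 : 4 * C' * ρ ≤ δ := by
    have : ρ ≤ δ / (4 * C') := by rw [hρ]; exact min_le_right _ _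
    rw [le_div_iff₀ (by positivity)] at this
    linarith
  obtain ⟨v₀, hv₀⟩ : ∃ v₀ : ℝ, v₀ = min h₀ (min h₁ (min (1 / 2) (min (slT r 1 κT / 2)
      (min (ρ / (2 * (C + 2))) (δ / (4 * (C' * (2 * C + 3)))))))) := ⟨_, rfl⟩
  have hv0 : 0 < v₀ := by rw [hv₀]; positivity
  have hvm : v₀ ≤ h₀ ∧ v₀ ≤ h₁ ∧ v₀ ≤ 1 / 2 ∧ v₀ ≤ slT r 1 κT / 2 ∧ v₀ ≤ ρ / (2 * (C + 2)) ∧
      v₀ ≤ δ / (4 * (C' * (2 * C + 3))) := by
    rw [hv₀]
    exact ⟨min_le_left _ _, (min_le_right _ _).trans (min_le_left _ _),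
      (min_le_right _ _).trans ((min_le_right _ _).trans (min_le_left _ _)),
      (min_le_right _ _).trans ((min_le_right _ _).trans ((min_le_right _ _).trans
        (min_le_left _ _))),
      (min_le_right _ _).trans ((min_le_right _ _).trans ((min_le_right _ _).trans
        ((min_le_right _ _).trans (min_le_left _ _)))),
      (min_le_right _ _).trans ((min_le_right _ _).trans ((min_le_right _ _).trans
        ((min_le_right _ _).trans (min_le_right _ _))))⟩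
  obtain ⟨hv1, hv2, hv3, hv4, hv5, hv6⟩ := hvm
  rw [le_div_iff₀ (by positivity)] at hv5 hv6
  obtain ⟨K₁, Nv, Vv, hVv, hV⟩ := hV v₀ k₁ hv0 hv2 (by linarith)
  obtain ⟨K, hK⟩ : ∃ K : ℝ, K = max (max Kr (Sl r + 1)) (max K₁ (2 * Sl r + k₁ + kf + 6)) :=
    ⟨_, rfl⟩
  have hKa : max Kr (Sl r + 1) ≤ K := by rw [hK]; exact le_max_left _ _
  have hKb : K₁ ≤ K := by rw [hK]; exact (le_max_left _ _).trans (le_max_right _ _)
  have hKc : 2 * Sl r + k₁ + kf + 6 ≤ K := by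
    rw [hK]
    exact (le_max_right _ _).trans (le_max_right _ _)
  obtain ⟨ε₀, hε₀, hV⟩ := hV K hKb
  obtain ⟨ε, hε⟩ : ∃ ε : ℝ, ε = min ε₀ (min (v₀ / 2) (min (v₀ / (6 * C)) (epT r 1 κT / 4))) :=
    ⟨_, rfl⟩
  have hεp : 0 < ε := by rw [hε]; positivity
  have hεm : ε ≤ ε₀ ∧ ε ≤ v₀ / 2 ∧ ε ≤ v₀ / (6 * C) ∧ ε ≤ epT r 1 κT / 4 := by
    rw [hε]
    exact ⟨min_le_left _ _, (min_le_right _ _).trans (min_le_left _ _),
      (min_le_right _ _).trans ((min_le_right _ _).trans (min_le_left _ _)),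
      (min_le_right _ _).trans ((min_le_right _ _).trans (min_le_right _ _))⟩
  obtain ⟨hε1, hε2, hε3, hε4⟩ := hεm
  rw [le_div_iff₀ (by positivity)] at hε3
  have hCε : 0 < C * ε := mul_pos hC0 hεp
  obtain ⟨V', hV'⟩ : ∃ V' : ℕ → ℝ, V' = fun k => if k = 0 then -k₁ else if k = 1 then 1 else
    if k = 2 then 1 + ρ else Vv (k - 3) := ⟨_, rfl⟩
  have w0 : V' 0 = -k₁ := by simp [hV']
  have w1 : V' 1 = 1 := by simp [hV']
  have w2 : V' 2 = 1 + ρ := by simp [hV']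
  have w3 : ∀ k, V' (3 + k) = Vv k := fun k => by
    simp only [hV']
    rw [if_neg (by omega), if_neg (by omega), if_neg (by omega)]
    congr 1
    omega
  refine ⟨lam, K, 3 + Nv, V', hKa, fun k hk => ?_, ε, hεp, ?_⟩
  · rcases Nat.lt_or_ge k 3 with h3 | h3
    · interval_cases k
      · rw [w0]
        constructor <;> linarith
      · rw [w1]
        constructor <;> linarith
      · rw [w2]
        constructor <;> linarith
    · obtain ⟨j, rfl⟩ : ∃ j, k = 3 + j := ⟨k - 3, by omega⟩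
      rw [w3]
      obtain ⟨h4, h5⟩ := hVv j (by omega)
      exact ⟨by linarith, by linarith⟩
  intro S g₀ P θ P₂ θ₂ Eb e₂ c Pt rt L T G g hG hg hder hZ
  obtain ⟨p, M, B₀, B₁, hB, hV⟩ := hV ε hεp hε1 S g₀ P θ P₂ θ₂ Eb e₂ c Pt rt L T G g hG hg hder hZ
  refine ⟨fun j => if j < M then Sum.inl (p j) else Sum.inr (r, CT, 1, κT), M + 1,
    fun j => if j < M then B₀ j else (kf + 1) - CT - (7 * r + 11) / 2,
    fun j => if j < M then B₁ j else -(CT / 2 + 7 * r + 13), fun j hj => ?_, fun k₀ hgk => ?_⟩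
  · by_cases h4 : j < M
    · simp only [h4, if_true]
      exact hB j h4
    · simp only [h4, if_false]
      linarith
  obtain ⟨q₁, hq₁, hV⟩ := hV k₀ fun j hj => by
    have h4 := hgk j (by omega)
    simp only [hj, if_true] at h4
    exact h4
  refine ⟨min q₁ ((1 / 2) ^ k₀ M), lt_min hq₁ (by positivity), fun q t x hq hxj R₀ => ?_⟩
  obtain ⟨S', hne, hsub, hV⟩ := hV q t x (hq.trans_le (min_le_left _ _)) (fun j hj => by
      obtain ⟨h4, h5, h6, h7⟩ := hxj j (by omega)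
      simp only [hj, if_true] at h5 h6 h7
      exact ⟨h4, h5, h6, h7⟩) _ _ _ _ _ R₀
    (fun k hk => ⟨3 + k, by omega, a3 k, v3 k⟩) (fun k hk => ⟨3 + k, by omega, w3 k⟩)
  have R := R₀.sub hne hsub
  have hq0 := R.q0
  obtain ⟨k, hk0, hk1, hk2⟩ := Pool.PKG.pow_near hq0 (hq.trans_le (min_le_right _ _))
  -- the time line
  obtain ⟨-, hx1, hx2, hxQ⟩ := hxj M (Nat.lt_succ_self M)
  simp only [lt_irrefl, if_false] at hx1 hx2 hxQ
  have hTl := (FaQ.sub hsub hxQ).tl hrm hκ (by norm_num) (by norm_num) (by exact_mod_cast hκT0) k hk0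
  have hmG : t - k₁ * q ∈ G := by
    have := R.memG.2 0 (by omega)
    rw [w0] at this
    have e : t + -k₁ * q = t - k₁ * q := by ring
    rwa [e] at this
  obtain ⟨qf, nt, P₁, fr, hT, hqf, hTW, hHn⟩ := R.tl_scale hr hrm le_rfl hκ (CM := CM)
    (s := Sl r) (C' := C') (δ := δ) (h := v₀) (X := 2 * (C * v₀)) (κT := κT) (σ := 1)
    (vw := fun _ => 1 + ρ) (x := x M) hmG (by linarith) hkf hCM hC' hδ1 (by norm_num) le_rfl hκT0
    hκTδ hv0.le (by positivity) (by nlinarith) (by linarith) hv3 hεp.le (by linarith)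
    (by linarith) hk₁ hCT (by linarith) hk1 hk2 (by linarith) (by linarith) hTl
  have hHf := (hHn (C * (v₀ * q + v₀ * q)) (by ring)).toF hC rfl
  -- the hyperplanes
  obtain ⟨aq, hNN⟩ := R.nhNF hr hrm hκ (j := 2) (by omega) (C := C) (δ := δ) (C' := C') (ρ := ρ)
    (v₀ := v₀) (k₁ := k₁) (vw := fun _ => 1 + ρ) w2 rfl hC hC' hδ hδ1 hv0 hρ0 hρ1 (by nlinarith)
    (by nlinarith) hεp.le (by linarith) (by linarith) (by linarith)
  -- the record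
  have hRf := R.recFr (k₁ := k₁) (vw := fun _ => 1 + ρ) (N₂ := 4) hr hrm hκ hκt (by norm_num)
    (fun k hk => by
      interval_cases k
      · exact ⟨0, by omega, a0, by rw [v0]; simp [vF]⟩
      · exact ⟨1, by omega, a1, by rw [v1]; norm_num [vF]⟩)
    ⟨2, by omega, a2, v2⟩
    (fun k hk hk' => by
      interval_cases k
      · exact ⟨0, by omega, by rw [w0]; simp [vF]⟩
      · exact ⟨1, by omega, by rw [w1]; simp [vF]⟩
      · exact ⟨2, by omega, by rw [w2, vF_ge le_rfl]⟩)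
    (fun k _ _ => by linarith) (fun k _ _ => by linarith) hS₂ hεp.le (by linarith) (by linarith)
  -- the velocity
  obtain ⟨K₂, hK₂, hVf⟩ := hV 4
    (fun _ => 1 + ρ) 1 qf (fun i => P₁ i - nt i) one_pos (fun i => by
      have h4 := hHf.P2 i
      have e0 : t + vF k₁ (fun _ => 1 + ρ) 0 * q = t := by simp [vF]
      have e3 : t + vF k₁ (fun _ => 1 + ρ) 3 * q = t + q := by simp [vF]
      simp only [e0, e3] at h4
      linarith) (fun J i => by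
      have := (abs_le.1 (hHf.qf1 J i)).1
      linarith)
  exact hx v₀ hv0 hv1 hRf (by linarith) (by linarith) hqf one_pos hK₂ le_rfl hVf hTW hHf hNN

/-- **The class theorem of a steep coordinate** over coordinates of slope one, from its first jet in
a subclass. -/
theorem celZ_f1s {m r : ℕ} (hr : 1 ≤ r) (hrm : r < m) {h : ℝ} {Sl : ℕ → ℝ} {κ : ℕ → Kg}
    (hκ : ∀ l < r, κ l = .one) (hκt : κ r = .stp) (hs : 2 < Sl r) {ι Λ : Type} {Q : PropG m ι}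
    {Z : PropZ m Λ} (hF : F1US m r h Sl κ Q Z) : CelZ m r h Sl κ (sumQ Q FaQ) Z :=
  celZ_us hr hrm hκ hκt hs (velUS_of_f1 hrm (by linarith only [hs]) hF)

end Pool.PKG
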