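import Pool.Agent.H19.FLN.Tri
import Pool.Agent.H13.FLN.Near

/-!
# The difference of two labels does not depend on an alive coordinate: the event

A polynomial `P` over a chain of charts, the paths in own coordinates. `own_flat`: if the values of
`P` along the paths are functions of a context and of a few bits, if the context knows the own paths
of the first coordinates, and if the own path of the last coordinate has entropy given the context
on all large events, then the derivative of `P` in the last coordinate is small near the paths.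
-/

set_option autoImplicit false

namespace Pool.FLN19

open Finset MvPolynomial
open Pool.Agent.H49.Ent Pool.Agent.H32.Dense Pool.STK Pool.KA Pool.KSAT Pool.K2S Pool.PB Pool.GEN
open Pool.S6C Pool.RCD Pool.LA91
open Pool.BFL (Pb)
open Pool.FLN13 (wc)

/-! ### One variable -/

theorem hd_update {σ : Type} [DecidableEq σ] (Q : MvPolynomial σ ℝ) (b : σ → ℝ) (i : σ) (x₀ : ℝ) :
    HasDerivAt (fun x => eval (Function.update b i x) Q)
      (eval (Function.update b i x₀) (pderiv i Q)) x₀ := by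
  induction Q using MvPolynomial.induction_on with
  | C a =>
    simp only [eval_C, pderiv_C, map_zero]
    exact hasDerivAt_const x₀ a
  | add p q hp hq =>
    simp only [map_add]
    exact hp.add hq
  | mul_X p j hp =>
    have h1 : HasDerivAt (fun x => Function.update b i x j) (if i = j then 1 else 0) x₀ := by
      by_cases h : i = j
      · subst h
        simp only [Function.update_self, if_pos]
        exact hasDerivAt_id x₀
      · simp only [Function.update_of_ne (Ne.symm h), if_neg h]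
        exact hasDerivAt_const x₀ _
    have h2 := hp.mul h1
    simp only [map_mul, eval_X, Derivation.leibniz, map_add, smul_eq_mul, pderiv_X] at h2 ⊢
    refine h2.congr_deriv ?_
    by_cases h : i = j
    · subst h
      simp only [Pi.single_eq_same, map_one, if_pos]
      ring
    · rw [Pi.single_eq_of_ne (Ne.symm h), map_zero, if_neg h]
      ring

/-- The coefficients, from the values. -/
theorem coeff_le (K : ℕ) : ∃ A : ℝ, 1 ≤ A ∧ ∀ (P : Polynomial ℝ) (M : ℝ), P.natDegree ≤ K →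
    (∀ τ : ℝ, |τ| ≤ 1 → |P.eval τ| ≤ M) → ∀ j, |P.coeff j| ≤ A * M := by
  obtain ⟨A, hA⟩ : ∃ A : ℝ, A = ((K : ℝ) + 1) * (2 ^ K / (1 / ((K + 1 : ℕ) : ℝ)) ^ K) := ⟨_, rfl⟩
  have hA0 : 0 ≤ A := by rw [hA]; positivity
  refine ⟨A + 1, by linarith, fun P M hP hM j => ?_⟩
  have hK : 0 < K + 1 := Nat.succ_pos K
  have hM0 : 0 ≤ M := (abs_nonneg _).trans (hM 0 (by norm_num))
  have h1 := Pool.FLT.lag_coeff (D := K) (fun i : Fin (K + 1) => Pool.FLN13.gp (K + 1) i)
    (s := 1 / ((K + 1 : ℕ) : ℝ)) (ε := M) (by positivity)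
    (fun i => Pool.FLN13.gp_le hK (by omega))
    (fun i l h => Pool.FLN13.gp_sep hK fun h' => h (Fin.ext h')) P hP
    (fun i => hM _ (Pool.FLN13.gp_le hK (by omega))) j
  rw [← hA] at h1
  linarith

/-- The coefficients, from the values on an interval. -/
theorem coeff_le' (K : ℕ) : ∃ A : ℝ, 1 ≤ A ∧ ∀ (P : Polynomial ℝ) (M ρ : ℝ), 0 < ρ →
    P.natDegree ≤ K → (∀ τ : ℝ, |τ| ≤ ρ → |P.eval τ| ≤ M) → ∀ j, |P.coeff j| * ρ ^ j ≤ A * M := by
  obtain ⟨A, hA, H⟩ := coeff_le K
  refine ⟨A, hA, fun P M ρ hρ hP hM j => ?_⟩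
  have h1 := H (P.comp (Polynomial.C ρ * Polynomial.X)) M
    ((Polynomial.natDegree_comp_le).trans ?_) (fun τ hτ => ?_) j
  · rw [Polynomial.comp_C_mul_X_coeff, abs_mul, abs_of_pos (by positivity : 0 < ρ ^ j)] at h1
    exact h1
  · refine (Nat.mul_le_mul hP ((Polynomial.natDegree_C_mul_le _ _).trans
      Polynomial.natDegree_X_le)).trans ?_
    rw [mul_one]
  · rw [Polynomial.eval_comp, Polynomial.eval_mul, Polynomial.eval_C, Polynomial.eval_X]
    refine hM _ ?_
    rw [abs_mul, abs_of_pos hρ]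
    exact mul_le_of_le_one_right hρ.le hτ

/-- A polynomial which is bounded on a long interval varies little. -/
theorem var_le (K : ℕ) : ∃ A : ℝ, 1 ≤ A ∧ ∀ (P : Polynomial ℝ) (M η : ℝ), 0 < η → η ≤ 1 →
    P.natDegree ≤ K → (∀ s : ℝ, |s| ≤ 1 / η → |P.eval s| ≤ M) →
      |P.eval 1 - P.eval 0| ≤ A * M * η := by
  obtain ⟨A, hA, H⟩ := coeff_le' K
  have hK : (0 : ℝ) ≤ K := Nat.cast_nonneg K
  refine ⟨(K + 1) * A, by nlinarith, fun P M η hη hη1 hP hM => ?_⟩
  have hM0 : 0 ≤ M := (abs_nonneg _).trans (hM 0 (by rw [abs_zero]; positivity))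
  have h1 : P.eval 1 - P.eval 0 = ∑ j ∈ range K, P.coeff (j + 1) := by
    rw [Polynomial.eval_eq_sum_range' (Nat.lt_succ_of_le hP), Polynomial.eval_eq_sum_range'
      (Nat.lt_succ_of_le hP), Finset.sum_range_succ', Finset.sum_range_succ' (f := fun i =>
      P.coeff i * (0 : ℝ) ^ i)]
    simp
  rw [h1]
  refine (Finset.abs_sum_le_sum_abs _ _).trans ?_
  have h2 : ∀ j ∈ range K, |P.coeff (j + 1)| ≤ A * M * η := by
    intro j _
    have h3 := H P M (1 / η) (by positivity) hP hM (j + 1)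
    have h4 : (1 / η) ≤ (1 / η) ^ (j + 1) := by
      have h5 : 1 ≤ 1 / η := by rw [one_le_div hη]; exact hη1
      calc 1 / η = (1 / η) ^ 1 := (pow_one _).symm
        _ ≤ (1 / η) ^ (j + 1) := pow_le_pow_right₀ h5 (by omega)
    have h6 : |P.coeff (j + 1)| * (1 / η) ≤ A * M :=
      (mul_le_mul_of_nonneg_left h4 (abs_nonneg _)).trans h3
    rw [mul_one_div, div_le_iff₀ hη] at h6
    exact h6
  refine (Finset.sum_le_sum h2).trans ?_
  rw [Finset.sum_const, card_range, nsmul_eq_mul]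
  have h3 : 0 ≤ A * M * η := by positivity
  nlinarith

/-! ### The chain -/

section chain

variable {m : ℕ} {c : ℕ → Fin m}

theorem tq_evl (g : ℕ → MvPolynomial (Option (Fin m)) ℝ) (t : Polynomial ℝ)
    (v : ℕ → Polynomial ℝ) (n : ℕ) (P : MvPolynomial (Option (Fin m)) ℝ) (s : ℝ) :
    (aeval (tq c g t v n) P).eval s =
      eval (tq c g (t.eval s) (fun l => (v l).eval s) n) P := by
  rw [Pool.FLN13.ev_comp]
  have h1 : (fun i => (tq c g t v n i).eval s) =
      tq c g (t.eval s) (fun l => (v l).eval s) n := by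
    funext o
    have h2 := tq_hom c g (Polynomial.aeval s : Polynomial ℝ →ₐ[ℝ] ℝ) t v n o
    simp only [Polynomial.coe_aeval_eq_eval] at h2
    exact h2
  rw [h1]

/-- **Moving the own coordinates.** -/
theorem tq_seg (K r : ℕ) : ∃ A : ℝ, 1 ≤ A ∧ ∀ {m : ℕ} {c : ℕ → Fin m}
    {g : ℕ → MvPolynomial (Option (Fin m)) ℝ} {P : MvPolynomial (Option (Fin m)) ℝ} {t : ℝ}
    {y y' R : ℕ → ℝ} {M η : ℝ}, (∀ l < r + 1, (g l).totalDegree ≤ K) → P.totalDegree ≤ K →
    0 < η → η ≤ 1 / 2 → (∀ l < r + 1, |y l| ≤ R l / 2) →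
    (∀ l < r + 1, |y' l - y l| ≤ η * R l) →
    (∀ x : ℕ → ℝ, (∀ l < r + 1, |x l| ≤ R l) → |eval (tq c g t x (r + 1)) P| ≤ M) →
    |eval (tq c g t y' (r + 1)) P - eval (tq c g t y (r + 1)) P| ≤ A * M * η := by
  obtain ⟨A, hA, H⟩ := var_le (K * dg K 1 (r + 1))
  refine ⟨2 * A, by linarith, ?_⟩
  intro m c g P t y y' R M η hg hP hη hη2 hy hy' hbox
  obtain ⟨q, hq⟩ : ∃ q : Polynomial ℝ, q = aeval (tq c g (Polynomial.C t)
    (fun l => Polynomial.C (y l) + Polynomial.C (y' l - y l) * Polynomial.X) (r + 1)) P :=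
    ⟨_, rfl⟩
  have hev : ∀ s : ℝ, q.eval s = eval (tq c g t (fun l => y l + (y' l - y l) * s) (r + 1)) P := by
    intro s
    rw [hq, tq_evl]
    simp only [Polynomial.eval_C, Polynomial.eval_add, Polynomial.eval_mul, Polynomial.eval_X]
  have hdeg : q.natDegree ≤ K * dg K 1 (r + 1) := by
    rw [hq]
    refine Pool.FLN13.deg_comp _ _ (tq_deg hg ?_ fun l _ => ?_) hP
    · rw [Polynomial.natDegree_C]
      exact Nat.zero_le _
    · refine (Polynomial.natDegree_add_le _ _).trans (max_le ?_ ?_)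
      · rw [Polynomial.natDegree_C]
        exact Nat.zero_le _
      · exact (Polynomial.natDegree_C_mul_le _ _).trans Polynomial.natDegree_X_le
  have h1 := H q M (2 * η) (by positivity) (by linarith) hdeg (fun s hs => by
    rw [hev]
    refine hbox _ fun l hl => ?_
    have h2 := hy l hl
    have h3 := hy' l hl
    have h4 : |(y' l - y l) * s| ≤ η * R l * (1 / (2 * η)) := by
      rw [abs_mul]
      exact mul_le_mul h3 hs (abs_nonneg _) ((abs_nonneg _).trans h3)
    have h5 : η * R l * (1 / (2 * η)) = R l / 2 := by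
      field_simp
    rw [h5] at h4
    refine (abs_add_le _ _).trans ?_
    linarith)
  rw [hev, hev] at h1
  have e1 : (fun l => y l + (y' l - y l) * 1) = y' := by
    funext l
    ring
  have e2 : (fun l => y l + (y' l - y l) * 0) = y := by
    funext l
    ring
  rw [e1, e2] at h1
  refine h1.trans (le_of_eq ?_)
  ring

/-- **The derivative in the last own coordinate.** -/
theorem tq_der (K r : ℕ) : ∃ A : ℝ, 1 ≤ A ∧ ∀ {m : ℕ} {c : ℕ → Fin m}
    {g : ℕ → MvPolynomial (Option (Fin m)) ℝ} {P : MvPolynomial (Option (Fin m)) ℝ} {t : ℝ}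
    {y R : ℕ → ℝ} {M : ℝ}, P.totalDegree ≤ K → 0 < R r → (∀ l < r, |y l| ≤ R l) →
    |y r| ≤ R r / 2 →
    (∀ x : ℕ → ℝ, (∀ l < r + 1, |x l| ≤ R l) → |eval (tq c g t x (r + 1)) P| ≤ M) →
    |eval (tq c g t y (r + 1)) (pderiv (some (c r)) P)| ≤ A * M / R r := by
  obtain ⟨A, hA, H⟩ := coeff_le' K
  refine ⟨2 * A, by linarith, ?_⟩
  intro m c g P t y R M hP hR hy hyr hbox
  obtain ⟨b, hb⟩ : ∃ b, b = tq c g t y (r + 1) := ⟨_, rfl⟩
  obtain ⟨q, hq⟩ : ∃ q : Polynomial ℝ, q = aeval (fun o => if o = some (c r) then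
    Polynomial.C (b o) + Polynomial.X else Polynomial.C (b o)) P := ⟨_, rfl⟩
  have hev : ∀ h : ℝ, q.eval h =
      eval (Function.update b (some (c r)) (b (some (c r)) + h)) P := by
    intro h
    rw [hq, Pool.FLN13.ev_comp]
    congr 2
    funext o
    by_cases ho : o = some (c r)
    · subst ho
      rw [if_pos rfl, Function.update_self]
      simp
    · rw [if_neg ho, Function.update_of_ne ho]
      simp
  have hdeg : q.natDegree ≤ K := by
    rw [hq]
    refine (Pool.FLN13.deg_comp _ _ (K := 1) (fun o => ?_) hP).trans (by rw [mul_one])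
    split_ifs
    · refine (Polynomial.natDegree_add_le _ _).trans (max_le ?_ Polynomial.natDegree_X_le)
      rw [Polynomial.natDegree_C]
      exact Nat.zero_le _
    · rw [Polynomial.natDegree_C]
      exact Nat.zero_le _
  have h1 := H q M (R r / 2) (by positivity) hdeg (fun h hh => by
    rw [hev, hb, ← tq_last]
    refine hbox _ fun l hl => ?_
    by_cases hlr : l = r
    · subst hlr
      rw [Function.update_self]
      refine (abs_add_le _ _).trans ?_
      linarith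
    · rw [Function.update_of_ne hlr]
      exact hy l (by omega)) 1
  have h2 : q.coeff 1 = eval b (pderiv (some (c r)) P) := by
    have h3 : HasDerivAt (fun h => q.eval h) (q.derivative.eval 0) 0 :=
      Polynomial.hasDerivAt q 0
    have h4 := hd_update P b (some (c r)) (b (some (c r)) + 0)
    have h5 : HasDerivAt (fun h => q.eval h) (eval b (pderiv (some (c r)) P)) 0 := by
      have h6 := HasDerivAt.comp (0 : ℝ) (h := fun h : ℝ => b (some (c r)) + h) h4
        ((hasDerivAt_id (0 : ℝ)).const_add (b (some (c r))))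
      rw [add_zero, Function.update_eq_self, mul_one] at h6
      refine h6.congr_of_eventuallyEq (Filter.Eventually.of_forall fun h => ?_)
      exact hev h
    have h6 := h3.unique h5
    rw [← h6, ← Polynomial.coeff_zero_eq_eval_zero, Polynomial.coeff_derivative]
    simp
  rw [h2, pow_one] at h1
  rw [← hb, le_div_iff₀ hR]
  linarith

end chain

/-! ### The event -/

theorem tdeg_paeval {σ : Type} (i : σ) (P : Polynomial ℝ) :
    (Polynomial.aeval (X i : MvPolynomial σ ℝ) P).totalDegree ≤ P.natDegree := by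
  rw [Polynomial.aeval_eq_sum_range]
  refine totalDegree_finsetSum_le fun j hj => ?_
  refine (totalDegree_smul_le _ _).trans ((totalDegree_pow _ _).trans ?_)
  rw [totalDegree_X, mul_one]
  exact Nat.lt_succ_iff.1 (Finset.mem_range.1 hj)

theorem aev {σ : Type} (f : σ → ℝ) (P : MvPolynomial σ ℝ) : aeval f P = eval f P := by
  rw [← coe_aeval_eq_eval]
  rfl

theorem pt_update (τ u x : ℝ) : Function.update (Pool.FLN13.pt τ u) 1 x = Pool.FLN13.pt τ x := by
  funext i
  fin_cases i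
  · rfl
  · rfl

/-- **A polynomial over a chain of charts does not depend on an alive coordinate.** -/
theorem own_flat (K k r : ℕ) : ∃ (C : ℝ) (D' B₀ : ℕ), 1 ≤ C ∧ ∀ {m : ℕ} {c : ℕ → Fin m}
    {Ω Z 𝒞 : Type} [Fintype Ω] {p : Ω → ℝ}, IsLaw p → ∀ (z : Ω → Z) (fc : Ω → 𝒞)
    (g : Z → ℕ → MvPolynomial (Option (Fin m)) ℝ) (P : Z → MvPolynomial (Option (Fin m)) ℝ)
    (tm : Z → ℝ) (s : ℝ) (Y : Ω → ℕ → Polynomial ℝ) (R : ℕ → ℝ) (n β : ℕ)
    {M η δ c₀ e L : ℝ}, (∀ l < r + 1, 0 < R l) → 0 < η → η ≤ 1 / 2 → 0 ≤ δ → 0 < c₀ →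
    (∀ v, ∀ l < r + 1, (g v l).totalDegree ≤ K) → (∀ v, (P v).totalDegree ≤ K) →
    (∀ ω, ∀ l < r + 1, (Y ω l).natDegree ≤ k) →
    (∀ ω, 0 < p ω → ∀ τ : ℝ, |τ| ≤ 1 → ∀ l < r + 1, |(Y ω l).eval τ| ≤ R l / 8) →
    (∀ ω, 0 < p ω → ∀ τ : ℝ, |τ| ≤ 1 → ∀ x : ℕ → ℝ, (∀ l < r + 1, |x l| ≤ R l) →
      |eval (tq c (g (z ω)) (tm (z ω) + s * τ) x (r + 1)) (P (z ω))| ≤ M) →
    (∀ ω ω', 0 < p ω → 0 < p ω' → z ω = z ω' → ∀ l < r, ∀ τ : ℝ, |τ| ≤ 1 →
      |(Y ω l).eval τ - (Y ω' l).eval τ| ≤ η * R l) →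
    (∀ ω ω', 0 < p ω → 0 < p ω' → z ω = z ω' → fc ω = fc ω' → ∀ τ : ℝ, |τ| ≤ 1 →
      |eval (tq c (g (z ω)) (tm (z ω) + s * τ) (fun l => (Y ω l).eval τ) (r + 1)) (P (z ω)) -
        eval (tq c (g (z ω)) (tm (z ω) + s * τ) (fun l => (Y ω' l).eval τ) (r + 1)) (P (z ω))| ≤
        δ) → CH p fc z ≤ e →
    (∀ Q : Ω → Prop, c₀ ≤ Pb p Q → L ≤ CH (Pool.Agent.H49.Ent.cond p Q True)
      (wc k (n * β) (R r) fun ω => Y ω r) z) →
    (k + 1) * Real.log (2 * B₀ + 1) + n * Real.log (D' * 3 ^ (k + 1) + 1) + e / c₀ < L →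
    Pb p (fun ω => ¬ ∀ τ h : ℝ, |τ| ≤ 1 → |h| ≤ R r / 16 / 2 ^ (n * β) →
      |eval (tq c (g (z ω)) (tm (z ω) + s * τ) (Function.update (fun l => (Y ω l).eval τ) r
        ((Y ω r).eval τ + h)) (r + 1)) (pderiv (some (c r)) (P (z ω)))| ≤
          C * (δ + M * η) * (2 ^ β) ^ D' * 2 ^ (n * β) / R r) < c₀ := by
  classical
  obtain ⟨A₀, hA₀, H₀⟩ := coeff_le k
  obtain ⟨A₁, hA₁, H₁⟩ := tq_seg K r
  obtain ⟨A₂, hA₂, H₂⟩ := tq_der K r
  obtain ⟨D, hD⟩ : ∃ D, D = K * dg K (max 1 k) (r + 1) := ⟨_, rfl⟩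
  obtain ⟨C₁, hC₁, H₃⟩ := Pool.FLN13.flat_near D k
  obtain ⟨B₀, hB₀⟩ := exists_nat_ge A₀
  refine ⟨C₁ * A₁ + A₁ * A₂ + C₁, D, B₀, by nlinarith, ?_⟩
  intro m c Ω Z 𝒞 _ p hp z fc g P tm s Y R n β M η δ c₀ e L hR hη hη2 hδ hc₀ hg hP hY hYb hbox
    hfib hkn hfew hal hL
  have hRr := hR r (Nat.lt_succ_self r)
  -- the references
  obtain ⟨Yr, hYr⟩ : ∃ Yr : Z → ℕ → Polynomial ℝ, Yr = fun v => if h : ∃ ω, 0 < p ω ∧ z ω = v then
    Y h.choose else fun _ => 0 := ⟨_, rfl⟩
  have hYr1 : ∀ ω, 0 < p ω → ∃ ω', 0 < p ω' ∧ z ω' = z ω ∧ Yr (z ω) = Y ω' := by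
    intro ω hω
    have h : ∃ ω', 0 < p ω' ∧ z ω' = z ω := ⟨ω, hω, rfl⟩
    refine ⟨h.choose, h.choose_spec.1, h.choose_spec.2, ?_⟩
    rw [hYr]
    exact dif_pos h
  have hYrd : ∀ v, ∀ l < r + 1, (Yr v l).natDegree ≤ k := by
    intro v l hl
    rw [hYr]
    dsimp only
    split_ifs with h
    · exact hY _ l hl
    · rw [Polynomial.natDegree_zero]
      exact Nat.zero_le _
  obtain ⟨f, hf⟩ : ∃ f : Z → 𝒞 → ℝ → ℝ, f = fun v j τ =>
    if h : ∃ ω, 0 < p ω ∧ z ω = v ∧ fc ω = j then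
      eval (tq c (g v) (tm v + s * τ) (fun l => (Y h.choose l).eval τ) (r + 1)) (P v) else 0 :=
    ⟨_, rfl⟩
  obtain ⟨g₂, hg₂⟩ : ∃ g₂ : Z → MvPolynomial (Fin 2) ℝ, g₂ = fun v =>
    aeval (tq c (g v) (C (tm v) + C s * X 0) (fun l => if l = r then X 1 else
      Polynomial.aeval (X 0) (Yr v l)) (r + 1)) (P v) := ⟨_, rfl⟩
  have hev : ∀ v τ u, eval (Pool.FLN13.pt τ u) (g₂ v) = eval (tq c (g v) (tm v + s * τ)
      (fun l => if l = r then u else (Yr v l).eval τ) (r + 1)) (P v) := by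
    intro v τ u
    rw [hg₂]
    dsimp only
    have h1 := comp_aeval_apply (tq c (g v) (C (tm v) + C s * X 0 : MvPolynomial (Fin 2) ℝ)
      (fun l => if l = r then X 1 else Polynomial.aeval (X 0) (Yr v l)) (r + 1))
      (aeval (Pool.FLN13.pt τ u) : MvPolynomial (Fin 2) ℝ →ₐ[ℝ] ℝ) (P v)
    rw [aev, aev] at h1
    refine h1.trans ?_
    congr 2
    funext o
    have h2 := tq_hom c (g v) (aeval (Pool.FLN13.pt τ u) : MvPolynomial (Fin 2) ℝ →ₐ[ℝ] ℝ)
      (C (tm v) + C s * X 0 : MvPolynomial (Fin 2) ℝ)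
      (fun l => if l = r then X 1 else Polynomial.aeval (X 0) (Yr v l)) (r + 1) o
    rw [aev] at h2
    refine h2.trans ?_
    simp only [aev]
    have h3 : eval (Pool.FLN13.pt τ u) (C (tm v) + C s * X 0 : MvPolynomial (Fin 2) ℝ) = tm v + s * τ := by
      simp [Pool.FLN13.pt]
    have h4 : (fun l => eval (Pool.FLN13.pt τ u) (if l = r then (X 1 : MvPolynomial (Fin 2) ℝ) else
        Polynomial.aeval (X 0) (Yr v l))) = fun l => if l = r then u else (Yr v l).eval τ := by
      funext l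
      by_cases hl : l = r
      · rw [if_pos hl, if_pos hl]
        simp [Pool.FLN13.pt]
      · rw [if_neg hl, if_neg hl, ← aev, ← Polynomial.aeval_algHom_apply, aeval_X,
          Polynomial.coe_aeval_eq_eval]
        rfl
    rw [h3, h4]
  have hdeg : ∀ v, (g₂ v).totalDegree ≤ D := by
    intro v
    rw [hg₂, hD]
    refine tdeg_aeval _ _ (tq_tdeg (hg v) ?_ fun l hl => ?_) (hP v)
    · refine (totalDegree_add _ _).trans (max_le ?_ ?_)
      · rw [totalDegree_C]
        exact Nat.zero_le _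
      · refine (totalDegree_mul _ _).trans ?_
        rw [totalDegree_C, zero_add, totalDegree_X]
        exact le_max_left _ _
    · by_cases hlr : l = r
      · rw [if_pos hlr, totalDegree_X]
        exact le_max_left _ _
      · rw [if_neg hlr]
        exact (tdeg_paeval _ _).trans ((hYrd v l hl).trans (le_max_right _ _))
  -- the difference from the reference
  have hys : ∀ ω, 0 < p ω → ∀ τ : ℝ, |τ| ≤ 1 → ∀ h : ℝ, |h| ≤ R r / 16 → ∀ l < r + 1,
      |(if l = r then (Y ω r).eval τ + h else (Yr (z ω) l).eval τ) -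
        Function.update (fun l => (Y ω l).eval τ) r ((Y ω r).eval τ + h) l| ≤ η * R l := by
    intro ω hω τ hτ h hh l hl
    by_cases hlr : l = r
    · subst hlr
      rw [if_pos rfl, Function.update_self, sub_self, abs_zero]
      exact mul_nonneg hη.le (hR l hl).le
    · rw [if_neg hlr, Function.update_of_ne hlr]
      obtain ⟨ω', hω', h1, h2⟩ := hYr1 ω hω
      rw [h2]
      exact hfib ω' ω hω' hω h1 l (by omega) τ hτ
  have hyb : ∀ ω, 0 < p ω → ∀ τ : ℝ, |τ| ≤ 1 → ∀ h : ℝ, |h| ≤ R r / 16 → ∀ l < r + 1,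
      |Function.update (fun l => (Y ω l).eval τ) r ((Y ω r).eval τ + h) l| ≤ R l / 4 := by
    intro ω hω τ hτ h hh l hl
    have h0 := hR l hl
    by_cases hlr : l = r
    · subst hlr
      rw [Function.update_self]
      have h1 := hYb ω hω τ hτ l hl
      refine (abs_add_le _ _).trans ?_
      linarith
    · rw [Function.update_of_ne hlr]
      have h1 := hYb ω hω τ hτ l hl
      linarith
  have hup0 : ∀ ω (τ : ℝ), Function.update (fun l => (Y ω l).eval τ) r ((Y ω r).eval τ + 0) =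
      fun l => (Y ω l).eval τ := by
    intro ω τ
    rw [add_zero]
    exact Function.update_eq_self r _
  have hdif : ∀ ω, 0 < p ω → ∀ τ : ℝ, |τ| ≤ 1 →
      |eval (Pool.FLN13.pt τ ((Y ω r).eval τ)) (g₂ (z ω)) - f (z ω) (fc ω) τ| ≤ δ + A₁ * M * η := by
    intro ω hω τ hτ
    have h1 := H₁ (c := c) (g := g (z ω)) (P := P (z ω)) (t := tm (z ω) + s * τ)
      (y := fun l => (Y ω l).eval τ)
      (y' := fun l => if l = r then (Y ω r).eval τ else (Yr (z ω) l).eval τ) (R := R) (M := M)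
      (η := η) (hg _) (hP _) hη hη2 (fun l hl => by
        have h2 := hYb ω hω τ hτ l hl
        have h3 := hR l hl
        linarith) (fun l hl => by
        have h2 := hys ω hω τ hτ 0 (by rw [abs_zero]; positivity) l hl
        rw [hup0, add_zero] at h2
        exact h2) (hbox ω hω τ hτ)
    rw [hev]
    have h2 : ∃ ω', 0 < p ω' ∧ z ω' = z ω ∧ fc ω' = fc ω := ⟨ω, hω, rfl, rfl⟩
    have h3 : f (z ω) (fc ω) τ = eval (tq c (g (z ω)) (tm (z ω) + s * τ)
        (fun l => (Y h2.choose l).eval τ) (r + 1)) (P (z ω)) := by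
      rw [hf]
      exact dif_pos h2
    have h4 := hkn ω h2.choose hω h2.choose_spec.1 h2.choose_spec.2.1.symm
      h2.choose_spec.2.2.symm τ hτ
    rw [← h3] at h4
    have h5 := abs_le.1 h1
    have h6 := abs_le.1 h4
    rw [abs_le]
    constructor <;> linarith [h5.1, h5.2, h6.1, h6.2]
  have hM0 : ∀ ω, 0 < p ω → 0 ≤ M := fun ω hω =>
    (abs_nonneg _).trans (hbox ω hω 0 (by norm_num) (fun _ => 0) fun l hl => by
      rw [abs_zero]
      exact (hR l hl).le)
  by_cases hpos : ∃ ω, 0 < p ω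
  swap
  · refine lt_of_le_of_lt (le_of_eq ?_) hc₀
    unfold Pb
    refine Finset.sum_eq_zero fun ω _ => ?_
    have h1 : p ω = 0 := le_antisymm (not_lt.1 fun h => hpos ⟨ω, h⟩) (hp.nonneg ω)
    rw [h1]
    split_ifs <;> rfl
  obtain ⟨ω₀, hω₀⟩ := hpos
  have hM := hM0 ω₀ hω₀
  have key := H₃ hp z fc g₂ f (fun ω => Y ω r) n β B₀ (r := R r) (ε := δ + A₁ * M * η) (c := c₀)
    (e := e) (L := L) hRr (by positivity) hc₀ hdeg (fun ω => hY ω r (Nat.lt_succ_self r))
    (fun ω hω j => by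
      have h1 := H₀ (Y ω r) (R r / 8) (hY ω r (Nat.lt_succ_self r))
        (fun τ hτ => hYb ω hω τ hτ r (Nat.lt_succ_self r)) j
      refine h1.trans ?_
      have h2 : A₀ * (R r / 8) ≤ A₀ * R r := mul_le_mul_of_nonneg_left (by linarith) (by linarith)
      exact h2.trans (mul_le_mul_of_nonneg_right hB₀ hRr.le)) hdif hfew hal (by
      rw [hD] at hL ⊢
      exact hL)
  refine lt_of_le_of_lt (Pool.LIV.Pb_mono25 hp.nonneg fun ω hω hn => ?_) key
  intro hall
  refine hn fun τ h hτ hh => ?_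
  have hpw : (1 : ℝ) ≤ 2 ^ (n * β) := one_le_pow₀ (by norm_num)
  have hh' : |h| ≤ R r / 16 := hh.trans (div_le_self (by positivity) hpw)
  have h1 := (hall τ h hτ (hh.trans (by
    refine div_le_div_of_nonneg_right ?_ (by positivity)
    linarith))).2
  -- the derivative of the reference
  have h2 : eval (Pool.FLN13.pt τ ((Y ω r).eval τ + h)) (pderiv 1 (g₂ (z ω))) =
      eval (tq c (g (z ω)) (tm (z ω) + s * τ)
        (fun l => if l = r then (Y ω r).eval τ + h else (Yr (z ω) l).eval τ) (r + 1))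
        (pderiv (some (c r)) (P (z ω))) := by
    obtain ⟨u, hu⟩ : ∃ u, u = (Y ω r).eval τ + h := ⟨_, rfl⟩
    rw [← hu]
    obtain ⟨v, hv⟩ : ∃ v : ℕ → ℝ, v = fun l => if l = r then u else (Yr (z ω) l).eval τ :=
      ⟨_, rfl⟩
    rw [← hv]
    have hvr : v r = u := by rw [hv]; exact if_pos rfl
    have h3 := hd_update (g₂ (z ω)) (Pool.FLN13.pt τ u) 1 u
    simp only [pt_update] at h3
    have h4 := hd_update (P (z ω)) (tq c (g (z ω)) (tm (z ω) + s * τ) v (r + 1)) (some (c r))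
      (tq c (g (z ω)) (tm (z ω) + s * τ) v (r + 1) (some (c r)) + 0)
    have h5 : HasDerivAt (fun x => eval (Pool.FLN13.pt τ x) (g₂ (z ω)))
        (eval (tq c (g (z ω)) (tm (z ω) + s * τ) v (r + 1)) (pderiv (some (c r)) (P (z ω)))) u := by
      have h6 := HasDerivAt.comp u (h := fun x : ℝ =>
        tq c (g (z ω)) (tm (z ω) + s * τ) v (r + 1) (some (c r)) + (x - u))
        (by rw [sub_self]; exact h4)
        (((hasDerivAt_id u).sub_const u).const_add _)
      rw [add_zero, Function.update_eq_self, mul_one] at h6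
      refine h6.congr_of_eventuallyEq (Filter.Eventually.of_forall fun x => ?_)
      show eval (Pool.FLN13.pt τ x) (g₂ (z ω)) = eval (Function.update _ _ _) (P (z ω))
      rw [hev, ← tq_last]
      have h7 : Function.update v r (v r + (x - u)) = fun l => if l = r then x else
          (Yr (z ω) l).eval τ := by
        funext l
        by_cases hl : l = r
        · subst hl
          rw [Function.update_self, if_pos rfl, hvr]
          ring
        · rw [Function.update_of_ne hl, if_neg hl, hv]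
          exact if_neg hl
      rw [h7]
    exact h3.unique h5
  rw [h2] at h1
  -- the derivative at the own point
  have h3 := H₁ (c := c) (g := g (z ω)) (P := pderiv (some (c r)) (P (z ω)))
    (t := tm (z ω) + s * τ)
    (y := Function.update (fun l => (Y ω l).eval τ) r ((Y ω r).eval τ + h))
    (y' := fun l => if l = r then (Y ω r).eval τ + h else (Yr (z ω) l).eval τ)
    (R := fun l => if l = r then R r / 2 else R l) (M := A₂ * M / R r)
    (η := η) (hg _) ((Pool.Agent.H50.PW.totalDegree_pderiv_le _ _).trans (hP _)) hη hη2 (fun l hl => by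
      have h4 := hyb ω hω τ hτ h hh' l hl
      have h5 := hR l hl
      split_ifs with hlr
      · rw [hlr] at h4 ⊢
        linarith
      · linarith) (fun l hl => by
      by_cases hlr : l = r
      · rw [if_pos hlr, hlr, Function.update_self, sub_self, abs_zero, if_pos rfl]
        positivity
      · have h4 := hys ω hω τ hτ h hh' l hl
        rw [if_neg hlr] at h4 ⊢
        rw [if_neg hlr]
        exact h4) (fun x hx => H₂ (hP _) hRr (fun l hl => by
        have h4 := hx l (by omega)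
        rw [if_neg (by omega)] at h4
        exact h4) (by
        have h4 := hx r (Nat.lt_succ_self r)
        rw [if_pos rfl] at h4
        exact h4) (hbox ω hω τ hτ))
  have hE : 0 ≤ δ + A₁ * M * η := by positivity
  have hpb : (1 : ℝ) ≤ (2 ^ β) ^ D * 2 ^ (n * β) := by
    refine one_le_mul_of_one_le_of_one_le (one_le_pow₀ (one_le_pow₀ (by norm_num))) hpw
  have h4 : A₁ * (A₂ * M / R r) * η ≤ A₁ * A₂ * (M * η) * ((2 ^ β) ^ D * 2 ^ (n * β)) / R r := by
    have h5 : A₁ * (A₂ * M / R r) * η = A₁ * A₂ * (M * η) / R r := by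
      field_simp
    rw [h5]
    refine div_le_div_of_nonneg_right ?_ hRr.le
    exact le_mul_of_one_le_right (by positivity) hpb
  have h5 : C₁ * (δ + A₁ * M * η) * (2 ^ β) ^ D * 2 ^ (n * β) / R r +
      A₁ * A₂ * (M * η) * ((2 ^ β) ^ D * 2 ^ (n * β)) / R r ≤
      (C₁ * A₁ + A₁ * A₂ + C₁) * (δ + M * η) * (2 ^ β) ^ D * 2 ^ (n * β) / R r := by
    rw [← add_div]
    refine div_le_div_of_nonneg_right ?_ hRr.le
    obtain ⟨W₀, hW₀⟩ : ∃ x : ℝ, x = (2 ^ β) ^ D * 2 ^ (n * β) := ⟨_, rfl⟩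
    have e1 : C₁ * (δ + A₁ * M * η) * (2 ^ β) ^ D * 2 ^ (n * β) =
      (C₁ * δ + C₁ * A₁ * (M * η)) * W₀ := by rw [hW₀]; ring
    have e2 : (C₁ * A₁ + A₁ * A₂ + C₁) * (δ + M * η) * (2 ^ β) ^ D * 2 ^ (n * β) =
      (C₁ * A₁ + A₁ * A₂ + C₁) * (δ + M * η) * W₀ := by rw [hW₀]; ring
    rw [e1, e2, ← hW₀]
    have hWn : 0 ≤ W₀ := by linarith
    rw [← add_mul]
    refine mul_le_mul_of_nonneg_right ?_ hWn
    have f1 : 0 ≤ C₁ * A₁ * δ := by positivity
    have f2 : 0 ≤ A₁ * A₂ * δ := by positivity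
    have f3 : 0 ≤ C₁ * (M * η) := by positivity
    nlinarith
  have h6 := abs_sub_abs_le_abs_sub (eval (tq c (g (z ω)) (tm (z ω) + s * τ)
    (Function.update (fun l => (Y ω l).eval τ) r ((Y ω r).eval τ + h)) (r + 1))
    (pderiv (some (c r)) (P (z ω)))) (eval (tq c (g (z ω)) (tm (z ω) + s * τ)
    (fun l => if l = r then (Y ω r).eval τ + h else (Yr (z ω) l).eval τ) (r + 1))
    (pderiv (some (c r)) (P (z ω))))
  rw [abs_sub_comm] at h3
  linarith

end Pool.FLN19
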