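import Pool.Agent.H19.FLN.F1a
import Pool.Agent.H19.FLN.Own
import Pool.Agent.H68.OWN.Jq
import Pool.Agent.H68.OWN.Nf

/-!
# The own path of an alive coordinate is alive

`alv_wc`: if the first jet of the coordinate `c r` at the window `t` has entropy at least `s₀ J` given
the near jets of the chain and every closed function, then so has the code of its own path over the
label of a window `v ≤ t`, given in addition a context which is few bits.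
-/

set_option autoImplicit false

namespace Pool.FLN19

open Finset Real MvPolynomial
open Pool.Agent.H49.Ent Pool.Agent.H32.Dense Pool.STK Pool.KA Pool.KSAT Pool.K2S Pool.PB Pool.GEN
open Pool.S6C Pool.RCD Pool.LA91 Pool.OWN68
open Pool.GRD (LbP)
open Pool.BFL (Pb)
open Pool.FLN13 (wc)

/-- **The own path of an alive coordinate is alive.** -/
theorem alv_wc (K : ℕ) : ∃ M₀ : ℕ, ∀ {m : ℕ} {S : PCl m} {C₀ : ℝ} (_ : TmC S C₀) {c : ℕ → Fin m}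
    {r : ℕ} {v t e e' s₀ h₁ pr pu N₁ Eu ru : ℝ} {pf : ℕ → ℝ} {Nf : ℕ → ℕ → ℝ} (_ : 0 ≤ v)
    (_ : v ≤ 1) (_ : 0 ≤ ru) (_ : 0 ≤ Eu) (_ : 0 < e) (_ : e ≤ e')
    (_ : AlvQ S t (fun _ F => F.T) (qJets m c 0 r 1 (fun _ _ => t) (fun l _ => pf l) Nf)
        (qJet m ((range r).image c) (c r) 1 t pr N₁) e' s₀)
    (_ : Exs S (qJet m ((range r).image c) (c r) 1 t pr N₁))
    (_ : F1 S (fun J F => ptr F J) (vg t) (fun _ F => F.T)
      ((qJets m c 0 r 1 (fun _ _ => t) (fun l _ => pf l) Nf).prod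
        (qJet m ((range r).image c) (c r) 1 v pu N₁))
      (qJet m ((range r).image c) (c r) 1 t pr N₁) e' h₁),
    ∀ K₀ : ℕ, Bas S (fun J F A => ∀ u₀,
      (qJets m c 0 r 1 (fun _ _ => t) (fun l _ => pf l) Nf).P K₀ e' J F A u₀ →
      ∀ (V : Type) (z : PtT F → V) (z' : LnT F → V) (gu : V → MvPolynomial (Option (Fin m)) ℝ),
      LbOK F ((range r).image c) (c r) K ⌊(Eu + e) * J⌋₊ J ⌊v * J⌋₊ ⌊(ru + e) * J⌋₊
        ⌊(pu - e) * J⌋₊ A z z' gu →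
      ∀ (Z₁ : Type) (z₁ : F.Ω → Z₁), Cl2 (ptr F J) (vg t J F) A z₁ →
      ∀ (Y : Type) (Cx : F.Ω → Y) (n : ℕ) (R : ℝ), 0 < R → (2 : ℝ) ^ ((N₁ + v) * J) ≤ 2 ^ n / R →
      s₀ * J ≤ CH (Pool.Agent.H49.Ent.cond F.p A True) Cx (fun ω => (u₀ ω, (z₁ ω, F.T ω))) +
        CH (Pool.Agent.H49.Ent.cond F.p A True) (wc (K + 1) n R (fun ω =>
            opl F ⌊v * J⌋₊ (X (some (c r)) - gu (z' (slam F ⌊v * J⌋₊ ω))) (slam F ⌊v * J⌋₊ ω)))
          (fun ω => (Cx ω, (u₀ ω, (z₁ ω, F.T ω)))) + h₁ * J + M₀) := by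
  obtain ⟨M, hM⟩ := jet_path (K + 1) 1
  obtain ⟨M₀, hM₀⟩ := exists_nat_ge (((K + 1 + 1 : ℕ) : ℝ) * Real.log 5 + Real.log (2 * M + 1))
  refine ⟨M₀, ?_⟩
  intro m S C₀ htm c r v t e e' s₀ h₁ pr pu N₁ Eu ru pf Nf hv0 hv1 hru hEu he hee hal hx hF K₀
  obtain ⟨M₁, J₁, hcnt⟩ := cnt_jet m K 1 (N := N₁) (w := v) hru (show 0 < Eu + e by linarith)
  obtain ⟨K₁, M₂, hx₁⟩ := hx e' (he.trans_le hee)
  obtain ⟨K₂, hK₂⟩ : ∃ K₂, K₂ = max (max K₀ K₁) (max K M₁) := ⟨_, rfl⟩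
  have k0 : K₀ ≤ K₂ := by rw [hK₂]; exact (le_max_left _ _).trans (le_max_left _ _)
  have k1 : K₁ ≤ K₂ := by rw [hK₂]; exact (le_max_right _ _).trans (le_max_left _ _)
  have k2 : K ≤ K₂ := by rw [hK₂]; exact (le_max_left _ _).trans (le_max_right _ _)
  have k3 : M₁ ≤ K₂ := by rw [hK₂]; exact (le_max_right _ _).trans (le_max_right _ _)
  refine Bas.mono J₁ (((hal K₂).and (hF K₂)).and (hx₁.and (Pool.GRW.tmc_bas htm one_pos))) ?_
  rintro J hJ F A ⟨⟨h1, h2⟩, ⟨u', hu', -⟩, hA, -⟩ u₀ hu₀ V z z' gu hlb Z₁ z₁ hz₁ Y Cx n R hR hnR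
  have hJ0 : (0 : ℝ) ≤ J := Nat.cast_nonneg J
  have hcl := isLaw_cond F.isLaw hA
  have h0 := hcl.nonneg
  obtain ⟨u'', hu''⟩ : ∃ u'' : F.Ω → ℤ, u'' = fun ω => ⌊(2 : ℝ) ^ (N₁ * J) *
    ojet F (c r) 1 (gu (z' (slam F ⌊v * J⌋₊ ω))) ω⌋ := ⟨_, rfl⟩
  have hu''P : (qJet m ((range r).image c) (c r) 1 v pu N₁).P K₂ e' J F A u'' := by
    rw [hu'']
    refine ⟨?_, V, z, z', gu, ?_, fun ω _ => rfl⟩
    · refine (hcnt J hJ F ((range r).image c) (c r) _ A V z z' gu (hlb.mono (Finset.Subset.refl _)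
        le_rfl le_rfl ?_ le_rfl)).trans
        (Real.exp_le_exp.2 (mul_le_mul_of_nonneg_right (by exact_mod_cast k3) hJ0))
      exact Nat.floor_le_floor (mul_le_mul_of_nonneg_right (by linarith) hJ0)
    · refine (LbP.of hlb).mono (Finset.Subset.refl _) k2 ?_
      exact Nat.floor_le_floor (mul_le_mul_of_nonneg_right (by linarith) hJ0)
  have hu₀P := (qJets m c 0 r 1 (fun _ _ => t) (fun l _ => pf l) Nf).mono k0 le_rfl hu₀
  have hu'P := (qJet m ((range r).image c) (c r) 1 t pr N₁).mono k1 le_rfl hu'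
  obtain ⟨V₂, z₂, hz₂, a2⟩ := h2 (fun ω => (u₀ ω, u'' ω)) u' ⟨hu₀P, hu''P⟩ hu'P
  have a1 := h1 u₀ u' hu₀P hu'P _ _ (hz₁.join hz₂)
  obtain ⟨wcd, hwcd⟩ : ∃ wcd : F.Ω → Fin (K + 1 + 1) → ℤ, wcd = wc (K + 1) n R (fun ω =>
      opl F ⌊v * J⌋₊ (X (some (c r)) - gu (z' (slam F ⌊v * J⌋₊ ω))) (slam F ⌊v * J⌋₊ ω)) :=
    ⟨_, rfl⟩
  rw [← hwcd]
  obtain ⟨W₁, hW₁⟩ : ∃ W₁ : F.Ω → (ℕ → ℕ → ℤ) × ((Z₁ × V₂) × ℕ), W₁ = fun ω =>
    (u₀ ω, ((z₁ ω, z₂ ω), F.T ω)) := ⟨_, rfl⟩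
  have a1' : s₀ * J ≤ CH (Pool.Agent.H49.Ent.cond F.p A True) u' W₁ := by
    rw [hW₁]
    exact a1
  obtain ⟨cd, hcd⟩ : ∃ cd : F.Ω → Fin (K + 1 + 1) → ℤ, cd = fun ω (j : Fin (K + 1 + 1)) =>
    ⌊jr F ⌊v * J⌋₊ (2 ^ ((N₁ + v) * J)) (c r) z' gu j (slam F ⌊v * J⌋₊ ω)⌋ := ⟨_, rfl⟩
  -- the chain rule
  have s1 := CH_le_add h0 u' Cx W₁
  have s2 := CH_le_add h0 u' wcd (fun ω => (Cx ω, W₁ ω))
  have s3 := CH_le_add h0 u' cd (fun ω => (wcd ω, (Cx ω, W₁ ω)))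
  have s4 := CH_le_add h0 u' u'' (fun ω => (cd ω, (wcd ω, (Cx ω, W₁ ω))))
  have s5 : CH (Pool.Agent.H49.Ent.cond F.p A True) Cx W₁ ≤
      CH (Pool.Agent.H49.Ent.cond F.p A True) Cx (fun ω => (u₀ ω, (z₁ ω, F.T ω))) := by
    refine CH_mono_cond h0 fun ω ω' _ _ hh => ?_
    rw [hW₁] at hh
    simp only [Prod.mk.injEq] at hh ⊢
    exact ⟨hh.1, hh.2.1.1, hh.2.2⟩
  have s6 : CH (Pool.Agent.H49.Ent.cond F.p A True) wcd (fun ω => (Cx ω, W₁ ω)) ≤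
      CH (Pool.Agent.H49.Ent.cond F.p A True) wcd (fun ω => (Cx ω, (u₀ ω, (z₁ ω, F.T ω)))) := by
    refine CH_mono_cond h0 fun ω ω' _ _ hh => ?_
    rw [hW₁] at hh
    simp only [Prod.mk.injEq] at hh ⊢
    exact ⟨hh.1, hh.2.1, hh.2.2.1.1, hh.2.2.2⟩
  have s7 : CH (Pool.Agent.H49.Ent.cond F.p A True) cd (fun ω => (wcd ω, (Cx ω, W₁ ω))) ≤
      ((K + 1 + 1 : ℕ) : ℝ) * Real.log 5 := by
    refine (CH_pis h0 cd _).trans ?_
    have h3 : ∀ j ∈ (Finset.univ : Finset (Fin (K + 1 + 1))),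
        CH (Pool.Agent.H49.Ent.cond F.p A True) (fun ω => cd ω j)
          (fun ω => (wcd ω, (Cx ω, W₁ ω))) ≤ Real.log 5 := by
      intro j _
      refine (CH_pair hcl (fun ω => cd ω j) _ (D := 2) fun ω ω' _ _ hh => ?_).trans (le_of_eq ?_)
      · have hw := congrFun (Prod.ext_iff.mp hh).1 j
        rw [hwcd] at hw
        rw [hcd]
        obtain ⟨a, ha⟩ : ∃ a, a = (opl F ⌊v * J⌋₊ (X (some (c r)) -
          gu (z' (slam F ⌊v * J⌋₊ ω))) (slam F ⌊v * J⌋₊ ω)).coeff j := ⟨_, rfl⟩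
        obtain ⟨b, hb⟩ : ∃ b, b = (opl F ⌊v * J⌋₊ (X (some (c r)) -
          gu (z' (slam F ⌊v * J⌋₊ ω'))) (slam F ⌊v * J⌋₊ ω')).coeff j := ⟨_, rfl⟩
        have hw' : ⌊a * 2 ^ n / R⌋ = ⌊b * 2 ^ n / R⌋ := by
          rw [ha, hb]
          exact hw
        have e1 : ∀ x : LnT F, jr F ⌊v * J⌋₊ (2 ^ ((N₁ + v) * J)) (c r) z' gu j x =
            2 ^ ((N₁ + v) * J) * (opl F ⌊v * J⌋₊ (X (some (c r)) - gu (z' x)) x).coeff j := by
          intro x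
          unfold jr jR
          rw [Polynomial.coeff_C_mul]
        show |⌊jr F ⌊v * J⌋₊ (2 ^ ((N₁ + v) * J)) (c r) z' gu j (slam F ⌊v * J⌋₊ ω)⌋ -
          ⌊jr F ⌊v * J⌋₊ (2 ^ ((N₁ + v) * J)) (c r) z' gu j (slam F ⌊v * J⌋₊ ω')⌋| ≤ ((2 : ℕ) : ℤ)
        rw [e1, e1, ← ha, ← hb]
        refine floor_sub_le (D := 1) ?_
        have e2 : |a * 2 ^ n / R - b * 2 ^ n / R| ≤ 1 := by
          have g1 := Int.floor_le (a * 2 ^ n / R)
          have g2 := Int.lt_floor_add_one (a * 2 ^ n / R)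
          have g3 := Int.floor_le (b * 2 ^ n / R)
          have g4 := Int.lt_floor_add_one (b * 2 ^ n / R)
          rw [hw'] at g1 g2
          rw [abs_le]
          constructor <;> linarith
        have e3 : a * 2 ^ n / R - b * 2 ^ n / R = (2 ^ n / R) * (a - b) := by ring
        rw [e3, abs_mul, abs_of_pos (by positivity)] at e2
        rw [← mul_sub, abs_mul, abs_of_pos (Real.rpow_pos_of_pos (by norm_num) _), Nat.cast_one]
        exact (mul_le_mul_of_nonneg_right hnR (abs_nonneg _)).trans e2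
      · congr 1
        push_cast
        norm_num
    refine (Finset.sum_le_sum h3).trans (le_of_eq ?_)
    rw [Finset.sum_const, Finset.card_univ, Fintype.card_fin, nsmul_eq_mul]
  have s8 : CH (Pool.Agent.H49.Ent.cond F.p A True) u''
      (fun ω => (cd ω, (wcd ω, (Cx ω, W₁ ω)))) ≤ Real.log (2 * M + 1) := by
    have h3 := hM hv0 (floor_le hv1 J) (s := N₁ + v) (κ := c r) (z' := z') (G := gu) (fun x => by
      refine (MvPolynomial.totalDegree_sub _ _).trans (max_le ?_ ((hlb.deg x).trans (by omega)))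
      exact (totalDegree_X _).le.trans (by omega)) hcl
      (fun ω => (cd ω, (wcd ω, (Cx ω, W₁ ω)))) (fun ω ω' _ _ hh => by
        rw [hcd, hW₁] at hh
        simp only [Prod.mk.injEq] at hh
        refine ⟨hh.2.2.2.2.2, fun i hi => ?_⟩
        exact congrFun hh.1 ⟨i, by omega⟩)
    have e1 : (N₁ + v - ((1 : ℕ) : ℝ) * v) * (J : ℝ) = N₁ * J := by
      push_cast
      ring
    rw [e1, ← hu''] at h3
    exact h3
  have s9 : CH (Pool.Agent.H49.Ent.cond F.p A True) u'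
      (fun ω => (u'' ω, (cd ω, (wcd ω, (Cx ω, W₁ ω))))) ≤ h₁ * J := by
    refine le_trans (CH_mono_cond h0 fun ω ω' _ _ hh => ?_) a2
    rw [hW₁] at hh
    simp only [Prod.mk.injEq] at hh ⊢
    obtain ⟨b1, -, -, -, b2, b3, b4⟩ := hh
    exact ⟨⟨b2, b1⟩, b3.2, b4⟩
  linarith

end Pool.FLN19
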