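import Pool.Agent.H19.FLN.Opl
import Pool.Agent.H60.ALT.Cmp

/-!
# The numbers of the class theorem
-/

set_option autoImplicit false

namespace Pool.FLN19

open Finset Real
open Pool.LA91 (p2_le ip2_le exp_p2)

theorem pw_ge {a : ℝ} (ha : 0 < a) (B : ℝ) : ∃ J₀ : ℕ, ∀ J : ℕ, J₀ ≤ J → B ≤ (2 : ℝ) ^ (a * J) := by
  have hl2 : 0 < Real.log 2 := Real.log_pos one_lt_two
  obtain ⟨J₀, hJ₀⟩ := exists_nat_ge (B / (a * Real.log 2))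
  refine ⟨J₀, fun J hJ => ?_⟩
  have h1 : (J₀ : ℝ) ≤ J := by exact_mod_cast hJ
  have h2 := hJ₀.trans h1
  rw [div_le_iff₀ (by positivity)] at h2
  rw [← exp_p2]
  have h3 := Real.add_one_le_exp (a * J * Real.log 2)
  linarith [show (J : ℝ) * (a * Real.log 2) = a * J * Real.log 2 by ring]

theorem p2_split (a b : ℝ) (J : ℕ) : (2 : ℝ) ^ ((a + b) * J) = 2 ^ (a * J) * 2 ^ (b * J) := by
  rw [← Real.rpow_add (by norm_num)]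
  congr 1
  ring

/-- **The numbers of the class theorem.** -/
theorem flat_num (K D' B₀ : ℕ) (M₀ : ℝ) {C Ca e e₃ ε₂ σ b₁ v N₁ x y' P Ps pN X' pr κe h₁ s₀ c₀ : ℝ}
    (hC : 1 ≤ C) (hCa : 1 ≤ Ca) (hε₂ : 0 < ε₂) (he₃ : e + ε₂ < e₃) (he₃σ : e₃ ≤ σ / 2)
    (he₃0 : 0 ≤ e₃) (hσ : 0 < σ) (hε₂σ : ε₂ ≤ σ) (hb₁ : 0 ≤ b₁) (hN : N₁ + v + σ ≤ b₁ + pr)
    (hpr : 0 ≤ pr - e₃) (hx1 : x + b₁ + pr + 3 * σ ≤ P) (hx2 : x + b₁ + pr + 3 * σ ≤ Ps)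
    (hx3 : x + b₁ + pr + 3 * σ ≤ pN + X') (hpN : pN ≤ Ps) (hX' : 0 < X')
    (hy' : pr + b₁ + σ ≤ y') (hen : κe + κe / c₀ + h₁ < s₀) :
    ∃ n J₀ : ℕ, 0 < n ∧ ∀ J : ℕ, J₀ ≤ J → ∃ β : ℕ,
      8 * Ca * 2 ^ (ε₂ * J) ≤ (2 : ℝ) ^ ((e₃ - e) * J) ∧
      ((K : ℝ) + 2) * 2 ^ (-X' * J) ≤ 1 / 2 ∧
      (2 : ℝ) ^ ((N₁ + v) * J) ≤ 2 ^ (n * β) / (2 / 2 ^ ⌊(pr - e₃) * J⌋₊) ∧
      C * ((((K : ℝ) + 2) / 2 ^ (P * J) + 2 * (Ca * 2 ^ (ε₂ * J) * (1 / 2 ^ ⌊Ps * J⌋₊))) +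
        (2 ^ (σ * J) * (1 / 2 ^ ⌊Ps * J⌋₊ + 1 / 2 ^ ⌊pN * J⌋₊)) * (((K : ℝ) + 2) * 2 ^ (-X' * J))) *
        (2 ^ β) ^ D' * 2 ^ (n * β) / (2 / 2 ^ ⌊(pr - e₃) * J⌋₊) ≤ 2 ^ (-x * J) ∧
      (2 : ℝ) ^ (-y' * J) ≤ (2 / 2 ^ ⌊(pr - e₃) * J⌋₊) / 16 / 2 ^ (n * β) ∧
      (((K + 1 : ℕ) : ℝ) + 1) * Real.log (2 * B₀ + 1) + n * Real.log (D' * 3 ^ (K + 1 + 1) + 1) +
        (κe * J) / c₀ < s₀ * J - κe * J - h₁ * J - M₀ := by
  obtain ⟨n', hn'⟩ := exists_nat_ge (D' * b₁ / σ)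
  obtain ⟨n, hn⟩ : ∃ n, n = n' + 1 := ⟨_, rfl⟩
  have hn0 : 0 < n := by omega
  have hn0' : (0 : ℝ) < n := by exact_mod_cast hn0
  have hnD : D' * b₁ / n ≤ σ := by
    rw [div_le_iff₀ hn0']
    rw [div_le_iff₀ hσ] at hn'
    have h1 : (n : ℝ) = n' + 1 := by rw [hn]; push_cast; ring
    rw [h1]
    nlinarith
  obtain ⟨Cf, hCf⟩ : ∃ Cf : ℝ, Cf = C * (5 * (K + 2) + 4 * Ca) * 2 ^ (D' + n) := ⟨_, rfl⟩
  obtain ⟨J₁, hJ₁⟩ := pw_ge (show 0 < e₃ - e - ε₂ by linarith) (8 * Ca)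
  obtain ⟨J₂, hJ₂⟩ := pw_ge hX' (2 * (K + 2))
  obtain ⟨J₃, hJ₃⟩ := pw_ge (show 0 < σ / 2 by linarith) (max 4 (max Cf (8 * 2 ^ n)))
  obtain ⟨Cg, hCg⟩ : ∃ Cg : ℝ, Cg = (((K + 1 : ℕ) : ℝ) + 1) * Real.log (2 * B₀ + 1) +
    n * Real.log (D' * 3 ^ (K + 1 + 1) + 1) + M₀ := ⟨_, rfl⟩
  have hgap : 0 < s₀ - (κe + κe / c₀ + h₁) := by linarith
  obtain ⟨J₄, hJ₄⟩ := exists_nat_gt (Cg / (s₀ - (κe + κe / c₀ + h₁)))
  refine ⟨n, max (max J₁ J₂) (max J₃ J₄), hn0, fun J hJ => ?_⟩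
  have j1 : J₁ ≤ J := (le_max_left _ _).trans ((le_max_left _ _).trans hJ)
  have j2 : J₂ ≤ J := (le_max_right _ _).trans ((le_max_left _ _).trans hJ)
  have j3 : J₃ ≤ J := (le_max_left _ _).trans ((le_max_right _ _).trans hJ)
  have j4 : J₄ ≤ J := (le_max_right _ _).trans ((le_max_right _ _).trans hJ)
  have hJ0 : (0 : ℝ) ≤ J := Nat.cast_nonneg J
  have hbJ : 0 ≤ b₁ * J := by positivity
  obtain ⟨β, hβ⟩ : ∃ β : ℕ, β = ⌈b₁ * J / n⌉₊ := ⟨_, rfl⟩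
  have hβ1 : b₁ * J ≤ n * β := by
    have := Nat.le_ceil (b₁ * J / n)
    rw [← hβ, div_le_iff₀ hn0'] at this
    linarith
  have hβ2 : (β : ℝ) ≤ b₁ * J / n + 1 := by
    rw [hβ]
    exact (Nat.ceil_lt_add_one (by positivity)).le
  have hβ3 : (n : ℝ) * β ≤ b₁ * J + n := by
    have := mul_le_mul_of_nonneg_left hβ2 hn0'.le
    have e1 : (n : ℝ) * (b₁ * J / n + 1) = b₁ * J + n := by field_simp
    linarith
  have hβ4 : (D' : ℝ) * β ≤ σ * J + D' := by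
    have h1 := mul_le_mul_of_nonneg_left hβ2 (Nat.cast_nonneg (α := ℝ) D')
    have e1 : (D' : ℝ) * (b₁ * J / n + 1) = D' * b₁ / n * J + D' := by ring
    have h2 := mul_le_mul_of_nonneg_right hnD hJ0
    linarith
  have g1 := hJ₁ J j1
  have g2 := hJ₂ J j2
  have g3 := hJ₃ J j3
  have g3a : (4 : ℝ) ≤ 2 ^ (σ / 2 * J) := (le_max_left _ _).trans g3
  have g3b : Cf ≤ 2 ^ (σ / 2 * J) := (le_max_left _ _).trans ((le_max_right _ _).trans g3)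
  have g3c : (8 : ℝ) * 2 ^ n ≤ 2 ^ (σ / 2 * J) :=
    (le_max_right _ _).trans ((le_max_right _ _).trans g3)
  have pos : ∀ a : ℝ, (0 : ℝ) < 2 ^ (a * J) := fun a => Real.rpow_pos_of_pos (by norm_num) _
  obtain ⟨fp, hfp⟩ : ∃ fp : ℝ, fp = 2 ^ ⌊(pr - e₃) * J⌋₊ := ⟨_, rfl⟩
  have hfp0 : 0 < fp := by rw [hfp]; positivity
  have hfp1 : fp ≤ 2 ^ ((pr - e₃) * J) := by
    rw [hfp]
    exact p2_le (by positivity)
  have hfp2 : (2 : ℝ) ^ ((pr - e₃) * J) ≤ 2 * fp := by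
    have h1 := ip2_le ((pr - e₃) * J)
    rw [← hfp, Real.rpow_neg (by norm_num), div_le_iff₀ hfp0] at h1
    have h2 := mul_le_mul_of_nonneg_left h1 (pos (pr - e₃)).le
    have h3 : (2 : ℝ) ^ ((pr - e₃) * J) * (2 * (2 ^ ((pr - e₃) * J))⁻¹ * fp) = 2 * fp := by
      field_simp [(pos (pr - e₃)).ne']
    linarith
  rw [← hfp]
  refine ⟨β, ?_, ?_, ?_, ?_, ?_, ?_⟩
  · have h1 : (2 : ℝ) ^ ((e₃ - e) * J) = 2 ^ ((e₃ - e - ε₂) * J) * 2 ^ (ε₂ * J) := by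
      rw [← p2_split]
      congr 1
      ring
    rw [h1]
    exact mul_le_mul_of_nonneg_right g1 (pos _).le
  · have h1 : (2 : ℝ) ^ (-X' * J) = (2 ^ (X' * J))⁻¹ := by
      rw [neg_mul, Real.rpow_neg (by norm_num)]
    rw [h1, ← div_eq_mul_inv, div_le_div_iff₀ (pos _) (by norm_num)]
    linarith
  · -- the digits of the slope
    rw [div_div_eq_mul_div, le_div_iff₀ (by norm_num)]
    have h1 : (2 : ℝ) ^ (b₁ * J) ≤ 2 ^ (n * β) := by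
      rw [← Real.rpow_natCast]
      refine Real.rpow_le_rpow_of_exponent_le (by norm_num) ?_
      push_cast
      exact hβ1
    have h2 : (2 : ℝ) ^ ((N₁ + v) * J) * 2 ^ (σ / 2 * J) ≤ 2 ^ ((b₁ + (pr - e₃)) * J) := by
      rw [← p2_split]
      exact Pool.ALT.p2_mono (by linarith)
    rw [p2_split b₁ (pr - e₃)] at h2
    have h3 : (2 : ℝ) ^ (b₁ * J) * 2 ^ ((pr - e₃) * J) ≤ 2 ^ (n * β) * (2 * fp) :=
      mul_le_mul h1 hfp2 (pos _).le (by positivity)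
    have h4 : (2 : ℝ) ^ ((N₁ + v) * J) * 4 ≤ 2 ^ ((N₁ + v) * J) * 2 ^ (σ / 2 * J) :=
      mul_le_mul_of_nonneg_left g3a (pos _).le
    linarith
  · -- the loss
    obtain ⟨Y, hY⟩ : ∃ Y : ℝ, Y = 2 ^ (-(x + b₁ + pr + 2 * σ) * J) := ⟨_, rfl⟩
    have hY0 : 0 < Y := by rw [hY]; exact pos _
    obtain ⟨fs, hfs⟩ : ∃ fs : ℝ, fs = 1 / 2 ^ ⌊Ps * J⌋₊ := ⟨_, rfl⟩
    obtain ⟨fN, hfN⟩ : ∃ fN : ℝ, fN = 1 / 2 ^ ⌊pN * J⌋₊ := ⟨_, rfl⟩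
    have hfs0 : 0 ≤ fs := by rw [hfs]; positivity
    have hfN0 : 0 ≤ fN := by rw [hfN]; positivity
    have hfs1 : fs ≤ 2 * 2 ^ (-Ps * J) := by
      rw [hfs, neg_mul]
      exact ip2_le _
    have hfN1 : fN ≤ 2 * 2 ^ (-pN * J) := by
      rw [hfN, neg_mul]
      exact ip2_le _
    rw [← hfs, ← hfN]
    have hK2 : (0 : ℝ) < K + 2 := by positivity
    have t1 : ((K : ℝ) + 2) / 2 ^ (P * J) ≤ (K + 2) * Y := by
      rw [div_eq_mul_inv]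
      refine mul_le_mul_of_nonneg_left ?_ hK2.le
      rw [← Real.rpow_neg (by norm_num), ← neg_mul, hY]
      exact Pool.ALT.p2_mono (by linarith)
    have t2 : 2 * (Ca * 2 ^ (ε₂ * J) * fs) ≤ 4 * Ca * Y := by
      have h1 : (2 : ℝ) ^ (ε₂ * J) * 2 ^ (-Ps * J) ≤ Y := by
        rw [← p2_split, hY]
        exact Pool.ALT.p2_mono (by linarith)
      have hCa0 : 0 < Ca := by linarith
      calc 2 * (Ca * 2 ^ (ε₂ * J) * fs) ≤ 2 * (Ca * 2 ^ (ε₂ * J) * (2 * 2 ^ (-Ps * J))) :=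
            mul_le_mul_of_nonneg_left (mul_le_mul_of_nonneg_left hfs1
              (mul_nonneg hCa0.le (pos _).le)) (by norm_num)
        _ = 4 * Ca * (2 ^ (ε₂ * J) * 2 ^ (-Ps * J)) := by ring
        _ ≤ 4 * Ca * Y := mul_le_mul_of_nonneg_left h1 (by positivity)
    have t3 : (2 ^ (σ * J) * (fs + fN)) * (((K : ℝ) + 2) * 2 ^ (-X' * J)) ≤ 4 * (K + 2) * Y := by
      have h0 : (2 : ℝ) ^ (-Ps * J) ≤ 2 ^ (-pN * J) := Pool.ALT.p2_mono (by linarith)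
      have h1 : fs + fN ≤ 4 * 2 ^ (-pN * J) := by linarith
      have h2 : (2 : ℝ) ^ (σ * J) * 2 ^ (-pN * J) * 2 ^ (-X' * J) ≤ Y := by
        rw [← p2_split, ← p2_split, hY]
        exact Pool.ALT.p2_mono (by linarith)
      calc (2 ^ (σ * J) * (fs + fN)) * (((K : ℝ) + 2) * 2 ^ (-X' * J))
          ≤ (2 ^ (σ * J) * (4 * 2 ^ (-pN * J))) * (((K : ℝ) + 2) * 2 ^ (-X' * J)) :=
            mul_le_mul_of_nonneg_right (mul_le_mul_of_nonneg_left h1 (pos _).le)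
              (mul_nonneg hK2.le (pos _).le)
        _ = 4 * (K + 2) * (2 ^ (σ * J) * 2 ^ (-pN * J) * 2 ^ (-X' * J)) := by ring
        _ ≤ 4 * (K + 2) * Y := mul_le_mul_of_nonneg_left h2 (by positivity)
    have t4 : ((2 : ℝ) ^ β) ^ D' * 2 ^ (n * β) ≤ 2 ^ (D' + n) * 2 ^ ((σ + b₁) * J) := by
      rw [← pow_mul, ← pow_add, ← Real.rpow_natCast, ← Real.rpow_natCast,
        ← Real.rpow_add (by norm_num)]
      refine Real.rpow_le_rpow_of_exponent_le (by norm_num) ?_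
      push_cast
      have e1 : (β : ℝ) * D' = D' * β := by ring
      have e2 : (σ + b₁) * (J : ℝ) = σ * J + b₁ * J := by ring
      rw [e1, e2]
      linarith
    have t5 : Y * 2 ^ ((σ + b₁) * J) * 2 ^ ((pr - e₃) * J) * 2 ^ (σ / 2 * J) ≤ 2 ^ (-x * J) := by
      rw [hY, ← p2_split, ← p2_split, ← p2_split]
      exact Pool.ALT.p2_mono (by linarith)
    have hS0 : (0 : ℝ) ≤ (((K : ℝ) + 2) / 2 ^ (P * J) + 2 * (Ca * 2 ^ (ε₂ * J) * fs)) +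
        (2 ^ (σ * J) * (fs + fN)) * (((K : ℝ) + 2) * 2 ^ (-X' * J)) := by
      have hCa0 : 0 < Ca := by linarith
      have a1 := pos P
      have a2 := pos ε₂
      have a3 := pos σ
      have a4 := pos (-X')
      positivity
    have hS : (((K : ℝ) + 2) / 2 ^ (P * J) + 2 * (Ca * 2 ^ (ε₂ * J) * fs)) +
        (2 ^ (σ * J) * (fs + fN)) * (((K : ℝ) + 2) * 2 ^ (-X' * J)) ≤
        (5 * (K + 2) + 4 * Ca) * Y := by
      linarith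
    have hC0 : 0 < C := by linarith
    rw [div_div_eq_mul_div]
    obtain ⟨Sm, hSm⟩ : ∃ Sm : ℝ, Sm = (((K : ℝ) + 2) / 2 ^ (P * J) +
      2 * (Ca * 2 ^ (ε₂ * J) * fs)) +
        (2 ^ (σ * J) * (fs + fN)) * (((K : ℝ) + 2) * 2 ^ (-X' * J)) := ⟨_, rfl⟩
    rw [← hSm] at hS hS0 ⊢
    have hA0 : (0 : ℝ) ≤ (5 * ((K : ℝ) + 2) + 4 * Ca) * Y := hS0.trans hS
    calc C * Sm * (2 ^ β) ^ D' * 2 ^ (n * β) * fp / 2
        = C * Sm * ((2 ^ β) ^ D' * 2 ^ (n * β)) * fp / 2 := by ring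
      _ ≤ C * ((5 * (K + 2) + 4 * Ca) * Y) * (2 ^ (D' + n) * 2 ^ ((σ + b₁) * J)) *
          2 ^ ((pr - e₃) * J) / 2 := by
          refine div_le_div_of_nonneg_right ?_ (by norm_num)
          refine mul_le_mul ?_ hfp1 hfp0.le ?_
          · exact mul_le_mul (mul_le_mul_of_nonneg_left hS hC0.le) t4 (by positivity)
              (mul_nonneg hC0.le hA0)
          · exact mul_nonneg (mul_nonneg hC0.le hA0) (mul_nonneg (by positivity) (pos _).le)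
      _ = Cf * (Y * 2 ^ ((σ + b₁) * J) * 2 ^ ((pr - e₃) * J)) / 2 := by rw [hCf]; ring
      _ ≤ 2 ^ (σ / 2 * J) * (Y * 2 ^ ((σ + b₁) * J) * 2 ^ ((pr - e₃) * J)) / 2 := by
          refine div_le_div_of_nonneg_right (mul_le_mul_of_nonneg_right g3b ?_) (by norm_num)
          exact mul_nonneg (mul_nonneg hY0.le (pos _).le) (pos _).le
      _ ≤ 2 ^ (σ / 2 * J) * (Y * 2 ^ ((σ + b₁) * J) * 2 ^ ((pr - e₃) * J)) := by
          refine div_le_self ?_ (by norm_num)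
          exact mul_nonneg (pos _).le (mul_nonneg (mul_nonneg hY0.le (pos _).le) (pos _).le)
      _ = Y * 2 ^ ((σ + b₁) * J) * 2 ^ ((pr - e₃) * J) * 2 ^ (σ / 2 * J) := by ring
      _ ≤ 2 ^ (-x * J) := t5
  · -- the radius
    have h1 : (2 : ℝ) ^ (n * β) ≤ 2 ^ n * 2 ^ (b₁ * J) := by
      rw [← Real.rpow_natCast, ← Real.rpow_natCast, ← Real.rpow_add (by norm_num)]
      refine Real.rpow_le_rpow_of_exponent_le (by norm_num) ?_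
      push_cast
      linarith
    rw [div_div, div_div, le_div_iff₀ (by positivity)]
    have h2 : (2 : ℝ) ^ (-y' * J) * 2 ^ ((pr - e₃) * J) * 2 ^ (b₁ * J) * 2 ^ (σ / 2 * J) ≤ 1 := by
      rw [← p2_split, ← p2_split, ← p2_split]
      have h3 : (2 : ℝ) ^ ((-y' + (pr - e₃) + b₁ + σ / 2) * J) ≤ 2 ^ ((0 : ℝ) * J) :=
        Pool.ALT.p2_mono (by linarith)
      rw [zero_mul, Real.rpow_zero] at h3
      exact h3
    have h4 : (2 : ℝ) ^ (-y' * J) * (fp * (16 * 2 ^ (n * β))) ≤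
        2 ^ (-y' * J) * (2 ^ ((pr - e₃) * J) * (16 * (2 ^ n * 2 ^ (b₁ * J)))) := by
      refine mul_le_mul_of_nonneg_left (mul_le_mul hfp1 (mul_le_mul_of_nonneg_left h1 (by norm_num))
        (by positivity) (pos _).le) (pos _).le
    have h5 : (2 : ℝ) ^ (-y' * J) * (2 ^ ((pr - e₃) * J) * (16 * (2 ^ n * 2 ^ (b₁ * J)))) =
        2 * (2 ^ (-y' * J) * 2 ^ ((pr - e₃) * J) * 2 ^ (b₁ * J) * (8 * 2 ^ n)) := by ring
    have h6 : (2 : ℝ) ^ (-y' * J) * 2 ^ ((pr - e₃) * J) * 2 ^ (b₁ * J) * (8 * 2 ^ n) ≤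
        2 ^ (-y' * J) * 2 ^ ((pr - e₃) * J) * 2 ^ (b₁ * J) * 2 ^ (σ / 2 * J) :=
      mul_le_mul_of_nonneg_left g3c (mul_nonneg (mul_nonneg (pos _).le (pos _).le) (pos _).le)
    linarith
  · have h1 : (J₄ : ℝ) ≤ J := by exact_mod_cast j4
    have h2 := hJ₄.trans_le h1
    rw [div_lt_iff₀ hgap, hCg] at h2
    have h3 : (J : ℝ) * (s₀ - (κe + κe / c₀ + h₁)) =
      s₀ * J - κe * J - h₁ * J - (κe * J) / c₀ := by ring
    linarith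

end Pool.FLN19
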