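import Pool.Agent.H19.FLN.Evt
import Pool.Agent.H19.FLN.Alv
import Pool.Agent.H19.FLN.Nmb
import Pool.Agent.H80.FLN.Box
import Pool.Agent.H42.D2.Npd

/-!
# Two labels of a place over an alive coordinate: the class theorem

`flat_cls`: `κ` a place whose own path over the labels `G` of the window `v` is few bits given the
near jets of the chain `c 0, …, c (r - 1)` at the window `t` (`NpH`); `Hs` labels of `κ` of the window
`v` which are closed and more precise; `c r` alive over the chain. Then the derivative of `Hs - G` with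
respect to `c r` is small at the own point, and near it in the direction of `c r`.
-/

set_option autoImplicit false

namespace Pool.FLN19

open Finset Real MvPolynomial
open Pool.Agent.H49.Ent Pool.Agent.H32.Dense Pool.STK Pool.KA Pool.KSAT Pool.K2S Pool.PB Pool.GEN
open Pool.S6C Pool.RCD Pool.LA91 Pool.OWN68 Pool.CHT Pool.AJW
open Pool.GRD (LbP)
open Pool.BFL (Pb)
open Pool.FLN13 (wc)
open Pool.AJX (LbX FwX)
open Pool.NPZ (NpH path_nph Fm4)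

theorem pb_pe {Ω : Type} [Fintype Ω] (p : Ω → ℝ) (A : Ω → Prop) : Pb p A = Pe p A := by
  rw [Pool.K2S.Pe_eq]
  rfl

/-- The part of an event. -/
theorem Pb_part {Ω : Type} [Fintype Ω] {p : Ω → ℝ} (hp : IsLaw p) {A B : Ω → Prop}
    (hBA : Sub B A) (hA : 0 < Pe p A) (hB : 0 < Pe p B) (Q : Ω → Prop) :
    Pb (Pool.Agent.H49.Ent.cond p A True) Q ≤
      Pb (Pool.Agent.H49.Ent.cond p A True) (fun ω => ¬ B ω) +
        Pb (Pool.Agent.H49.Ent.cond p B True) Q := by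
  have h0 := (isLaw_cond hp hA).nonneg
  have h1 : Pb (Pool.Agent.H49.Ent.cond p A True) Q ≤
      Pb (Pool.Agent.H49.Ent.cond p A True) (fun ω => ¬ B ω ∨ (B ω ∧ Q ω)) := by
    refine Pool.GRD.Pb_mono_pos h0 fun ω _ hQ => ?_
    by_cases hBω : B ω
    · exact Or.inr ⟨hBω, hQ⟩
    · exact Or.inl hBω
  refine h1.trans ((Pb_or' h0 _ _).trans (add_le_add le_rfl ?_))
  rw [Pb_cond hA, Pb_cond hB]
  have h2 : Pe p (fun ω => A ω ∧ B ω ∧ Q ω) = Pe p (fun ω => B ω ∧ Q ω) :=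
    congrArg (Pe p) (funext fun ω => propext ⟨fun h => h.2, fun h => ⟨hBA ω h.1, h⟩⟩)
  rw [h2]
  refine div_le_div_of_nonneg_left (Pe_nonneg hp _) hB ?_
  exact Pe_mono hp hBA

/-- **Two labels of a place over an alive coordinate.** -/
theorem flat_cls (K r : ℕ) {h : ℝ} (hh : 0 < h) (hh1 : h ≤ 1) {ε : ℝ} (hε : 0 < ε) :
    ∃ δ C₂ : ℝ, 0 < δ ∧ 1 ≤ C₂ ∧ ∀ {m : ℕ} {S : PCl m} {C₀ : ℝ} (_ : TmC S C₀) {c : ℕ → Fin m}
    {v t lam q₁ ρ g₀ : ℝ} {E pc s n lv rd : ℕ → ℝ} {κ : Fin m} {I : Finset (Fin m)} {K' : ℕ}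
    {e P pN pa q d rG eG : ℝ} {Θ : Fm4 m}
    (_ : NpH K h δ S c 0 r v t lam q₁ ρ g₀ E pc s n lv rd κ I K K' e P pN pa q d rG eG t Θ)
    (_ : I ⊆ (range (r + 1)).image c)
    (_ : ∀ (J : ℕ) (F : Fam m J) (A : F.Ω → Prop) (V : Type) (z : PtT F → V) (z' : LnT F → V)
      (G : V → MvPolynomial (Option (Fin m)) ℝ) (g : V → ℕ → MvPolynomial (Option (Fin m)) ℝ),
      Θ J F A V z z' G g → LbX F c 0 (r + 1) K e E v rd pc A z z' g)
    {u₁ : ℝ} {sv rv : ℕ → ℝ} (_ : Chn S c 0 (r + 1) v v u₁ sv rv) {σ χ : ℝ} (_ : 0 < σ)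
    (_ : σ ≤ χ) (_ : v + χ ≤ 1) (_ : ∀ i < r + 1, 0 ≤ E i ∧ pc i + E i + χ ≤ 1 ∧ 0 ≤ rd i ∧
      rd i + σ ≤ 1 ∧ σ ≤ pc i ∧ sv i ≤ pc i + σ / C₂) (_ : e < σ / C₂) {pf : ℕ → ℝ}
    {Nf : ℕ → ℕ → ℝ}
    (_ : FwX S (fun J F => ptr F J) (vg t) (fun _ F => F.T)
      (qJets m c 0 r 1 (fun _ _ => t) (fun l _ => pf l) Nf) c 0 r K E v rd pc
      (ctx c 0 r K v lam n) e (δ * q / 4))
    (_ : Exs S (qJets m c 0 r 1 (fun _ _ => t) (fun l _ => pf l) Nf)) {pr N₁ e' s₀ h₁ : ℝ}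
    (_ : AlvQ S t (fun _ F => F.T) (qJets m c 0 r 1 (fun _ _ => t) (fun l _ => pf l) Nf)
        (qJet m ((range r).image c) (c r) 1 t pr N₁) e' s₀)
    (_ : Exs S (qJet m ((range r).image c) (c r) 1 t pr N₁))
    (_ : F1 S (fun J F => ptr F J) (vg t) (fun _ F => F.T)
      ((qJets m c 0 r 1 (fun _ _ => t) (fun l _ => pf l) Nf).prod
        (qJet m ((range r).image c) (c r) 1 v (pc r) N₁))
      (qJet m ((range r).image c) (c r) 1 t pr N₁) e' h₁) (_ : e ≤ e')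
    {Ps X' b₁ x y' η₀ : ℝ} (_ : ∀ l < r, pc l + X' ≤ n l) (_ : 0 < X') (_ : 0 ≤ b₁)
    (_ : N₁ + v + σ ≤ b₁ + pc r) (_ : pN ≤ Ps) (_ : x + b₁ + pc r + 3 * σ ≤ P + q)
    (_ : x + b₁ + pc r + 3 * σ ≤ Ps) (_ : x + b₁ + pc r + 3 * σ ≤ pN + X')
    (_ : pc r + b₁ + σ ≤ y') (_ : 0 < η₀) (_ : η₀ < 1)
    (_ : ε * q + ε * q / (η₀ / 2) + h₁ < s₀),
    Bas S (fun J F A => ∀ (V : Type) (z : PtT F → V) (z' : LnT F → V)
      (G : V → MvPolynomial (Option (Fin m)) ℝ) (g : V → ℕ → MvPolynomial (Option (Fin m)) ℝ),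
      Θ J F A V z z' G g → ∀ (Vs : Type) (zs : PtT F → Vs) (zs' : LnT F → Vs)
      (Hs : Vs → MvPolynomial (Option (Fin m)) ℝ),
      LbP F ((range (r + 1)).image c) κ K J ⌊v * J⌋₊ ⌊Ps * J⌋₊ A zs zs' Hs →
      Pb (Pool.Agent.H49.Ent.cond F.p A True) (fun ω => ¬ ∀ h' : ℝ, |h'| ≤ 2 ^ (-y' * J) →
        |eval (Function.update (bt F ω) (some (c r)) (F.x ω (c r) + h')) (pderiv (some (c r))
          (Hs (zs' (slam F ⌊v * J⌋₊ ω)) - G (z' (slam F ⌊v * J⌋₊ ω))))| ≤ 2 ^ (-x * J)) ≤ η₀) := by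
  classical
  obtain ⟨δ, hδ, Hp⟩ := path_nph K hh hh1 hε
  obtain ⟨C₁, hC₁, Hbx⟩ := nbx_lx K (r + 1)
  obtain ⟨Ca, hCa, Hop⟩ := opl_cls K
  obtain ⟨M₀, Hal⟩ := alv_wc K
  obtain ⟨C, D', B₀, hC, Hev⟩ := flat_evt K r
  have hC1 : 0 < C₁ := by linarith
  refine ⟨δ, 4 * C₁, hδ, by linarith, ?_⟩
  intro m S C₀ htm c v t lam q₁ ρ g₀ E pc s n lv rd κ I K' e P pN pa q d rG eG Θ H hI hΘu u₁ sv rv
    hcv σ χ hσ hσχ hvχ hbx heσ pf Nf hctx hxQ pr N₁ e' s₀ h₁ hal hxQ' hF hee Ps X' b₁ x y' η₀ hn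
    hX' hb₁ hN hpN hx1 hx2 hx3 hy' hη₀ hη₁ hen
  have he0 := H.e0
  have hq := H.q0
  have hv0 := H.ch.v0
  have hvt := H.ch.vw
  have ht1 := H.a1
  have hv1 : v < 1 := by linarith
  have hPN : 0 < P - pN := by linarith [H.pNP]
  have hPe : P - pN ≤ e' := H.Pe.trans hee
  -- the small parameters
  obtain ⟨e₃, he₃⟩ : ∃ e₃ : ℝ, e₃ = σ / (2 * C₁) := ⟨_, rfl⟩
  obtain ⟨ε₂, hε₂⟩ : ∃ ε₂ : ℝ, ε₂ = σ / (8 * C₁) := ⟨_, rfl⟩
  have hε₂0 : 0 < ε₂ := by rw [hε₂]; positivity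
  have he₃0 : 0 < e₃ := by rw [he₃]; positivity
  have q1 : σ / C₁ ≤ σ := div_le_self hσ.le hC₁
  have q2 : e₃ = σ / C₁ / 2 := by rw [he₃]; field_simp
  have q3 : ε₂ = σ / C₁ / 8 := by rw [hε₂]; field_simp
  have q4 : σ / (4 * C₁) = σ / C₁ / 4 := by field_simp
  have q5 : 0 < σ / C₁ := by positivity
  have hee3 : e + ε₂ < e₃ := by
    rw [q4] at heσ
    rw [q2, q3]
    linarith
  have he₃σ : e₃ ≤ σ / 2 := by rw [q2]; linarith
  have hε₂σ : ε₂ ≤ σ := by rw [q3]; linarith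
  have hηa : 0 < η₀ / 2 / ((r + 3 : ℕ) : ℝ) := by positivity
  -- the numbers
  obtain ⟨nb, J₀, hnb, Hnum⟩ := flat_num K D' B₀ M₀ hC hCa hε₂0 hee3 he₃σ he₃0.le hσ hε₂σ hb₁ hN
    (x := x) (y' := y') (P := P + q) (Ps := Ps) (pN := pN) (X' := X') (κe := ε * q) (h₁ := h₁)
    (s₀ := s₀) (c₀ := η₀ / 2) (by linarith [(hbx r (Nat.lt_succ_self r)).2.2.2.2.1])
    hx1 hx2 hx3 hpN hX' hy' hen
  -- the class statements
  obtain ⟨K₀, M₂, hxu⟩ := hxQ (P - pN) hPN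
  have hyK : Kn0 ((range 0).image c) (v + lam) (fun (_ : ℕ) (F : Fam m _) => F.T) := by
    intro J F
    refine ⟨fun t => (t, fun _ => 0), fun ω => ?_⟩
    simp only [Finset.range_zero, Finset.image_empty, Finset.notMem_empty, if_false]
  have hpath := Pool.GRW.bas_part (Hp htm H (fun J F => ⟨id, fun _ => rfl⟩) hyK hctx K₀)
    (c := 2 / (η₀ / 2)) (by positivity)
  have hEr := hbx r (Nat.lt_succ_self r)
  have halv := Pool.GRW.bas_part (Hal htm (Eu := E r) (ru := rd r) (pu := pc r) hv0 hv1.le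
    hEr.2.2.1 hEr.1 he0 hee hal hxQ' hF K₀) (c := 2 / (η₀ / 2)) (by positivity)
  have hbox := Hbx htm hcv (E := E) (rd' := rd) (p := pc) (e := e₃) (ε := σ) (χ := χ) he₃0.le hσ
    (hσ.trans_le hσχ) hvχ hσχ (fun i hi => ⟨(hbx i hi).1, (hbx i hi).2.1, (hbx i hi).2.2.1, by
      linarith [(hbx i hi).2.2.2.1]⟩)
    (fun i hi => ⟨by linarith [(hbx i hi).2.2.2.2.1], by
      have h1 := (hbx i hi).2.2.2.2.2
      rw [q4] at h1
      linarith⟩) hηa (by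
        refine (div_le_self (by positivity) ?_).trans (by linarith)
        exact_mod_cast (show 1 ≤ r + 3 by omega))
  have hown := Bas.all (r + 1) fun l _ => Hop htm ((range l).image c) (c l) (w := v)
    (η := η₀ / 2 / ((r + 3 : ℕ) : ℝ)) (ε := ε₂) hv0 hv1 hηa hε₂0
  have hstt := Hop htm ((range (r + 1)).image c) κ (w := v)
    (η := η₀ / 2 / ((r + 3 : ℕ) : ℝ)) (ε := ε₂) hv0 hv1 hηa hε₂0
  refine Bas.mono J₀ (((hpath.and halv).and (hbox.and hown)).and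
    ((hstt.and hxu).and (Pool.GRW.tmc_bas htm one_pos))) ?_
  rintro J hJ F A ⟨⟨⟨hpath, halv⟩, hbox, hown⟩, ⟨hstt, u₀, hu₀, -⟩, hA, -⟩ V z z' G g hΘ Vs zs zs'
    Hs hHs
  obtain ⟨β, n1, n2, n3, n4, n5, n6⟩ := Hnum J hJ
  have hJ0 : (0 : ℝ) ≤ J := Nat.cast_nonneg J
  have hWJ : ⌊v * J⌋₊ ≤ J := floor_le hv1.le J
  have hcl := isLaw_cond F.isLaw hA
  have hLX := hΘu J F A V z z' G g hΘ
  have hLG := H.lb J F A V z z' G g hΘ
  have hLX3 : LbX F c 0 (r + 1) K e₃ E v rd pc A z z' g := fun i a b =>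
    (hLX i a b).mono (Finset.Subset.refl _) le_rfl
      (Nat.floor_le_floor (mul_le_mul_of_nonneg_right (by linarith) hJ0))
      (Nat.floor_le_floor (mul_le_mul_of_nonneg_right (by linarith) hJ0))
      (Nat.floor_le_floor (mul_le_mul_of_nonneg_right (by linarith) hJ0))
  have hGP : LbP F ((range (r + 1)).image c) κ K J ⌊v * J⌋₊ ⌊pN * J⌋₊ A z z' G :=
    (LbP.of hLG).mono hI le_rfl le_rfl
  have hgP : ∀ l < r + 1, LbP F ((range l).image c) (c l) K J ⌊v * J⌋₊ ⌊(pc l - e) * J⌋₊ A z z'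
      (fun v => g v l) := fun l hl => LbP.of (hLX l (Nat.zero_le _) hl)
  obtain ⟨R, hR⟩ : ∃ R : ℕ → ℝ, R = fun i => 2 / 2 ^ ⌊(pc i - e₃) * J⌋₊ := ⟨_, rfl⟩
  have hR0 : ∀ l, 0 < R l := fun l => by rw [hR]; positivity
  -- the good part
  obtain ⟨gd, hgd⟩ : ∃ gd : F.Ω → Prop, gd = fun ω =>
      (∀ l < r + 1, ∀ τ : ℝ, |τ| ≤ 1 →
        |(opl F ⌊v * J⌋₊ (X (some (c l)) - g (z' (slam F ⌊v * J⌋₊ ω)) l)
          (slam F ⌊v * J⌋₊ ω)).eval τ| ≤ Ca * 2 ^ (ε₂ * J) * (1 / 2 ^ ⌊(pc l - e) * J⌋₊)) ∧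
      (∀ τ : ℝ, |τ| ≤ 1 →
        |(opl F ⌊v * J⌋₊ (X (some κ) - Hs (zs' (slam F ⌊v * J⌋₊ ω)))
          (slam F ⌊v * J⌋₊ ω)).eval τ| ≤ Ca * 2 ^ (ε₂ * J) * (1 / 2 ^ ⌊Ps * J⌋₊)) ∧
      ∀ x, NB F c 0 (r + 1) ⌊v * J⌋₊ R (g (z' (slam F ⌊v * J⌋₊ ω))) ω x →
        |eval x (Hs (zs' (slam F ⌊v * J⌋₊ ω)) - G (z' (slam F ⌊v * J⌋₊ ω)))| ≤
          2 ^ (σ * J) * (1 / 2 ^ ⌊Ps * J⌋₊ + 1 / 2 ^ ⌊pN * J⌋₊) := ⟨_, rfl⟩
  obtain ⟨B, hB⟩ : ∃ B : F.Ω → Prop, B = fun ω => A ω ∧ gd ω := ⟨_, rfl⟩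
  have hBA : Sub B A := fun ω hω => by
    rw [hB] at hω
    exact hω.1
  have hBg : ∀ ω, B ω → gd ω := fun ω hω => by
    rw [hB] at hω
    exact hω.2
  have hr3 : (((r + 1 : ℕ) : ℝ) * (η₀ / 2 / ((r + 3 : ℕ) : ℝ)) + η₀ / 2 / ((r + 3 : ℕ) : ℝ)) +
      η₀ / 2 / ((r + 3 : ℕ) : ℝ) = η₀ / 2 := by
    push_cast
    have : (r : ℝ) + 3 ≠ 0 := by positivity
    field_simp
    ring
  have hbad : Pb (Pool.Agent.H49.Ent.cond F.p A True) (fun ω => ¬ gd ω) ≤ η₀ / 2 := by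
    have b1 := Pb_rng hcl (fun l ω => ¬ ∀ τ : ℝ, |τ| ≤ 1 →
      |(opl F ⌊v * J⌋₊ (X (some (c l)) - g (z' (slam F ⌊v * J⌋₊ ω)) l)
        (slam F ⌊v * J⌋₊ ω)).eval τ| ≤ Ca * 2 ^ (ε₂ * J) * (1 / 2 ^ ⌊(pc l - e) * J⌋₊)) (r + 1)
      fun l hl => hown l hl _ V z z' (fun v => g v l) (hgP l hl)
    have b2 := hstt _ Vs zs zs' Hs hHs
    have b3 := hbox V z z' g hLX3 (r + 1) le_rfl κ ⌊Ps * J⌋₊ ⌊pN * J⌋₊ Vs V zs zs' Hs z z' G hHs hGP
    rw [← hR] at b3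
    rw [← hr3]
    refine le_trans ?_ ((Pb_or' hcl.nonneg _ _).trans
      (add_le_add ((Pb_or' hcl.nonneg _ _).trans (add_le_add b1 b2)) b3))
    refine Pool.GRD.Pb_mono_pos hcl.nonneg fun ω _ hω => ?_
    by_contra hno
    push Not at hno
    obtain ⟨⟨c1, c2⟩, c3⟩ := hno
    refine hω ?_
    rw [hgd]
    exact ⟨c1, c2, c3⟩
  have hbadB : Pb (Pool.Agent.H49.Ent.cond F.p A True) (fun ω => ¬ B ω) ≤ η₀ / 2 := by
    refine le_trans (Pool.GRD.Pb_mono_pos hcl.nonneg fun ω hω h1 => ?_) hbad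
    intro h2
    refine h1 ?_
    rw [hB]
    exact ⟨of_cond_pos hω, h2⟩
  have hPB : Pe F.p A ≤ 2 * Pe F.p B := by
    have h1 := hbadB
    rw [Pb_cond hA, div_le_iff₀ hA] at h1
    have h2 : Pe F.p A ≤ Pe F.p (fun ω => A ω ∧ ¬ B ω) + Pe F.p B := by
      rw [← pb_pe, ← pb_pe, ← pb_pe]
      refine le_trans (Pool.GRD.Pb_mono_pos F.isLaw.nonneg fun ω _ h3 => ?_)
        (Pb_or' F.isLaw.nonneg _ _)
      by_cases h4 : B ω
      · exact Or.inr h4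
      · exact Or.inl ⟨h3, h4⟩
    nlinarith
  have hB0 : 0 < Pe F.p B := by linarith
  have hbl := isLaw_cond F.isLaw hB0
  have hΘB := H.hs J F A B V z z' G g hBA hΘ
  have hu₀B := (qJets m c 0 r 1 (fun _ _ => t) (fun l _ => pf l) Nf).sub hBA hu₀
  have hc2 : (2 : ℝ) ≤ 2 / (η₀ / 2) := by
    rw [le_div_iff₀ (by positivity)]
    linarith
  obtain ⟨V₁, z₁, hz₁, hp₁⟩ := hpath B hBA (hPB.trans
    (mul_le_mul_of_nonneg_right hc2 hB0.le)) V z z' G g hΘB u₀ hu₀B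
  obtain ⟨Cx, hCx⟩ : ∃ Cx : F.Ω → (Fin m → ℤ × ℤ) × (ℕ → ℕ → ℤ),
    Cx = ctx c 0 r K v lam n J F V z' g := ⟨_, rfl⟩
  have pos : ∀ a : ℝ, (0 : ℝ) < 2 ^ (a * J) := fun a => Real.rpow_pos_of_pos (by norm_num) _
  -- the event theorem
  have key := Hev (J := J) (F := F) (c := c) (κ := κ) hWJ hcv.inj hbl z' zs' g G Hs
    (fun ω => ((u₀ ω, (z₁ ω, F.T ω)), Cx ω)) R nb β
    (M := 2 ^ (σ * J) * (1 / 2 ^ ⌊Ps * J⌋₊ + 1 / 2 ^ ⌊pN * J⌋₊))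
    (η := ((K : ℝ) + 2) * 2 ^ (-X' * J)) (σG := 2 ^ ((P + q) * J))
    (as := Ca * 2 ^ (ε₂ * J) * (1 / 2 ^ ⌊Ps * J⌋₊)) (c₀ := η₀ / 2) (e := ε * q * J)
    (L := s₀ * J - ε * q * J - h₁ * J - M₀) (σ := fun l => 2 ^ (n l * J))
    (fun l _ => hR0 l) (mul_pos (by positivity) (pos _)) n2 (pos _)
    (mul_nonneg (mul_nonneg (by linarith) (pos _).le) (by positivity)) (by positivity)
    (fun y l hl => ⟨(hLX l (Nat.zero_le _) hl).deg y, fun b b' hb0 hb1 =>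
      (hLX l (Nat.zero_le _) hl).dep y b b' hb0 fun i hi => by
        obtain ⟨a, ha, rfl⟩ := Finset.mem_image.1 hi
        exact hb1 a (Finset.mem_range.1 ha)⟩)
    (fun y => ⟨hGP.deg y, fun b b' hb0 hb1 => hGP.dep y b b' hb0 fun i hi => by
        obtain ⟨a, ha, rfl⟩ := Finset.mem_image.1 hi
        exact hb1 a (Finset.mem_range.1 ha)⟩)
    (fun y => ⟨hHs.deg y, fun b b' hb0 hb1 => hHs.dep y b b' hb0 fun i hi => by
        obtain ⟨a, ha, rfl⟩ := Finset.mem_image.1 hi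
        exact hb1 a (Finset.mem_range.1 ha)⟩)
    (fun ω hω τ hτ l hl => by
      have h1 := hBg ω (of_cond_pos hω)
      rw [hgd] at h1
      refine (h1.1 l hl τ hτ).trans ?_
      rw [hR]
      have a1 := ip2_le ((pc l - e) * J)
      have a2 : (2 : ℝ) ^ (-((pc l - e) * J)) =
          2 ^ (-(pc l - e₃) * J) * (2 ^ ((e₃ - e) * J))⁻¹ := by
        rw [← Real.rpow_neg (by norm_num), ← Real.rpow_add (by norm_num)]
        congr 1
        ring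
      have a3 : (2 : ℝ) ^ (-(pc l - e₃) * J) ≤ 1 / 2 ^ ⌊(pc l - e₃) * J⌋₊ := by
        rw [neg_mul, Real.rpow_neg (by norm_num), ← one_div]
        exact one_div_le_one_div_of_le (by positivity) (p2_le (mul_nonneg (by
          linarith [(hbx l hl).2.2.2.2.1]) hJ0))
      have a4 : Ca * 2 ^ (ε₂ * J) * (2 * (2 ^ ((e₃ - e) * J))⁻¹) ≤ 1 / 4 := by
        rw [← div_eq_mul_inv, mul_div_assoc', div_le_div_iff₀ (pos _) (by norm_num)]
        linarith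
      have hCa0 : 0 < Ca := by linarith
      calc Ca * 2 ^ (ε₂ * J) * (1 / 2 ^ ⌊(pc l - e) * J⌋₊)
          ≤ Ca * 2 ^ (ε₂ * J) * (2 * 2 ^ (-((pc l - e) * J))) :=
            mul_le_mul_of_nonneg_left a1 (mul_nonneg hCa0.le (pos _).le)
        _ = (Ca * 2 ^ (ε₂ * J) * (2 * (2 ^ ((e₃ - e) * J))⁻¹)) * 2 ^ (-(pc l - e₃) * J) := by
            rw [a2]; ring
        _ ≤ 1 / 4 * (1 / 2 ^ ⌊(pc l - e₃) * J⌋₊) :=
            mul_le_mul a4 a3 (pos _).le (by norm_num)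
        _ = 2 / 2 ^ ⌊(pc l - e₃) * J⌋₊ / 8 := by ring)
    (fun ω hω τ hτ => by
      have h1 := hBg ω (of_cond_pos hω)
      rw [hgd] at h1
      exact h1.2.1 τ hτ)
    (fun ω hω x hx => by
      have h1 := hBg ω (of_cond_pos hω)
      rw [hgd] at h1
      exact h1.2.2 x hx)
    (fun l hl => by
      refine ⟨pos _, ?_⟩
      rw [hR, div_eq_mul_inv, ← Real.rpow_neg (by norm_num)]
      have a3 : (2 : ℝ) ^ (-(pc l - e₃) * J) ≤ 1 / 2 ^ ⌊(pc l - e₃) * J⌋₊ := by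
        rw [neg_mul, Real.rpow_neg (by norm_num), ← one_div]
        exact one_div_le_one_div_of_le (by positivity) (p2_le (mul_nonneg (by
          linarith [(hbx l (by omega)).2.2.2.2.1]) hJ0))
      have a4 : (2 : ℝ) ^ (-(n l * J)) ≤ 2 ^ (-X' * J) * 2 ^ (-(pc l - e₃) * J) := by
        rw [← p2_split, ← neg_mul]
        exact Pool.ALT.p2_mono (by linarith [hn l hl])
      have a5 := pos (-X')
      calc ((K : ℝ) + 2) * 2 ^ (-(n l * J)) ≤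
            (K + 2) * (2 ^ (-X' * J) * (1 / 2 ^ ⌊(pc l - e₃) * J⌋₊)) :=
            mul_le_mul_of_nonneg_left (a4.trans (mul_le_mul_of_nonneg_left a3 a5.le))
              (by positivity)
        _ ≤ ((K : ℝ) + 2) * 2 ^ (-X' * J) * (2 / 2 ^ ⌊(pc l - e₃) * J⌋₊) := by
            have a6 : (0 : ℝ) ≤ (K + 2) * 2 ^ (-X' * J) * (1 / 2 ^ ⌊(pc l - e₃) * J⌋₊) := by
              positivity
            have e1 : ((K : ℝ) + 2) * 2 ^ (-X' * J) * (2 / 2 ^ ⌊(pc l - e₃) * J⌋₊) =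
              2 * ((K + 2) * 2 ^ (-X' * J) * (1 / 2 ^ ⌊(pc l - e₃) * J⌋₊)) := by ring
            rw [e1]
            linarith)
    (fun ω ω' _ _ hy l hl j hj => by
      have e1 : Cx ω = Cx ω' := (Prod.ext_iff.mp hy).2
      rw [hCx] at e1
      have e2 := congrFun (congrFun (Prod.ext_iff.mp e1).2 l) j
      have e3 : ((0 ≤ l ∧ l < r) ∧ j < K + 3) := ⟨⟨Nat.zero_le _, hl⟩, by omega⟩
      have e4 : ∀ ω₁, (ctx c 0 r K v lam n J F V z' g ω₁).2 l j =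
          ⌊jr F ⌊v * J⌋₊ (2 ^ (n l * J)) (c l) z' (fun v => g v l) j (slam F ⌊v * J⌋₊ ω₁)⌋ :=
        fun ω₁ => if_pos e3
      rw [e4, e4] at e2
      exact e2)
    (by
      refine le_trans (CH_mono_left (X' := fun ω => ((z' (vg v J F ω), (vg v J F ω).2),
        (ctx c 0 r K v lam n J F V z' g ω,
        fun j : Fin (K + 3) => ⌊jr F ⌊v * J⌋₊ (2 ^ ((P + q) * J)) κ z' G j (vg v J F ω)⌋)))
        hbl.nonneg fun ω ω' _ _ hh => ?_) ((CH_mono_cond hbl.nonneg fun ω ω' _ _ hh => ?_).trans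
        hp₁)
      · simp only [Prod.mk.injEq] at hh ⊢
        exact hh.1.2.2
      · simp only [Prod.mk.injEq] at hh ⊢
        exact hh.1.1)
    (fun Q hQ => by
      rw [cond_part_eq hbl]
      obtain ⟨Rr, hRr⟩ : ∃ Rr : F.Ω → Prop, Rr = fun ω => B ω ∧ Q ω := ⟨_, rfl⟩
      rw [← hRr]
      have hRB : Sub Rr B := fun ω hω => by
        rw [hRr] at hω
        exact hω.1
      have hRA : Sub Rr A := fun ω hω => hBA ω (hRB ω hω)
      have hPR : Pe F.p A ≤ 2 / (η₀ / 2) * Pe F.p Rr := by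
        rw [Pb_cond hB0, le_div_iff₀ hB0, ← hRr] at hQ
        rw [div_mul_eq_mul_div, le_div_iff₀ (by positivity)]
        have h2 := mul_le_mul_of_nonneg_left hPB (show 0 ≤ η₀ / 2 by positivity)
        linarith
      have hR0' : 0 < Pe F.p Rr := by
        by_contra h2
        push Not at h2
        have h3 : 2 / (η₀ / 2) * Pe F.p Rr ≤ 0 :=
          mul_nonpos_of_nonneg_of_nonpos (by positivity) h2
        linarith
      have hrl := isLaw_cond F.isLaw hR0'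
      have h0 := hrl.nonneg
      have hΘR := H.hs J F A Rr V z z' G g hRA hΘ
      have hu₀R := (qJets m c 0 r 1 (fun _ _ => t) (fun l _ => pf l) Nf).sub hRA hu₀
      obtain ⟨V₂, z₂, hz₂, hp₂⟩ := hpath Rr hRA hPR V z z' G g hΘR u₀ hu₀R
      -- the closed functions
      obtain ⟨φ, hφ⟩ := vg_mono hvt ht1 J F
      have hzc : Cl2 (ptr F J) (vg t J F) Rr (fun ω => z' (slam F ⌊v * J⌋₊ ω)) :=
        ⟨⟨z, fun ω hω => (hGP.cls ω (hRA ω hω)).symm⟩, fun x => z' (φ x),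
          fun ω _ => congrArg z' (hφ ω)⟩
      have hzs : Cl2 (ptr F J) (vg t J F) Rr (fun ω => zs' (slam F ⌊v * J⌋₊ ω)) :=
        ⟨⟨zs, fun ω hω => (hHs.cls ω (hRA ω hω)).symm⟩, fun x => zs' (φ x),
          fun ω _ => congrArg zs' (hφ ω)⟩
      have hz2 : Cl2 (ptr F J) (vg t J F) Rr (fun ω => (slam F ⌊v * J⌋₊ ω).2) := by
        refine ⟨⟨fun x => (x.2.2, x.2.1 / 2 ^ (J - ⌊v * J⌋₊)), fun ω _ => ?_⟩, fun x => (φ x).2,
          fun ω _ => congrArg Prod.snd (hφ ω)⟩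
        show (slam F ⌊v * J⌋₊ ω).2 = ((ptr F J ω).2.2, (ptr F J ω).2.1 / 2 ^ (J - ⌊v * J⌋₊))
        rfl
      have ha := halv Rr hRA hPR u₀ (by
        exact (qJets m c 0 r 1 (fun _ _ => t) (fun l _ => pf l) Nf).mono le_rfl hPe hu₀R) V z z'
        (fun v => g v r) ((hLX r (Nat.zero_le _) (Nat.lt_succ_self r)).sub hRA) _
        (fun ω => ((z₁ ω, z₂ ω), ((z' (slam F ⌊v * J⌋₊ ω), (slam F ⌊v * J⌋₊ ω).2),
          zs' (slam F ⌊v * J⌋₊ ω)))) (((hz₁.sub hRB).join hz₂).join ((hzc.join hz2).join hzs)) _ Cx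
        (nb * β) (R r) (hR0 r) (by rw [hR]; exact n3)
      obtain ⟨W₂, hW₂⟩ : ∃ W₂ : F.Ω → (ℕ → ℕ → ℤ) × (((V₁ × V₂) × ((V × (F.ζ × ℕ)) × Vs)) × ℕ),
        W₂ = fun ω => (u₀ ω, (((z₁ ω, z₂ ω), ((z' (slam F ⌊v * J⌋₊ ω), (slam F ⌊v * J⌋₊ ω).2),
          zs' (slam F ⌊v * J⌋₊ ω))), F.T ω)) := ⟨_, rfl⟩
      have ha' : s₀ * J ≤ CH (Pool.Agent.H49.Ent.cond F.p Rr True) Cx W₂ +
          CH (Pool.Agent.H49.Ent.cond F.p Rr True)
          (wc (K + 1) (nb * β) (R r) fun ω =>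
            opl F ⌊v * J⌋₊ (X (some (c r)) - g (z' (slam F ⌊v * J⌋₊ ω)) r) (slam F ⌊v * J⌋₊ ω))
          (fun ω => (Cx ω, W₂ ω)) + h₁ * J + M₀ := by
        rw [hW₂]
        exact ha
      have b1 : CH (Pool.Agent.H49.Ent.cond F.p Rr True) Cx W₂ ≤ ε * q * J := by
        refine le_trans (CH_mono_left (X' := fun ω => ((z' (vg v J F ω), (vg v J F ω).2),
          (ctx c 0 r K v lam n J F V z' g ω,
          fun j : Fin (K + 3) => ⌊jr F ⌊v * J⌋₊ (2 ^ ((P + q) * J)) κ z' G j (vg v J F ω)⌋)))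
          h0 fun ω ω' _ _ hh => ?_) ((CH_mono_cond h0 fun ω ω' _ _ hh => ?_).trans hp₂)
        · rw [hCx]
          simp only [Prod.mk.injEq] at hh
          exact hh.1.2.1
        · rw [hW₂] at hh
          simp only [Prod.mk.injEq] at hh ⊢
          exact ⟨hh.1, hh.2.1.1.2, hh.2.2⟩
      have b2 : CH (Pool.Agent.H49.Ent.cond F.p Rr True)
          (wc (K + 1) (nb * β) (R r) fun ω =>
            opl F ⌊v * J⌋₊ (X (some (c r)) - g (z' (slam F ⌊v * J⌋₊ ω)) r) (slam F ⌊v * J⌋₊ ω))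
          (fun ω => (Cx ω, W₂ ω)) ≤
          CH (Pool.Agent.H49.Ent.cond F.p Rr True)
          (wc (K + 1) (nb * β) (R r) fun ω =>
            opl F ⌊v * J⌋₊ (X (some (c r)) - g (z' (slam F ⌊v * J⌋₊ ω)) r) (slam F ⌊v * J⌋₊ ω))
          (fun ω => (((u₀ ω, (z₁ ω, F.T ω)), Cx ω), ((z' (slam F ⌊v * J⌋₊ ω),
            (slam F ⌊v * J⌋₊ ω).2), zs' (slam F ⌊v * J⌋₊ ω)))) := by
        refine CH_mono_cond h0 fun ω ω' _ _ hh => ?_
        rw [hW₂] at hh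
        simp only [Prod.mk.injEq] at hh ⊢
        obtain ⟨d1, d2, ⟨⟨d3, d4⟩, ⟨d5, d6⟩, d7⟩, d8⟩ := hh
        exact ⟨⟨⟨d2, d3, d8⟩, d1⟩, ⟨d5, d6⟩, d7⟩
      linarith only [ha', b1, b2])
    n6
  have hfin := Pb_part F.isLaw hBA hA hB0 (fun ω => ¬ ∀ h' : ℝ, |h'| ≤ 2 ^ (-y' * J) →
    |eval (Function.update (bt F ω) (some (c r)) (F.x ω (c r) + h')) (pderiv (some (c r))
      (Hs (zs' (slam F ⌊v * J⌋₊ ω)) - G (z' (slam F ⌊v * J⌋₊ ω))))| ≤ 2 ^ (-x * J))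
  have hlast : Pb (Pool.Agent.H49.Ent.cond F.p B True) (fun ω => ¬ ∀ h' : ℝ,
      |h'| ≤ 2 ^ (-y' * J) →
      |eval (Function.update (bt F ω) (some (c r)) (F.x ω (c r) + h')) (pderiv (some (c r))
        (Hs (zs' (slam F ⌊v * J⌋₊ ω)) - G (z' (slam F ⌊v * J⌋₊ ω))))| ≤ 2 ^ (-x * J)) ≤
      η₀ / 2 := by
    refine le_trans (Pool.GRD.Pb_mono_pos hbl.nonneg fun ω _ hω => ?_) key.le
    intro hno
    refine hω fun h' hh' => ?_
    refine (hno h' (hh'.trans ?_)).trans ?_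
    · rw [hR]
      exact n5
    · rw [hR]
      exact n4
  linarith

end Pool.FLN19
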