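import Pool.Agent.H19.FLN.Spl
import Pool.Agent.H91.LA.Num
import Pool.Agent.H18.PN.Prt

/-!
# Few bits on a part, or alive in a subclass

`dQt`: on the event there are functions with the quantities `Qu`, `Q'` and a closed function, such that
the second one has few values in the cells of the others and of `y`. `dead_or_alive`: each event has a
part of half the mass with this property, or there is a nonempty subclass in which `Q'` has
entropy given `Qu`, every closed function and `y`.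
-/

set_option autoImplicit false

namespace Pool.FLN19

open Finset Real
open Pool.Agent.H49.Ent Pool.Agent.H32.Dense Pool.STK Pool.KA Pool.K2S Pool.PB Pool.S6C Pool.RCD
open Pool.LA91

variable {m : ℕ} {U U' : Type} {α β γ : ∀ J : ℕ, Fam m J → Type}
  (f : ∀ (J : ℕ) (F : Fam m J), F.Ω → α J F) (g : ∀ (J : ℕ) (F : Fam m J), F.Ω → β J F)
  (y : ∀ (J : ℕ) (F : Fam m J), F.Ω → γ J F) (Q : Qt m U) (Q' : Qt m U') (K : ℕ) (e : ℝ)

/-- On the event there are functions with `Q`, `Q'` and a closed function such that the second one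
has at most `exp (s J)` values in each cell of the first one, the closed one and `y`. -/
def dQt (s : ℝ) : Stat m := fun J F A => ∃ (u : F.Ω → U) (u' : F.Ω → U'), Q.P K e J F A u ∧
  Q'.P K e J F A u' ∧ ∃ (V : Type) (z : F.Ω → V), Cl2 (f J F) (g J F) A z ∧
    ∀ v, (cnt F.p u' (fun ω => A ω ∧ (u ω, (z ω, y J F ω)) = v) : ℝ) ≤ Real.exp (s * J)

theorem dQt.hered (s : ℝ) (J : ℕ) (F : Fam m J) (A B : F.Ω → Prop) (hB : Sub B A)
    (h : dQt f g y Q Q' K e s J F A) : dQt f g y Q Q' K e s J F B := by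
  obtain ⟨u, u', hu, hu', V, z, h1, h2⟩ := h
  refine ⟨u, u', Q.sub hB hu, Q'.sub hB hu', V, z, h1.sub hB, fun v => le_trans ?_ (h2 v)⟩
  have h3 : Sub (fun ω => B ω ∧ (u ω, (z ω, y J F ω)) = v)
    (fun ω => A ω ∧ (u ω, (z ω, y J F ω)) = v) := fun ω hω => ⟨hB ω hω.1, hω.2⟩
  exact_mod_cast cnt_mono F.p u' h3

/-- The core of an event: a part of half the mass where `u'` has many values on all large parts,
given `u`, the maximal closed function `z` and `y`. -/
structure Core (h κ s : ℝ) {J : ℕ} (F : Fam m J) (A B : F.Ω → Prop) (u : F.Ω → U)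
    (u' : F.Ω → U') {V : Type} (z : F.Ω → V) : Prop where
  sub : Sub B A
  half : Pe F.p A ≤ 2 * Pe F.p B
  pos : 0 < Pe F.p A
  qu : Q.P K e J F A u
  qu' : Q'.P K e J F A u'
  cl : Cl2 (f J F) (g J F) A z
  mx : ∀ R : F.Ω → Prop, Sub R A → Real.exp (-(κ * J)) * Pe F.p A ≤ Pe F.p R →
    ∀ (V' : Type) (z' : F.Ω → V'), Cl2 (f J F) (g J F) R z' →
      CH (Pool.Agent.H49.Ent.cond F.p R True) z' z ≤ h * J
  many : ∀ (R : F.Ω → Prop) (M' : ℝ), Sub R B → 0 ≤ M' →
    (∀ v, (cnt F.p u' (fun ω => R ω ∧ (u ω, (z ω, y J F ω)) = v) : ℝ) ≤ M') →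
    Pe F.p R ≤ M' / Real.exp (s * J) * Pe F.p A

/-- The subclass of the large parts of the cores. -/
def coreC (S : PCl m) (h κ s : ℝ) : PCl m where
  St τ J F R := S.St τ J F R ∧ ∃ (A B : F.Ω → Prop) (u : F.Ω → U) (u' : F.Ω → U') (V : Type)
    (z : F.Ω → V), Core f g y Q Q' K e h κ s F A B u u' z ∧ Sub R B ∧
      Real.exp (-(τ * J)) * Pe F.p B ≤ Pe F.p R
  mono := by
    rintro τ τ' J F R hτ ⟨h1, A, B, u, u', V, z, h2, h3, h4⟩
    refine ⟨S.mono hτ h1, A, B, u, u', V, z, h2, h3, le_trans ?_ h4⟩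
    refine mul_le_mul_of_nonneg_right (Real.exp_le_exp.2 ?_) (Pe_nonneg F.isLaw B)
    have := mul_le_mul_of_nonneg_right hτ (Nat.cast_nonneg (α := ℝ) J)
    linarith
  res := by
    rintro τ τ' J F R R' hτ ⟨h1, A, B, u, u', V, z, h2, h3, h4⟩ hR hP
    refine ⟨S.res hτ h1 hR hP, A, B, u, u', V, z, h2, fun ω hω => h3 ω (hR ω hω), ?_⟩
    have h5 := mul_le_mul_of_nonneg_left h4 (Real.exp_pos (-(τ' * J))).le
    rw [← mul_assoc, ← Real.exp_add] at h5
    have e1 : -(τ' * (J : ℝ)) + -(τ * J) = -((τ + τ') * J) := by ring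
    rw [e1] at h5
    exact h5.trans hP

theorem coreC_sub (S : PCl m) (h κ s : ℝ) (τ : ℝ) (J : ℕ) (F : Fam m J) (A : F.Ω → Prop)
    (hA : (coreC f g y Q Q' K e S h κ s).St τ J F A) : S.St τ J F A := hA.1

variable {f g y Q Q' K e}

/-- **Few bits on a part, or alive in a subclass.** -/
theorem dead_or_alive {S : PCl m}
    (hpos : ∀ (τ : ℝ) (J : ℕ) (F : Fam m J) (A : F.Ω → Prop), S.St τ J F A → 0 < Pe F.p A)
    {ρ : ℝ} (hρ : RNum S f g ρ) {s : ℝ} (hs : 0 < s)
    (hexu : Bas S (fun J F A => ∃ u, Q.P K e J F A u))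
    (hexu' : Bas S (fun J F A => ∃ u', Q'.P K e J F A u')) :
    Bas S (fun J F A => ∃ B : F.Ω → Prop, Sub B A ∧ Pe F.p A ≤ 2 * Pe F.p B ∧
      dQt f g y Q Q' K e s J F B) ∨
    ∃ S' : PCl m, S'.Ne ∧
      (∀ (τ : ℝ) (J : ℕ) (F : Fam m J) (A : F.Ω → Prop), S'.St τ J F A → S.St τ J F A) ∧
      Bas S' (fun J F A => ∃ (u : F.Ω → U) (u' : F.Ω → U'), Q.P K e J F A u ∧
        Q'.P K e J F A u' ∧ ∀ (V : Type) (z : F.Ω → V), Cl2 (f J F) (g J F) A z →
          s / 2 * J ≤ CH (Pool.Agent.H49.Ent.cond F.p A True) u' (fun ω => (u ω, (z ω, y J F ω)))) := by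
  classical
  by_cases hfst : Bas S (fun J F A => ∃ B : F.Ω → Prop, Sub B A ∧ Pe F.p A ≤ 2 * Pe F.p B ∧
      dQt f g y Q Q' K e s J F B)
  · exact Or.inl hfst
  refine Or.inr ?_
  obtain ⟨κ, hκ, hmax⟩ := hρ.max hpos (s / 8) (by positivity)
  obtain ⟨τ₁, hτ₁, J₁, hall⟩ := ((hmax.and (hρ.at' (s / 16) (by positivity))).and (hexu.and hexu'))
  have hno : ∀ τ : ℝ, 0 < τ → ∀ J₂ : ℕ, ∃ J ≥ J₂, ∃ (F : Fam m J) (A : F.Ω → Prop),
      S.St τ J F A ∧ ∀ B : F.Ω → Prop, Sub B A → Pe F.p A ≤ 2 * Pe F.p B →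
        ¬ dQt f g y Q Q' K e s J F B := by
    intro τ hτ J₂
    by_contra hcon
    push Not at hcon
    exact hfst ⟨τ, hτ, J₂, fun J hJ F A hA => by
      obtain ⟨B, h1, h2, h3⟩ := hcon J hJ F A hA
      exact ⟨B, h1, h2, h3⟩⟩
  refine ⟨coreC f g y Q Q' K e S (s / 8) κ s, fun τ hτ J₂ => ?_, coreC_sub f g y Q Q' K e S _ _ _, ?_⟩
  · -- the subclass is not empty
    obtain ⟨J₃, hJ₃⟩ := exp_small' (κ := τ / 2) (half_pos hτ) (C := 2) one_le_two
    obtain ⟨J, hJ, F, A, hA, hB⟩ := hno (min (τ / 2) τ₁) (lt_min (half_pos hτ) hτ₁)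
      (max J₂ (max J₁ J₃))
    have j2 : J₂ ≤ J := (le_max_left _ _).trans hJ
    have j1 : J₁ ≤ J := (le_max_left _ _).trans ((le_max_right _ _).trans hJ)
    have j3 : J₃ ≤ J := (le_max_right _ _).trans ((le_max_right _ _).trans hJ)
    obtain ⟨⟨h1, V, z, hz, hcell⟩, ⟨u, hu⟩, u', hu'⟩ := hall J j1 F A (S.mono (min_le_right _ _) hA)
    have hA0 := hpos _ J F A hA
    obtain ⟨D, hDA, hD, hrest⟩ := split_cells F.isLaw u' (fun ω => (u ω, (z ω, y J F ω))) hA0
      (Real.exp_pos (s * J))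
    have hDs : ¬ Pe F.p A ≤ 2 * Pe F.p D := fun h2 => hB D hDA h2
      ⟨u, u', Q.sub hDA hu, Q'.sub hDA hu', V, z, hz.sub hDA, hD⟩
    push Not at hDs
    obtain ⟨B, hBe⟩ : ∃ B : F.Ω → Prop, B = fun ω => A ω ∧ ¬ D ω := ⟨_, rfl⟩
    have hBA : Sub B A := fun ω hω => by
      rw [hBe] at hω
      exact hω.1
    have hBm : Pe F.p A ≤ Pe F.p D + Pe F.p B := by
      rw [hBe]
      exact Pe_rest F.isLaw A D
    have hhalf : Pe F.p A ≤ 2 * Pe F.p B := by linarith
    have hcore : Core f g y Q Q' K e (s / 8) κ s F A B u u' z :=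
      { sub := hBA
        half := hhalf
        pos := hA0
        qu := hu
        qu' := hu'
        cl := hz
        mx := fun R hR hP V' z' hz' => by
          refine ((h1 V z hz (fun v => ?_) R hR hP).2.2 V' z' hz').2
          have e1 : -ρ - s / 8 / 2 = -ρ - s / 16 := by ring
          rw [e1]
          exact hcell v
        many := fun R M' hR hM' h2 => hrest R M' (fun ω hω => hBA ω (hR ω hω))
          (fun ω hω => by
            have := hR ω hω
            rw [hBe] at this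
            exact this.2) hM' h2 }
    refine ⟨J, j2, F, B, ?_, A, B, u, u', V, z, hcore, fun _ h => h, ?_⟩
    · have h4 : S.St (τ / 2 + τ / 2) J F B := by
        refine S.res (half_pos hτ).le (S.mono (min_le_left _ _) hA) hBA ?_
        have h5 := hJ₃ J j3
        have h6 := mul_le_mul_of_nonneg_right h5 hA0.le
        linarith
      rwa [add_halves] at h4
    · have h5 : Real.exp (-(τ * J)) ≤ 1 := by
        rw [Real.exp_le_one_iff]
        have : 0 ≤ τ * (J : ℝ) := by positivity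
        linarith
      calc _ ≤ 1 * Pe F.p B := mul_le_mul_of_nonneg_right h5 (Pe_nonneg F.isLaw B)
        _ = Pe F.p B := one_mul _
  · -- alive
    obtain ⟨τ, hτe⟩ : ∃ τ : ℝ, τ = min (κ / 2) (s / 32) := ⟨_, rfl⟩
    have hτ : 0 < τ := by
      rw [hτe]
      positivity
    have hτκ : τ ≤ κ / 2 := by
      rw [hτe]
      exact min_le_left _ _
    have hτs : τ ≤ s / 32 := by
      rw [hτe]
      exact min_le_right _ _
    obtain ⟨J₃, hJ₃⟩ := exp_small' (κ := τ) hτ (C := 8) (by norm_num)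
    refine ⟨τ, hτ, max J₃ 1, fun J hJ F R hR => ?_⟩
    have hJ3 : J₃ ≤ J := (le_max_left _ _).trans hJ
    have hJ1 : (1 : ℝ) ≤ J := by exact_mod_cast (le_max_right _ _).trans hJ
    have hJ0 : (0 : ℝ) < J := by linarith
    obtain ⟨hSt, A, B, u, u', V, z, hc, hRB, hP⟩ := hR
    have hRA : Sub R A := fun ω hω => hc.sub ω (hRB ω hω)
    have hR0 := hpos τ J F R hSt
    have hx8 := hJ₃ J hJ3
    have hτJ : 0 < τ * J := by positivity
    have hA0 := hc.pos
    -- the masses
    have m1 : Real.exp (-(2 * τ * J)) * Pe F.p A ≤ Pe F.p R := by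
      have e1 : Real.exp (-(2 * τ * J)) = Real.exp (-(τ * J)) * Real.exp (-(τ * J)) := by
        rw [← Real.exp_add]
        congr 1
        ring
      rw [e1]
      have h2 : Real.exp (-(τ * J)) * Pe F.p A ≤ Pe F.p B := by
        have h3 := mul_le_mul_of_nonneg_right hx8 hA0.le
        have h4 := hc.half
        linarith
      calc _ = Real.exp (-(τ * J)) * (Real.exp (-(τ * J)) * Pe F.p A) := by ring
        _ ≤ Real.exp (-(τ * J)) * Pe F.p B := mul_le_mul_of_nonneg_left h2 (Real.exp_pos _).le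
        _ ≤ Pe F.p R := hP
    refine ⟨u, u', Q.sub hRA hc.qu, Q'.sub hRA hc.qu', fun V' z' hz' => ?_⟩
    have hqR := isLaw_cond F.isLaw hR0
    -- the maximal closed function
    have h1 : CH (Pool.Agent.H49.Ent.cond F.p R True) z' z ≤ s / 8 * J := by
      refine hc.mx R hRA (le_trans (mul_le_mul_of_nonneg_right (Real.exp_le_exp.2 ?_) hA0.le) m1)
        V' z' hz'
      have h3 := mul_le_mul_of_nonneg_right hτκ hJ0.le
      linarith
    -- many values
    have h2 := CH_ge_cells F.isLaw u' (fun ω => (u ω, (z ω, y J F ω))) hR0 (κ := τ * J)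
      (M := Real.exp ((s - 4 * τ) * J)) (by
        rw [Real.one_le_exp_iff]
        have : 0 ≤ s - 4 * τ := by linarith
        positivity) (fun R' hR' hP' => by
        by_contra hcon
        push Not at hcon
        have h3 := hc.many R' (Real.exp ((s - 4 * τ) * J)) (fun ω hω => hRB ω (hR' ω hω))
          (Real.exp_pos _).le hcon
        rw [← Real.exp_sub] at h3
        have e1 : (s - 4 * τ) * (J : ℝ) - s * J = -(4 * τ * J) := by ring
        rw [e1] at h3
        have h4 : Real.exp (-(3 * τ * J)) * Pe F.p A ≤ Pe F.p R' := by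
          refine le_trans ?_ hP'
          have e2 : Real.exp (-(3 * τ * J)) = Real.exp (-(τ * J)) * Real.exp (-(2 * τ * J)) := by
            rw [← Real.exp_add]
            congr 1
            ring
          rw [e2, mul_assoc]
          exact mul_le_mul_of_nonneg_left m1 (Real.exp_pos _).le
        have h5 : Real.exp (-(4 * τ * J)) < Real.exp (-(3 * τ * J)) := by
          rw [Real.exp_lt_exp]
          linarith
        have h6 := mul_lt_mul_of_pos_right h5 hA0
        linarith)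
    rw [Real.log_exp] at h2
    have h3 : 3 / 4 * s * J ≤ CH (Pool.Agent.H49.Ent.cond F.p R True) u'
        (fun ω => (u ω, (z ω, y J F ω))) := by
      refine le_trans ?_ h2
      have e1 : (7 : ℝ) / 8 ≤ 1 - Real.exp (-(τ * J)) := by linarith
      have e2 : 7 / 8 * s ≤ s - 4 * τ := by linarith
      have e3 : 7 / 8 * s * J ≤ (s - 4 * τ) * J := mul_le_mul_of_nonneg_right e2 hJ0.le
      calc 3 / 4 * s * J ≤ 7 / 8 * (7 / 8 * s * J) := by
            have : 0 < s * J := by positivity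
            linarith
        _ ≤ (1 - Real.exp (-(τ * J))) * ((s - 4 * τ) * J) :=
            mul_le_mul e1 e3 (by positivity) (by linarith)
    have h4 := Pool.OWN68.CH_cond_add hqR.nonneg u' z' (fun ω => (u ω, (z ω, y J F ω)))
    have h5 : CH (Pool.Agent.H49.Ent.cond F.p R True) z' (fun ω => (u ω, (z ω, y J F ω))) ≤
        CH (Pool.Agent.H49.Ent.cond F.p R True) z' z :=
      CH_mono_cond hqR.nonneg fun ω ω' _ _ h6 => by
        simp only [Prod.mk.injEq] at h6
        exact h6.2.1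
    have h6 : CH (Pool.Agent.H49.Ent.cond F.p R True) u'
        (fun ω => (z' ω, (u ω, (z ω, y J F ω)))) ≤
        CH (Pool.Agent.H49.Ent.cond F.p R True) u' (fun ω => (u ω, (z' ω, y J F ω))) :=
      CH_mono_cond hqR.nonneg fun ω ω' _ _ h7 => by
        simp only [Prod.mk.injEq] at h7 ⊢
        tauto
    have h7 : 0 < s * J := by positivity
    linarith

end Pool.FLN19
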