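import Pool.Agent.H91.LA.Nbxc
import Pool.Agent.H68.OWN.Jq

/-!
# The own path in the whole window of a label

`opl_ev`: the values of the own path. `opl_cls`: outside a small event the own path over a label of the
own window is small in the whole window.
-/

set_option autoImplicit false

namespace Pool.FLN19

open Finset Real MvPolynomial
open Pool.Agent.H49.Ent Pool.Agent.H32.Dense Pool.STK Pool.KA Pool.KSAT Pool.K2S Pool.PB Pool.GEN
open Pool.S6C Pool.RCD Pool.LA91 Pool.OWN68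
open Pool.GRD (LbP)
open Pool.BFL (Pb)

variable {m : ℕ}

/-- The point of the window of a line. -/
noncomputable def wpt {J : ℕ} (F : Fam m J) (w : ℕ) (x : LnT F) (τ : ℝ) : Option (Fin m) → ℝ :=
  fun o => mid F w x o + τ / 2 ^ (w + 1) * dirv F x o

/-- The values of the own path. -/
theorem opl_ev {J : ℕ} (F : Fam m J) (w : ℕ) (H : MvPolynomial (Option (Fin m)) ℝ) (x : LnT F)
    (τ : ℝ) : (opl F w H x).eval τ = eval (wpt F w x τ) H := by
  unfold opl wpt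
  rw [Polynomial.eval_comp, Polynomial.eval_mul, Polynomial.eval_C, Polynomial.eval_X,
    Pool.LA91.eval_alp]
  congr 2
  funext o
  ring

/-- The own point. -/
theorem wpt_uw {J : ℕ} (F : Fam m J) {w : ℕ} (hw : w ≤ J) (ω : F.Ω) :
    wpt F w (slam F w ω) (uw F w ω) = bt F ω := by
  funext o
  exact (bt_mid F hw ω o).symm

/-- The time of a point of the window. -/
theorem wpt_none {J : ℕ} (F : Fam m J) {w : ℕ} (hw : w ≤ J) (ω : F.Ω) {τ : ℝ} (hτ : |τ| ≤ 1) :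
    |wpt F w (slam F w ω) τ none - F.t ω| ≤ 1 / 2 ^ w := by
  have h1 := bt_mid F hw ω none
  have h2 : dirv F (slam F w ω) none = 1 := rfl
  have h3 : bt F ω none = F.t ω := rfl
  unfold wpt
  rw [← h3, h1, h2]
  have e : mid F w (slam F w ω) none + τ / 2 ^ (w + 1) * 1 -
      (mid F w (slam F w ω) none + uw F w ω / 2 ^ (w + 1) * 1) =
      (τ - uw F w ω) / 2 / 2 ^ w := by
    rw [pow_succ]
    field_simp
    ring
  rw [e, abs_div, abs_of_pos (show (0 : ℝ) < 2 ^ w by positivity)]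
  refine div_le_div_of_nonneg_right ?_ (by positivity)
  have g1 := abs_le.1 hτ
  have g2 := abs_le.1 (uw_abs F w ω)
  rw [abs_le]
  constructor <;> linarith [g1.1, g1.2, g2.1, g2.2]

theorem Pb_or' {Ω : Type} [Fintype Ω] {p : Ω → ℝ} (hp : ∀ ω, 0 ≤ p ω) (A B : Ω → Prop) :
    Pb p (fun ω => A ω ∨ B ω) ≤ Pb p A + Pb p B := by
  classical
  unfold Pb
  rw [← Finset.sum_add_distrib]
  refine Finset.sum_le_sum fun ω _ => ?_
  have h0 := hp ω
  by_cases hA : A ω <;> by_cases hB : B ω <;> simp [hA, hB, h0]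

theorem Pb_rng {Ω : Type} [Fintype Ω] {p : Ω → ℝ} (hp : IsLaw p) (A : ℕ → Ω → Prop) {η : ℝ} :
    ∀ n : ℕ, (∀ i < n, Pb p (A i) ≤ η) → Pb p (fun ω => ∃ i < n, A i ω) ≤ n * η
  | 0, _ => by
    have h1 : Pb p (fun ω => ∃ i < 0, A i ω) ≤ 0 := by
      unfold Pb
      refine Finset.sum_nonpos fun ω _ => ?_
      rw [if_neg]
      rintro ⟨i, hi, -⟩
      exact absurd hi (Nat.not_lt_zero i)
    rw [Nat.cast_zero, zero_mul]
    exact h1
  | n + 1, h => by
    have h1 := Pb_rng hp A n fun i hi => h i (by omega)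
    have h2 := h n (Nat.lt_succ_self n)
    have h3 := Pb_or' hp.nonneg (fun ω => ∃ i < n, A i ω) (A n)
    have h4 : Pb p (fun ω => ∃ i < n + 1, A i ω) ≤ Pb p (fun ω => (∃ i < n, A i ω) ∨ A n ω) := by
      refine Pool.GRD.Pb_mono_pos hp.nonneg fun ω _ => ?_
      rintro ⟨i, hi, hA⟩
      rcases Nat.lt_or_ge i n with h5 | h5
      · exact Or.inl ⟨i, h5, hA⟩
      · refine Or.inr ?_
        rw [show n = i by omega]
        exact hA
    push_cast
    linarith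

/-- **The own path over a label of the own window** is small in the whole window, outside a small
event. -/
theorem opl_cls (K : ℕ) : ∃ C : ℝ, 1 ≤ C ∧ ∀ {m : ℕ} {S : PCl m} {C₀ : ℝ} (_ : TmC S C₀)
    (I : Finset (Fin m)) (k : Fin m) {w η ε : ℝ} (_ : 0 ≤ w) (_ : w < 1) (_ : 0 < η) (_ : 0 < ε),
    Bas S (fun J F A => ∀ (P : ℕ) (V : Type) (z : PtT F → V) (z' : LnT F → V)
      (G : V → MvPolynomial (Option (Fin m)) ℝ), LbP F I k K J ⌊w * J⌋₊ P A z z' G →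
      Pb (Pool.Agent.H49.Ent.cond F.p A True) (fun ω => ¬ ∀ τ : ℝ, |τ| ≤ 1 →
        |(opl F ⌊w * J⌋₊ (X (some k) - G (z' (slam F ⌊w * J⌋₊ ω))) (slam F ⌊w * J⌋₊ ω)).eval τ| ≤
          C * 2 ^ (ε * J) * (1 / 2 ^ P)) ≤ η) := by
  obtain ⟨C₁, hC₁, H₁⟩ := der_small (K + 1)
  obtain ⟨C₂, hC₂, H₂⟩ := cof_small (K + 1)
  refine ⟨C₁ * C₂, one_le_mul_of_one_le_of_one_le hC₁ hC₂, ?_⟩
  intro m S C₀ htm I k w η ε hw0 hw1 hη hε
  have hn0 : (0 : ℝ) < ((K + 2 : ℕ) : ℝ) := by positivity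
  refine Bas.mono 0 ((Bas.all (K + 2) fun j _ => own_cls htm I k j K hw0 hw1
    (η := η / ((K + 2 : ℕ) : ℝ)) (by positivity) hε).and (Pool.GRW.tmc_bas htm one_pos)) ?_
  rintro J - F A ⟨h1, hA, -⟩ P V z z' G hlb
  have hcl := isLaw_cond F.isLaw hA
  have hwJ : ⌊w * J⌋₊ ≤ J := floor_le hw1.le J
  have hJ0 : (0 : ℝ) ≤ J := Nat.cast_nonneg J
  have h2 := Pb_rng hcl (fun j ω => ¬ |ojet F k j (G (z' (slam F ⌊w * J⌋₊ ω))) ω| ≤
    2 ^ ((ε + j * w) * J) * (1 / 2 ^ P)) (K + 2) fun j hj => h1 j hj P V z z' G hlb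
  have h3 : ((K + 2 : ℕ) : ℝ) * (η / ((K + 2 : ℕ) : ℝ)) = η := by field_simp
  rw [h3] at h2
  refine le_trans (Pool.GRD.Pb_mono_pos hcl.nonneg fun ω _ hω => ?_) h2
  by_contra hno
  push Not at hno
  refine hω fun τ hτ => ?_
  obtain ⟨E, hE⟩ : ∃ E, E = opl F ⌊w * J⌋₊ (X (some k) - G (z' (slam F ⌊w * J⌋₊ ω)))
    (slam F ⌊w * J⌋₊ ω) := ⟨_, rfl⟩
  have hdeg : E.natDegree ≤ K + 1 := by
    rw [hE]
    refine natDegree_opl F _ ((MvPolynomial.totalDegree_sub _ _).trans (max_le ?_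
      ((hlb.deg _).trans (by omega)))) _
    exact (totalDegree_X _).le.trans (by omega)
  rw [← hE]
  have h2P : (0 : ℝ) < 1 / 2 ^ P := by positivity
  have hεJ : (0 : ℝ) < 2 ^ (ε * J) := Real.rpow_pos_of_pos (by norm_num) _
  have hd : ∀ i, |(Polynomial.derivative^[i] E).eval (uw F ⌊w * J⌋₊ ω)| ≤
      2 ^ (ε * J) * (1 / 2 ^ P) := by
    intro i
    by_cases hi : i < K + 2
    · have h4 := hno i hi
      have h5 := opl_jet F hwJ (X (some k) - G (z' (slam F ⌊w * J⌋₊ ω))) ω i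
      rw [← hE] at h5
      rw [h5, abs_mul, abs_of_pos (by positivity)]
      have h6 : jet i (X (some k) - G (z' (slam F ⌊w * J⌋₊ ω))) (bt F ω) (bd F ω) =
        ojet F k i (G (z' (slam F ⌊w * J⌋₊ ω))) ω := rfl
      rw [h6]
      have h7 : (2 : ℝ) ^ ((ε + i * w) * J) = 2 ^ (ε * J) * (2 ^ (w * J)) ^ i := by
        rw [← Real.rpow_natCast, ← Real.rpow_mul (by norm_num), ← Real.rpow_add (by norm_num)]
        congr 1
        ring
      have h8 : (1 / 2 ^ (⌊w * J⌋₊ + 1) : ℝ) ^ i * (2 ^ (w * J)) ^ i ≤ 1 := by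
        rw [← mul_pow]
        refine pow_le_one₀ (by positivity) ?_
        rw [div_mul_eq_mul_div, one_mul, div_le_one (by positivity), ← Real.rpow_natCast]
        refine Real.rpow_le_rpow_of_exponent_le (by norm_num) ?_
        push_cast
        exact (Nat.lt_floor_add_one _).le
      calc (1 / 2 ^ (⌊w * J⌋₊ + 1) : ℝ) ^ i * |ojet F k i (G (z' (slam F ⌊w * J⌋₊ ω))) ω|
          ≤ (1 / 2 ^ (⌊w * J⌋₊ + 1) : ℝ) ^ i * (2 ^ ((ε + i * w) * J) * (1 / 2 ^ P)) :=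
            mul_le_mul_of_nonneg_left h4 (by positivity)
        _ = ((1 / 2 ^ (⌊w * J⌋₊ + 1) : ℝ) ^ i * (2 ^ (w * J)) ^ i) *
            (2 ^ (ε * J) * (1 / 2 ^ P)) := by rw [h7]; ring
        _ ≤ 1 * (2 ^ (ε * J) * (1 / 2 ^ P)) :=
            mul_le_mul_of_nonneg_right h8 (by positivity)
        _ = _ := one_mul _
    · rw [Polynomial.iterate_derivative_eq_zero (by omega), Polynomial.eval_zero, abs_zero]
      positivity
  have hc : ∀ j, |E.coeff j| ≤ C₂ * (2 ^ (ε * J) * (1 / 2 ^ P)) := fun j =>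
    H₂ E j (uw F ⌊w * J⌋₊ ω) _ hdeg (uw_abs F _ ω) fun i _ => hd i
  have h9 := H₁ E 0 τ _ hdeg hτ fun i _ => hc i
  rw [Function.iterate_zero, id] at h9
  refine h9.trans (le_of_eq ?_)
  ring

end Pool.FLN19
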