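import Pool.Agent.H19.FLN.Own
import Pool.Agent.H19.FLN.Opl

/-!
# The event theorem over the own window of a chain

`flat_evt`: two closed labels of `κ` over the chain `c 0, …, c r` at the same window, which are near on
the natural box and whose difference along the own line is known, differ by a polynomial which does
not depend on the last coordinate, if the own path of the last coordinate is alive.
-/

set_option autoImplicit false

namespace Pool.FLN19

open Finset Real MvPolynomial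
open Pool.Agent.H49.Ent Pool.Agent.H32.Dense Pool.STK Pool.KA Pool.KSAT Pool.K2S Pool.PB Pool.GEN
open Pool.S6C Pool.RCD Pool.LA91 Pool.OWN68
open Pool.GRD (LbP)
open Pool.BFL (Pb)
open Pool.FLN13 (wc)

/-- Equal codes of the paths. -/
theorem cod_near {D : ℕ} {E E' : Polynomial ℝ} (hE : E.natDegree ≤ D) (hE' : E'.natDegree ≤ D)
    {σ : ℝ} (hσ : 0 < σ) (h : ∀ j ≤ D, ⌊σ * E.coeff j⌋ = ⌊σ * E'.coeff j⌋) {τ : ℝ}
    (hτ : |τ| ≤ 1) : |E.eval τ - E'.eval τ| ≤ (D + 1) / σ := by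
  rw [Polynomial.eval_eq_sum_range' (by omega : E.natDegree < D + 1),
    Polynomial.eval_eq_sum_range' (by omega : E'.natDegree < D + 1), ← Finset.sum_sub_distrib]
  refine (Finset.abs_sum_le_sum_abs _ _).trans ?_
  have h1 : ∀ j ∈ range (D + 1), |E.coeff j * τ ^ j - E'.coeff j * τ ^ j| ≤ 1 / σ := by
    intro j hj
    have h2 := h j (by have := Finset.mem_range.1 hj; omega)
    have h3 : |σ * E.coeff j - σ * E'.coeff j| ≤ 1 := by
      have g1 := Int.floor_le (σ * E.coeff j)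
      have g2 := Int.lt_floor_add_one (σ * E.coeff j)
      have g3 := Int.floor_le (σ * E'.coeff j)
      have g4 := Int.lt_floor_add_one (σ * E'.coeff j)
      rw [h2] at g1 g2
      rw [abs_le]
      constructor <;> linarith
    rw [← mul_sub, abs_mul, abs_of_pos hσ] at h3
    rw [← sub_mul, abs_mul, abs_pow]
    have h4 : |E.coeff j - E'.coeff j| ≤ 1 / σ := by
      rw [le_div_iff₀ hσ]
      linarith
    calc |E.coeff j - E'.coeff j| * |τ| ^ j ≤ 1 / σ * 1 :=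
          mul_le_mul h4 (pow_le_one₀ (abs_nonneg _) hτ) (by positivity) (by positivity)
      _ = 1 / σ := mul_one _
  refine (Finset.sum_le_sum h1).trans (le_of_eq ?_)
  rw [Finset.sum_const, Finset.card_range, nsmul_eq_mul]
  push_cast
  ring

/-- **The event theorem over the own window of a chain.** -/
theorem flat_evt (K r : ℕ) : ∃ (C : ℝ) (D' B₀ : ℕ), 1 ≤ C ∧ ∀ {m J : ℕ} {F : Fam m J}
    {c : ℕ → Fin m} {κ : Fin m} {W : ℕ} (_ : W ≤ J) (_ : Set.InjOn c (Set.Iio (r + 1)))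
    {p : F.Ω → ℝ} (_ : IsLaw p) {V Vs ZZ : Type} (z' : LnT F → V) (zs' : LnT F → Vs)
    (g : V → ℕ → MvPolynomial (Option (Fin m)) ℝ) (G : V → MvPolynomial (Option (Fin m)) ℝ)
    (Hs : Vs → MvPolynomial (Option (Fin m)) ℝ) (y₀ : F.Ω → ZZ) (R : ℕ → ℝ) (n β : ℕ)
    {M η σG as c₀ e L : ℝ} {σ : ℕ → ℝ}, (∀ l < r + 1, 0 < R l) → 0 < η → η ≤ 1 / 2 → 0 < σG →
    0 ≤ as → 0 < c₀ →
    (∀ v, ∀ l < r + 1, (g v l).totalDegree ≤ K ∧ DepC c l (g v l)) →
    (∀ v, (G v).totalDegree ≤ K ∧ DepC c (r + 1) (G v)) →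
    (∀ v, (Hs v).totalDegree ≤ K ∧ DepC c (r + 1) (Hs v)) →
    (∀ ω, 0 < p ω → ∀ τ : ℝ, |τ| ≤ 1 → ∀ l < r + 1,
      |(opl F W (X (some (c l)) - g (z' (slam F W ω)) l) (slam F W ω)).eval τ| ≤ R l / 8) →
    (∀ ω, 0 < p ω → ∀ τ : ℝ, |τ| ≤ 1 →
      |(opl F W (X (some κ) - Hs (zs' (slam F W ω))) (slam F W ω)).eval τ| ≤ as) →
    (∀ ω, 0 < p ω → ∀ x, NB F c 0 (r + 1) W R (g (z' (slam F W ω))) ω x →
      |eval x (Hs (zs' (slam F W ω)) - G (z' (slam F W ω)))| ≤ M) →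
    (∀ l < r, 0 < σ l ∧ (K + 2) / σ l ≤ η * R l) →
    (∀ ω ω', 0 < p ω → 0 < p ω' → y₀ ω = y₀ ω' → ∀ l < r, ∀ j ≤ K + 1,
      ⌊jr F W (σ l) (c l) z' (fun v => g v l) j (slam F W ω)⌋ =
        ⌊jr F W (σ l) (c l) z' (fun v => g v l) j (slam F W ω')⌋) →
    CH p (fun ω => fun j : Fin (K + 3) => ⌊jr F W σG κ z' G j (slam F W ω)⌋)
      (fun ω => (y₀ ω, ((z' (slam F W ω), (slam F W ω).2), zs' (slam F W ω)))) ≤ e →
    (∀ Q : F.Ω → Prop, c₀ ≤ Pb p Q → L ≤ CH (Pool.Agent.H49.Ent.cond p Q True)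
      (wc (K + 1) (n * β) (R r) fun ω =>
        opl F W (X (some (c r)) - g (z' (slam F W ω)) r) (slam F W ω))
      (fun ω => (y₀ ω, ((z' (slam F W ω), (slam F W ω).2), zs' (slam F W ω))))) →
    (((K + 1 : ℕ) : ℝ) + 1) * Real.log (2 * B₀ + 1) +
      n * Real.log (D' * 3 ^ (K + 1 + 1) + 1) + e / c₀ < L →
    Pb p (fun ω => ¬ ∀ h : ℝ, |h| ≤ R r / 16 / 2 ^ (n * β) →
      |eval (Function.update (bt F ω) (some (c r)) (F.x ω (c r) + h)) (pderiv (some (c r))
        (Hs (zs' (slam F W ω)) - G (z' (slam F W ω))))| ≤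
          C * (((K + 2) / σG + 2 * as) + M * η) * (2 ^ β) ^ D' * 2 ^ (n * β) / R r) < c₀ := by
  classical
  obtain ⟨C, D', B₀, hC, H⟩ := own_flat K (K + 1) r
  refine ⟨C, D', B₀, hC, ?_⟩
  intro m J F c κ W hW hc p hp V Vs ZZ z' zs' g G Hs y₀ R n β M η σG as c₀ e L σ hR hη hη2 hσG has
    hc₀ hg hG hHs hYb hst hbox hσ hctx hfew hal hL
  obtain ⟨Y, hY⟩ : ∃ Y : F.Ω → ℕ → Polynomial ℝ, Y = fun ω l =>
    opl F W (X (some (c l)) - g (z' (slam F W ω)) l) (slam F W ω) := ⟨_, rfl⟩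
  obtain ⟨z, hz⟩ : ∃ z : F.Ω → ZZ × ((V × (F.ζ × ℕ)) × Vs), z = fun ω =>
    (y₀ ω, ((z' (slam F W ω), (slam F W ω).2), zs' (slam F W ω))) := ⟨_, rfl⟩
  obtain ⟨fc, hfc⟩ : ∃ fc : F.Ω → Fin (K + 3) → ℤ, fc = fun ω =>
    fun j : Fin (K + 3) => ⌊jr F W σG κ z' G j (slam F W ω)⌋ := ⟨_, rfl⟩
  have hdX : ∀ k : Fin m, (X (some k) : MvPolynomial (Option (Fin m)) ℝ).totalDegree ≤ K + 1 :=
    fun k => (totalDegree_X _).le.trans (by omega)
  have hdg : ∀ (k : Fin m) (Q : MvPolynomial (Option (Fin m)) ℝ) (x : LnT F), Q.totalDegree ≤ K →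
      (opl F W (X (some k) - Q) x).natDegree ≤ K + 1 := fun k Q x hQ =>
    natDegree_opl F W ((MvPolynomial.totalDegree_sub _ _).trans (max_le (hdX k)
      (hQ.trans (by omega)))) x
  have hYd : ∀ ω, ∀ l < r + 1, (Y ω l).natDegree ≤ K + 1 := fun ω l hl => by
    rw [hY]
    exact hdg _ _ _ (hg _ l hl).1
  have hYe : ∀ ω l τ, (Y ω l).eval τ = wpt F W (slam F W ω) τ (some (c l)) -
      eval (wpt F W (slam F W ω) τ) (g (z' (slam F W ω)) l) := fun ω l τ => by
    rw [hY]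
    show (opl F W _ _).eval τ = _
    rw [opl_ev, map_sub, eval_X]
  have hwn : ∀ ω τ, wpt F W (slam F W ω) τ none =
      (((slam F W ω).2.2 : ℝ) + 1 / 2) / 2 ^ W + 1 / 2 ^ (W + 1) * τ := by
    intro ω τ
    show mid F W (slam F W ω) none + τ / 2 ^ (W + 1) * 1 = _
    show (((slam F W ω).2.2 : ℝ) + 1 / 2) / 2 ^ W + τ / 2 ^ (W + 1) * 1 = _
    ring
  -- the value along the own line
  have hval : ∀ ω τ, eval (tq c (g (z' (slam F W ω)))
      ((((slam F W ω).2.2 : ℝ) + 1 / 2) / 2 ^ W + 1 / 2 ^ (W + 1) * τ)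
      (fun l => (Y ω l).eval τ) (r + 1)) (Hs (zs' (slam F W ω)) - G (z' (slam F W ω))) =
      (opl F W (X (some κ) - G (z' (slam F W ω))) (slam F W ω)).eval τ -
      (opl F W (X (some κ) - Hs (zs' (slam F W ω))) (slam F W ω)).eval τ := by
    intro ω τ
    rw [tq_ev (b := wpt F W (slam F W ω) τ) hc (fun l hl => (hg _ l hl).2) (hwn ω τ).symm
      (fun l _ => hYe ω l τ) (by
        intro b b' hn hb
        rw [map_sub, map_sub, (hHs _).2 b b' hn hb, (hG _).2 b b' hn hb]), opl_ev, opl_ev, map_sub,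
      map_sub, map_sub]
    ring
  have key := H (m := m) (c := c) (p := p) hp z fc (fun v => g v.2.1.1)
    (fun v => Hs v.2.2 - G v.2.1.1) (fun v => ((v.2.1.2.2 : ℝ) + 1 / 2) / 2 ^ W) (1 / 2 ^ (W + 1))
    Y R n β (M := M) (η := η) (δ := (K + 2) / σG + 2 * as) (c₀ := c₀) (e := e) (L := L) hR hη hη2
    (by positivity) hc₀ (fun v l hl => (hg _ l hl).1)
    (fun v => (MvPolynomial.totalDegree_sub _ _).trans (max_le (hHs _).1 (hG _).1)) hYd
    (fun ω hω τ hτ l hl => by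
      rw [hY]
      exact hYb ω hω τ hτ l hl)
    (fun ω hω τ hτ x hx => by
      rw [hz]
      refine hbox ω hω _ ⟨?_, fun l hl => absurd hl (Nat.not_lt_zero l), fun i _ hi => ?_⟩
      · have h1 := wpt_none F hW ω hτ
        rw [hwn ω τ] at h1
        rw [tq_none]
        exact h1
      · rw [tq_own hc (fun l hl => (hg _ l hl).2) hi]
        exact hx i hi)
    (fun ω ω' hω hω' hzz l hl τ hτ => by
      have e1 : y₀ ω = y₀ ω' := by
        rw [hz] at hzz
        exact (Prod.ext_iff.mp hzz).1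
      have h2 := hctx ω ω' hω hω' e1 l hl
      have h3 := cod_near (hYd ω l (by omega)) (hYd ω' l (by omega)) (hσ l hl).1
        (fun j hj => by
          have h4 := h2 j hj
          unfold jr jR at h4
          rw [Polynomial.coeff_C_mul, Polynomial.coeff_C_mul] at h4
          rw [hY]
          exact h4) hτ
      refine h3.trans (le_trans (le_of_eq ?_) (hσ l hl).2)
      push_cast
      ring)
    (fun ω ω' hω hω' hzz hff τ hτ => by
      have h1 := hval ω τ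
      have h2 := hval ω' τ
      have e1 : z' (slam F W ω) = z' (slam F W ω') ∧ (slam F W ω).2 = (slam F W ω').2 ∧
          zs' (slam F W ω) = zs' (slam F W ω') := by
        rw [hz] at hzz
        simp only [Prod.mk.injEq] at hzz
        exact ⟨hzz.2.1.1, hzz.2.1.2, hzz.2.2⟩
      obtain ⟨a1, a2, a3⟩ := e1
      have h3 := cod_near (D := K + 1) (hdg κ _ (slam F W ω) (hG (z' (slam F W ω))).1)
        (hdg κ _ (slam F W ω') (hG (z' (slam F W ω'))).1) hσG
        (fun j hj => by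
          have h4 := congrFun hff ⟨j, by omega⟩
          rw [hfc] at h4
          have h5 : ⌊jr F W σG κ z' G j (slam F W ω)⌋ = ⌊jr F W σG κ z' G j (slam F W ω')⌋ := h4
          unfold jr jR at h5
          rw [Polynomial.coeff_C_mul, Polynomial.coeff_C_mul] at h5
          exact h5) hτ
      have h4 := hst ω hω τ hτ
      have h5 := hst ω' hω' τ hτ
      rw [hz]
      show |eval (tq c (g (z' (slam F W ω)))
        ((((slam F W ω).2.2 : ℝ) + 1 / 2) / 2 ^ W + 1 / 2 ^ (W + 1) * τ)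
        (fun l => (Y ω l).eval τ) (r + 1)) (Hs (zs' (slam F W ω)) - G (z' (slam F W ω))) -
        eval (tq c (g (z' (slam F W ω)))
        ((((slam F W ω).2.2 : ℝ) + 1 / 2) / 2 ^ W + 1 / 2 ^ (W + 1) * τ)
        (fun l => (Y ω' l).eval τ) (r + 1)) (Hs (zs' (slam F W ω)) - G (z' (slam F W ω)))| ≤ _
      rw [h1]
      have h6 : eval (tq c (g (z' (slam F W ω)))
        ((((slam F W ω).2.2 : ℝ) + 1 / 2) / 2 ^ W + 1 / 2 ^ (W + 1) * τ)
        (fun l => (Y ω' l).eval τ) (r + 1)) (Hs (zs' (slam F W ω)) - G (z' (slam F W ω))) =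
        eval (tq c (g (z' (slam F W ω')))
        ((((slam F W ω').2.2 : ℝ) + 1 / 2) / 2 ^ W + 1 / 2 ^ (W + 1) * τ)
        (fun l => (Y ω' l).eval τ) (r + 1)) (Hs (zs' (slam F W ω')) - G (z' (slam F W ω'))) := by
        rw [a1, a2, a3]
      rw [h6, h2]
      have e2 : (((K + 1 : ℕ) : ℝ) + 1) / σG = (K + 2) / σG := by
        push_cast
        ring
      rw [e2] at h3
      rw [abs_le] at h3 h4 h5 ⊢
      constructor <;> linarith [h3.1, h3.2, h4.1, h4.2, h5.1, h5.2])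
    (by
      rw [hfc, hz]
      exact hfew)
    (fun Q hQ => by
      rw [hz, hY]
      exact hal Q hQ)
    hL
  refine lt_of_le_of_lt (Pool.GRD.Pb_mono_pos hp.nonneg fun ω _ hω => ?_) key
  intro hno
  refine hω fun h hh => ?_
  have h1 := hno (uw F W ω) h (uw_abs F W ω) hh
  rw [hz] at h1
  refine le_trans (le_of_eq ?_) h1
  congr 1
  show _ = eval (tq c (g (z' (slam F W ω)))
    ((((slam F W ω).2.2 : ℝ) + 1 / 2) / 2 ^ W + 1 / 2 ^ (W + 1) * uw F W ω)
    (Function.update (fun l => (Y ω l).eval (uw F W ω)) r ((Y ω r).eval (uw F W ω) + h)) (r + 1))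
    (pderiv (some (c r)) (Hs (zs' (slam F W ω)) - G (z' (slam F W ω))))
  have h2 := tq_last c (g (z' (slam F W ω)))
    ((((slam F W ω).2.2 : ℝ) + 1 / 2) / 2 ^ W + 1 / 2 ^ (W + 1) * uw F W ω)
    (fun l => (Y ω l).eval (uw F W ω)) r h
  rw [h2]
  have hdep : DepC c (r + 1) (pderiv (some (c r)) (Hs (zs' (slam F W ω)) - G (z' (slam F W ω)))) :=
    DepC.pderiv (fun b b' hn hb => by
      rw [map_sub, map_sub, (hHs _).2 b b' hn hb, (hG _).2 b b' hn hb]) r
  have hpt : ∀ l < r + 1, tq c (g (z' (slam F W ω)))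
      ((((slam F W ω).2.2 : ℝ) + 1 / 2) / 2 ^ W + 1 / 2 ^ (W + 1) * uw F W ω)
      (fun l => (Y ω l).eval (uw F W ω)) (r + 1) (some (c l)) = bt F ω (some (c l)) := by
    intro l hl
    rw [tq_pt (b := wpt F W (slam F W ω) (uw F W ω)) hc (fun l hl => (hg _ l hl).2)
      (hwn ω (uw F W ω)).symm (fun l _ => hYe ω l (uw F W ω)) hl, wpt_uw F hW ω]
  refine hdep _ _ ?_ fun l hl => ?_
  · rw [Function.update_of_ne (by simp), Function.update_of_ne (by simp), tq_none,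
      ← hwn ω (uw F W ω), wpt_uw F hW ω]
  · by_cases h3 : l = r
    · subst h3
      rw [Function.update_self, Function.update_self, hpt l hl]
      rfl
    · have h4 : some (c l) ≠ some (c r) := fun h5 => h3 (hc (Set.mem_Iio.2 hl)
        (Set.mem_Iio.2 (Nat.lt_succ_self r)) (Option.some.inj h5))
      rw [Function.update_of_ne h4, Function.update_of_ne h4, hpt l hl]

end Pool.FLN19
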