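import Pool.Agent.H19.FLN.Dich
import Pool.Agent.H3.D2G.Chn1
import Pool.Agent.H68.OWN.Na
import Pool.Agent.H92.V0F.Hex

/-!
# Few bits in a subclass, or alive in a subclass

`f1_or_alive_abs`: in a nonempty subclass `Q'` is few bits given `Q`, a closed function and `y`, for all
functions with `Q`, `Q'`; or in a nonempty subclass it has entropy given `Q`, every closed function and
`y`, for all functions with `Q`, `Q'`. `f1_or_alive`: for the jets of a place over a chain.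
-/

set_option autoImplicit false

namespace Pool.FLN19

open Finset Real
open Pool.Agent.H49.Ent Pool.Agent.H32.Dense Pool.STK Pool.KA Pool.K2S Pool.PB Pool.S6C Pool.RCD
open Pool.LA91 Pool.GEN
open Pool.OWN68 (F1)

variable {m : ℕ} {U U' : Type} {γ : ∀ J : ℕ, Fam m J → Type}
  {y : ∀ (J : ℕ) (F : Fam m J), F.Ω → γ J F} {Q : Qt m U} {Q' : Qt m U'}

/-- **Alive**: `Q'` has entropy at least `s J` given `Q`, every closed function and `y`, for all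
functions with `Q`, `Q'`. -/
def AlvQ (S : PCl m) (t : ℝ) (y : ∀ (J : ℕ) (F : Fam m J), F.Ω → γ J F) (Q : Qt m U) (Q' : Qt m U')
    (e s : ℝ) : Prop :=
  ∀ K : ℕ, Bas S (fun J F A => ∀ u u', Q.P K e J F A u → Q'.P K e J F A u' →
    ∀ (V : Type) (z : F.Ω → V), Cl2 (ptr F J) (vg t J F) A z →
      s * J ≤ CH (Pool.Agent.H49.Ent.cond F.p A True) u' (fun ω => (u ω, (z ω, y J F ω))))

theorem AlvQ.sub {S S' : PCl m} (hs : ∀ (τ : ℝ) (J : ℕ) (F : Fam m J) (A : F.Ω → Prop),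
    S'.St τ J F A → S.St τ J F A) {t e s : ℝ} (h : AlvQ S t y Q Q' e s) : AlvQ S' t y Q Q' e s :=
  fun K => (h K).sub hs

/-- **Few bits in a subclass, or alive in a subclass.** -/
theorem f1_or_alive_abs {S : PCl m} (hne : S.Ne)
    (hpos : ∀ (τ : ℝ) (J : ℕ) (F : Fam m J) (A : F.Ω → Prop), S.St τ J F A → 0 < Pe F.p A)
    {M : ℝ} (hM : Bas S (fun J F A => (cnt F.p (ptr F J) A : ℝ) ≤ Real.exp (M * J)))
    {t e η h : ℝ} (he : 0 < e) (hη : 0 < η) (hh : h ≤ η / 16) (xQ : Exs S Q) (xQ' : Exs S Q')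
    (hF : F1 S (fun J F => ptr F J) (vg t) y Q Q e h)
    (hF' : F1 S (fun J F => ptr F J) (vg t) y (Q.prod Q') Q' e h) :
    (∃ S' : PCl m, S'.Ne ∧
      (∀ (τ : ℝ) (J : ℕ) (F : Fam m J) (A : F.Ω → Prop), S'.St τ J F A → S.St τ J F A) ∧
      F1 S' (fun J F => ptr F J) (vg t) y Q Q' e η) ∨
    ∃ S' : PCl m, S'.Ne ∧
      (∀ (τ : ℝ) (J : ℕ) (F : Fam m J) (A : F.Ω → Prop), S'.St τ J F A → S.St τ J F A) ∧
      AlvQ S' t y Q Q' e (η / 8) := by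
  classical
  obtain ⟨S₁, hne₁, hs₁, ρ, hρ⟩ := Pool.PKG.rnum_sh hne hpos hM t
  have hρ0 := hρ 0
  rw [Rat.cast_zero, zero_add] at hρ0
  have hpos₁ : ∀ (τ : ℝ) (J : ℕ) (F : Fam m J) (A : F.Ω → Prop), S₁.St τ J F A → 0 < Pe F.p A :=
    fun τ J F A h => hpos τ J F A (hs₁ τ J F A h)
  obtain ⟨K₁, M₁, hx₁⟩ := xQ e he
  obtain ⟨K₂, M₂, hx₂⟩ := xQ' e he
  obtain ⟨K₀, hK₀⟩ : ∃ K₀, K₀ = max K₁ K₂ := ⟨_, rfl⟩
  have hK1 : K₁ ≤ K₀ := by rw [hK₀]; exact le_max_left _ _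
  have hK2 : K₂ ≤ K₀ := by rw [hK₀]; exact le_max_right _ _
  have hexu : Bas S₁ (fun J F A => ∃ u, Q.P K₀ e J F A u) :=
    (Bas.mono 0 hx₁ fun J _ F A ⟨u, hu, _⟩ => ⟨u, Q.mono hK1 le_rfl hu⟩).sub hs₁
  have hexu' : Bas S₁ (fun J F A => ∃ u', Q'.P K₀ e J F A u') :=
    (Bas.mono 0 hx₂ fun J _ F A ⟨u, hu, _⟩ => ⟨u, Q'.mono hK2 le_rfl hu⟩).sub hs₁
  rcases dead_or_alive (f := fun J F => ptr F J) (g := vg t) (y := y) hpos₁ hρ0
    (s := η / 2) (by linarith) hexu hexu' with hd | ⟨S₂, hne₂, hs₂, hal⟩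
  · -- dead
    refine Or.inl ?_
    obtain ⟨S₂, hne₂, hs₂, hd⟩ := Pool.V0F.her_extc (ι := Unit) hne₁
      (fun _ => dQt (fun J F => ptr F J) (vg t) y Q Q' K₀ e (η / 2))
      (fun _ => dQt.hered _ _ y Q Q' K₀ e (η / 2)) (fun _ => ⟨2, hd⟩)
    refine ⟨S₂, hne₂, fun τ J F A h => hs₁ τ J F A (hs₂ τ J F A h), fun K => ?_⟩
    have h1 := (hF (max K K₀)).sub fun τ J F A h => hs₁ τ J F A (hs₂ τ J F A h)
    have h2 := (hF' (max K K₀)).sub fun τ J F A h => hs₁ τ J F A (hs₂ τ J F A h)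
    have hps : Bas S₂ (fun J F A => 0 < Pe F.p A) := ⟨1, one_pos, 0, fun J _ F A h =>
      hpos₁ _ J F A (hs₂ _ J F A h)⟩
    refine Bas.mono 0 (((hd ()).and hps).and (h1.and h2)) ?_
    rintro J - F A ⟨⟨⟨u₀, u₀', hu₀, hu₀', V₀, z₀, hz₀, hcell⟩, hA⟩, H1, H2⟩ u u' hu hu'
    have hcl := isLaw_cond F.isLaw hA
    have h0 := hcl.nonneg
    obtain ⟨V₁, z₁, hz₁, a1⟩ := H1 u u₀ (Q.mono (le_max_left _ _) le_rfl hu)
      (Q.mono (le_max_right _ _) le_rfl hu₀)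
    obtain ⟨V₂, z₂, hz₂, a2⟩ := H2 (fun ω => (u₀ ω, u₀' ω)) u'
      ⟨Q.mono (le_max_right _ _) le_rfl hu₀, Q'.mono (le_max_right _ _) le_rfl hu₀'⟩
      (Q'.mono (le_max_left _ _) le_rfl hu')
    refine ⟨(V₀ × V₁) × V₂, fun ω => ((z₀ ω, z₁ ω), z₂ ω), (hz₀.join hz₁).join hz₂, ?_⟩
    obtain ⟨Y, hY⟩ : ∃ Y : F.Ω → U × (((V₀ × V₁) × V₂) × γ J F), Y = fun ω =>
      (u ω, (((z₀ ω, z₁ ω), z₂ ω), y J F ω)) := ⟨_, rfl⟩
    rw [← hY]
    have a0 := Pool.RCD.CH_le_cells F.isLaw u₀' (fun ω => (u₀ ω, (z₀ ω, y J F ω))) hA hcell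
    rw [Real.log_exp] at a0
    have s1 := CH_le_add h0 u' u₀ Y
    have s2 := CH_le_add h0 u' u₀' (fun ω => (u₀ ω, Y ω))
    have s3 : CH (Pool.Agent.H49.Ent.cond F.p A True) u₀ Y ≤ h * J := by
      refine le_trans (CH_mono_cond h0 fun ω ω' _ _ hh => ?_) a1
      rw [hY] at hh
      simp only [Prod.mk.injEq] at hh ⊢
      exact ⟨hh.1, hh.2.1.1.2, hh.2.2⟩
    have s4 : CH (Pool.Agent.H49.Ent.cond F.p A True) u₀' (fun ω => (u₀ ω, Y ω)) ≤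
        η / 2 * J := by
      refine le_trans (CH_mono_cond h0 fun ω ω' _ _ hh => ?_) a0
      rw [hY] at hh
      simp only [Prod.mk.injEq] at hh ⊢
      exact ⟨hh.1, hh.2.2.1.1.1, hh.2.2.2⟩
    have s5 : CH (Pool.Agent.H49.Ent.cond F.p A True) u' (fun ω => (u₀' ω, (u₀ ω, Y ω))) ≤
        h * J := by
      refine le_trans (CH_mono_cond h0 fun ω ω' _ _ hh => ?_) a2
      rw [hY] at hh
      simp only [Prod.mk.injEq] at hh ⊢
      exact ⟨⟨hh.2.1, hh.1⟩, hh.2.2.2.1.2, hh.2.2.2.2⟩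
    have hJ0 : (0 : ℝ) ≤ J := Nat.cast_nonneg J
    have s7 := mul_le_mul_of_nonneg_right hh hJ0
    have s8 : 0 ≤ η * J := by positivity
    linarith
  · -- alive
    refine Or.inr ⟨S₂, hne₂, fun τ J F A h => hs₁ τ J F A (hs₂ τ J F A h), fun K => ?_⟩
    have h1 := (hF (max K K₀)).sub fun τ J F A h => hs₁ τ J F A (hs₂ τ J F A h)
    have h2 := (hF' (max K K₀)).sub fun τ J F A h => hs₁ τ J F A (hs₂ τ J F A h)
    have hps : Bas S₂ (fun J F A => 0 < Pe F.p A) := ⟨1, one_pos, 0, fun J _ F A h =>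
      hpos₁ _ J F A (hs₂ _ J F A h)⟩
    refine Bas.mono 0 ((hal.and hps).and (h1.and h2)) ?_
    rintro J - F A ⟨⟨⟨u₀, u₀', hu₀, hu₀', hz⟩, hA⟩, H1, H2⟩ u u' hu hu' V z hzc
    have hcl := isLaw_cond F.isLaw hA
    have h0 := hcl.nonneg
    obtain ⟨V₁, z₁, hz₁, a1⟩ := H1 u₀ u (Q.mono (le_max_right _ _) le_rfl hu₀)
      (Q.mono (le_max_left _ _) le_rfl hu)
    obtain ⟨V₂, z₂, hz₂, a2⟩ := H2 (fun ω => (u ω, u' ω)) u₀'
      ⟨Q.mono (le_max_left _ _) le_rfl hu, Q'.mono (le_max_left _ _) le_rfl hu'⟩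
      (Q'.mono (le_max_right _ _) le_rfl hu₀')
    have a0 := hz _ _ ((hzc.join hz₁).join hz₂)
    obtain ⟨Y, hY⟩ : ∃ Y : F.Ω → U × (((V × V₁) × V₂) × γ J F), Y = fun ω =>
      (u₀ ω, (((z ω, z₁ ω), z₂ ω), y J F ω)) := ⟨_, rfl⟩
    rw [← hY] at a0
    have s1 := CH_le_add h0 u₀' u Y
    have s2 := CH_le_add h0 u₀' u' (fun ω => (u ω, Y ω))
    have s3 : CH (Pool.Agent.H49.Ent.cond F.p A True) u Y ≤ h * J := by
      refine le_trans (CH_mono_cond h0 fun ω ω' _ _ hh => ?_) a1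
      rw [hY] at hh
      simp only [Prod.mk.injEq] at hh ⊢
      exact ⟨hh.1, hh.2.1.1.2, hh.2.2⟩
    have s4 : CH (Pool.Agent.H49.Ent.cond F.p A True) u' (fun ω => (u ω, Y ω)) ≤
        CH (Pool.Agent.H49.Ent.cond F.p A True) u' (fun ω => (u ω, (z ω, y J F ω))) := by
      refine CH_mono_cond h0 fun ω ω' _ _ hh => ?_
      rw [hY] at hh
      simp only [Prod.mk.injEq] at hh ⊢
      exact ⟨hh.1, hh.2.2.1.1.1, hh.2.2.2⟩
    have s5 : CH (Pool.Agent.H49.Ent.cond F.p A True) u₀' (fun ω => (u' ω, (u ω, Y ω))) ≤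
        h * J := by
      refine le_trans (CH_mono_cond h0 fun ω ω' _ _ hh => ?_) a2
      rw [hY] at hh
      simp only [Prod.mk.injEq] at hh ⊢
      exact ⟨⟨hh.2.1, hh.1⟩, hh.2.2.2.1.2, hh.2.2.2.2⟩
    have hJ0 : (0 : ℝ) ≤ J := Nat.cast_nonneg J
    have s7 := mul_le_mul_of_nonneg_right hh hJ0
    have s8 : 0 ≤ η * J := by positivity
    linarith

/-- A worse precision. -/
theorem att_prec {S : PCl m} {I : Finset (Fin m)} {k : Fin m} {w p p' r : ℝ} (hp : p' ≤ p)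
    (hw1 : w ≤ 1) (h : Att S I k w p r) : Att S I k w p' r := by
  intro e he
  obtain ⟨K, hK⟩ := h e he
  refine ⟨K, Bas.mono 0 hK ?_⟩
  intro J _ F A h1
  refine h1.mono (Finset.Subset.refl I) le_rfl le_rfl le_rfl le_rfl (floor_le hw1 J) le_rfl
    (Nat.floor_le_floor ?_)
  exact mul_le_mul_of_nonneg_right (by linarith) (Nat.cast_nonneg J)

theorem kn_T {c : ℕ → Fin m} : Kn ((range 0).image c) 1 1 (fun (_ : ℕ) (F : Fam m _) => F.T) := by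
  intro J F
  exact ⟨fun x => (x, fun _ => 0, fun _ => 0), fun ω => by simp⟩

/-- **Change of charts for one jet of a chain**, with the loss `kap`. -/
theorem f1_comp {S : PCl m} {C₀ : ℝ} (htm : TmC S C₀) {c : ℕ → Fin m} {r n : ℕ} {t u₁ : ℝ}
    {s rd : ℕ → ℝ} (hch : Chn S c 0 n t t u₁ s rd) (hnr : n ≤ r) {k : Fin m} {j : ℕ} (hj : j ≤ 1)
    {pf : ℕ → ℝ} {Nf : ℕ → ℕ → ℝ} {pr N φ kf σ : ℝ} (hφ : 0 ≤ φ) (hσ : 0 < σ)
    (hpf : ∀ l < r, s l - φ ≤ pf l) (hNf : ∀ l < r, ∀ j ≤ 1, Nf l j = s l + kf - (j : ℕ) * t)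
    (hN : N + j * t ≤ pr + φ + kf) (hk0 : (r + 1) * (φ + 2 * σ) ≤ kf) (hk1 : kf ≤ 1 - t) :
    F1 S (fun J F => ptr F J) (vg t) (fun _ F => F.T)
      ((qJets m c 0 r 1 (fun _ _ => t) (fun l _ => pf l) Nf).prod
        (qJet m ((range n).image c) k j t pr N)) (qJet m ((range n).image c) k j t pr N) (σ / 8)
      ((r + 1) * (φ + 2 * σ) + 2 * σ) := by
  intro K
  have ht0 := hch.w0
  have ht1 := hch.u0
  have hr0 : (0 : ℝ) ≤ r := Nat.cast_nonneg r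
  have hmin : min (1 : ℝ) (1 - t) = 1 - t := min_eq_right (by linarith)
  have hps : 0 ≤ (r : ℝ) * (φ + 2 * σ) := by positivity
  have hlr : ∀ l : ℕ, l < n → ((l : ℝ) + 1) * (φ + 2 * σ) ≤ r * (φ + 2 * σ) := fun l hl => by
    refine mul_le_mul_of_nonneg_right ?_ (by positivity)
    exact_mod_cast (show l + 1 ≤ r by omega)
  have hnr' : ∀ l : ℕ, l < n → l < r := fun l hl => by omega
  have key := few_jetN_e htm hch (k := k) (j := j) (wv := fun _ _ => t) (pv := fun l _ => pf l)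
    (Nv := Nf) (lv := fun l => kf - ((l : ℝ) + 1) * (φ + 2 * σ)) (w₁ := t) (w₂ := t) (p₁ := pr)
    (p₂ := pr) (N₁ := N) (N₂ := N) (p₀ := 1) (lam := 1) (σ₀ := σ)
    (κ := (r + 1) * (φ + 2 * σ)) (f := fun J F => ptr F J) (y := fun _ F => F.T)
    (fun _ _ _ _ _ => le_rfl) le_rfl le_rfl ht1 le_rfl one_pos hσ (by positivity)
    (fun i _ hi => by
      have h1 := hlr i hi
      have h2 : 0 ≤ φ + 2 * σ := by positivity
      have h3 : (r + 1) * (φ + 2 * σ) = r * (φ + 2 * σ) + (φ + 2 * σ) := by ring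
      show 0 < kf - ((i : ℝ) + 1) * (φ + 2 * σ)
      linarith)
    (fun i _ hi j' hj' => by
      have h1 : 0 ≤ ((i : ℝ)) * (φ + 2 * σ) := by positivity
      rw [hNf i (hnr' i hi) j' (hj'.trans hj)]
      have h3 : ((i : ℝ) + 1) * (φ + 2 * σ) = i * (φ + 2 * σ) + (φ + 2 * σ) := by ring
      linarith)
    (fun i _ hi j' _ => by
      have h1 : 0 ≤ ((i : ℝ)) * (φ + 2 * σ) := by positivity
      have h3 : ((i : ℝ) + 1) * (φ + 2 * σ) = i * (φ + 2 * σ) + (φ + 2 * σ) := by ring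
      have h4 : s i - φ ≤ min (pf i) (s i) := le_min (hpf i (hnr' i hi)) (by linarith)
      rw [hmin]
      linarith)
    (fun i _ hi j' _ l _ hl => by
      have h1 : ((l : ℝ) + 1 + 1) * (φ + 2 * σ) ≤ ((i : ℝ) + 1) * (φ + 2 * σ) := by
        refine mul_le_mul_of_nonneg_right ?_ (by positivity)
        have : (l : ℝ) + 1 ≤ i := by exact_mod_cast hl
        linarith
      have h3 : ((l : ℝ) + 1 + 1) * (φ + 2 * σ) = ((l : ℝ) + 1) * (φ + 2 * σ) + (φ + 2 * σ) := by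
        ring
      have h4 : s i - φ ≤ min (pf i) (s i) := le_min (hpf i (hnr' i hi)) (by linarith)
      linarith) le_rfl
    (by
      rw [hmin, min_self]
      have h3 : (r + 1) * (φ + 2 * σ) = r * (φ + 2 * σ) + (φ + 2 * σ) := by ring
      linarith)
    (fun l _ hl => by
      have h1 := hlr l hl
      rw [min_self]
      have h3 : (r + 1) * (φ + 2 * σ) = r * (φ + 2 * σ) + (φ + 2 * σ) := by ring
      linarith)
    (fun J F => ⟨id, fun _ => rfl⟩) kn_T (h := σ) hσ K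
  refine Bas.mono 0 (key.and (Pool.GRW.tmc_bas htm one_pos)) ?_
  rintro J - F A ⟨H, hA, -⟩ u u' ⟨hu1, hu2⟩ hu'
  have hcl := isLaw_cond F.isLaw hA
  obtain ⟨V, z, hz, h1⟩ := H _ _ u' (qJets_take (n := n) (k := j) hnr hj hu1) hu2 hu'
  refine ⟨V, z, hz, le_trans (CH_mono_cond hcl.nonneg fun ω ω' _ _ hh => ?_)
    (h1.trans (le_of_eq (by ring)))⟩
  simp only [Prod.mk.injEq] at hh ⊢
  obtain ⟨h2, h3, h4⟩ := hh
  have h5 := Prod.ext_iff.mp h2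
  refine ⟨⟨?_, h5.2⟩, h3, h4⟩
  funext i j'
  have h6 := congrFun (congrFun h5.1 i) j'
  rw [h6]

/-- **Few bits in a subclass, or alive in a subclass**: the jets of the place `c r` over a chain. -/
theorem f1_or_alive {S : PCl m} {C₀ : ℝ} (htm : TmC S C₀) (hne : S.Ne)
    (hpos : ∀ (τ : ℝ) (J : ℕ) (F : Fam m J) (A : F.Ω → Prop), S.St τ J F A → 0 < Pe F.p A)
    {M : ℝ} (hM : Bas S (fun J F A => (cnt F.p (ptr F J) A : ℝ) ≤ Real.exp (M * J)))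
    {c : ℕ → Fin m} {r : ℕ} {t u₁ : ℝ} {s rd : ℕ → ℝ} (hch : Chn S c 0 (r + 1) t t u₁ s rd)
    (hrd : ∀ l ≤ r, 0 ≤ rd l) {pf : ℕ → ℝ} {Nf : ℕ → ℕ → ℝ} {pr N φ kf σ η : ℝ} (hφ : 0 ≤ φ)
    (hσ : 0 < σ) (hη : 0 < η) (hpf : ∀ l < r, s l - φ ≤ pf l ∧ pf l ≤ s l) (hpr : pr ≤ s r)
    (hNf : ∀ l < r, ∀ j ≤ 1, Nf l j = s l + kf - (j : ℕ) * t) (hN : N + t ≤ pr + φ + kf)
    (hk0 : (r + 1) * (φ + 2 * σ) ≤ kf) (hk1 : kf ≤ 1 - t)
    (hsm : (2 * r + 1) * ((r + 1) * (φ + 2 * σ) + 2 * σ) ≤ η / 16) :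
    (∃ S' : PCl m, S'.Ne ∧
      (∀ (τ : ℝ) (J : ℕ) (F : Fam m J) (A : F.Ω → Prop), S'.St τ J F A → S.St τ J F A) ∧
      F1 S' (fun J F => ptr F J) (vg t) (fun _ F => F.T)
        (qJets m c 0 r 1 (fun _ _ => t) (fun l _ => pf l) Nf)
        (qJet m ((range r).image c) (c r) 1 t pr N) (σ / 8) η) ∨
    ∃ S' : PCl m, S'.Ne ∧
      (∀ (τ : ℝ) (J : ℕ) (F : Fam m J) (A : F.Ω → Prop), S'.St τ J F A → S.St τ J F A) ∧
      AlvQ S' t (fun _ F => F.T) (qJets m c 0 r 1 (fun _ _ => t) (fun l _ => pf l) Nf)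
        (qJet m ((range r).image c) (c r) 1 t pr N) (σ / 8) (η / 8) := by
  have hr0 : (0 : ℝ) ≤ r := Nat.cast_nonneg r
  have ht1 : t ≤ 1 := hch.u0.le
  obtain ⟨L, hL⟩ : ∃ L : ℝ, L = (r + 1) * (φ + 2 * σ) + 2 * σ := ⟨_, rfl⟩
  have hL0 : 0 ≤ L := by rw [hL]; positivity
  rw [← hL] at hsm
  have e0 : (2 * (r : ℝ) + 1) * L = 2 * (r * L) + L := by ring
  have e1 : 0 ≤ (r : ℝ) * L := by positivity
  refine f1_or_alive_abs hne hpos hM (h := (2 * r + 1) * L) (by positivity) hη hsm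
    (exs_qjets fun l _ hl j' _ => exs_jet (hrd l hl.le)
      (att_prec (hpf l hl).2 ht1 (hch.att l (Nat.zero_le _) (by omega))))
    (exs_jet (hrd r le_rfl) (att_prec hpr ht1 (hch.att r (Nat.zero_le _) (Nat.lt_succ_self r))))
    ?_ ?_
  · -- the codes of the chain
    have h1 : F1 S (fun J F => ptr F J) (vg t) (fun _ F => F.T)
        (qJets m c 0 r 1 (fun _ _ => t) (fun l _ => pf l) Nf)
        (qJets m c 0 r 1 (fun _ _ => t) (fun l _ => pf l) Nf) (σ / 8)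
          ((r * (1 + 1) : ℕ) * L) := by
      refine Pool.OWN68.F1.qjets htm hL0 fun i _ hi j hj => ?_
      have h2 := f1_comp htm (hch.take (Nat.zero_le i) (by omega)) hi.le (k := c i) hj
        (pr := pf i) (N := Nf i j) hφ hσ (fun l hl => (hpf l hl).1) hNf (by
          rw [hNf i hi j hj]
          have := (hpf i hi).1
          linarith) hk0 hk1
      rw [← hL] at h2
      intro K
      refine Bas.mono 0 ((h2 K).and (Pool.GRW.tmc_bas htm one_pos)) ?_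
      rintro J - F A ⟨h3, hA, -⟩ u u' hu hu'
      obtain ⟨V, z, hz, h4⟩ := h3 (fun ω => (u ω, u ω i j)) u' ⟨hu, hu.1 i (Nat.zero_le _) hi j hj⟩
        hu'
      refine ⟨V, z, hz, le_trans (CH_mono_cond (isLaw_cond F.isLaw hA).nonneg
        fun ω ω' _ _ hh => ?_) h4⟩
      simp only [Prod.mk.injEq] at hh ⊢
      exact ⟨⟨hh.1, by rw [hh.1]⟩, hh.2⟩
    refine h1.mono le_rfl ?_
    push_cast
    linarith
  · have h2 := f1_comp htm (hch.take (Nat.zero_le r) (by omega)) le_rfl (k := c r) le_rfl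
      (pr := pr) (N := N) hφ hσ (fun l hl => (hpf l hl).1) hNf (by
        push_cast
        linarith) hk0 hk1
    rw [← hL] at h2
    exact h2.mono le_rfl (by linarith)

end Pool.FLN19
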