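import Pool.Agent.H19.FLN.Rec
import Pool.Agent.H19.FLN.F1s

/-!
# The first jet of a steep coordinate when a family of labels has small rate

`VmB`: no record with natural labels of small rate whose mixed derivatives are small. `f1us_B`: then
the first jet of the place `r` is few bits (`F1US`), under `LowE`.
-/

set_option autoImplicit false

namespace Pool.FLN19

open Finset Real MvPolynomial
open Pool.Agent.H49.Ent Pool.Agent.H32.Dense Pool.STK Pool.KA Pool.KSAT Pool.K2S Pool.PB Pool.GEN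
open Pool.S6C Pool.RCD Pool.LA91 Pool.OWN68 Pool.PKG
open Pool.GRD (LbP)
open Pool.BFL (Pb)
open Pool.AJX (LbX FwX)
open Pool.AJW (JfU jfV jfV_mem nX aX aX_ge)
open Pool.NPZ (Fm4 NpC NpH ChJ)
open Pool.V0F (LbU ChUQ AttUQ recG_lbf)
open Pool.ALT

/-- **Void, from the mixed derivative**: there is no record at small scale with natural labels of a
family of small rate `(1 - hb) b log 2` (`AlO`, windows `t - y₁ q` and `t`), if the derivative with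
respect to `c r` of the difference of each closed label of degree `Kd` and the natural label is small.
The margins `μ` hold at all windows of the chain. -/
def VmB (r : ℕ) (h hb : ℝ) (Sl : ℕ → ℝ) (κ : ℕ → Kg) {ι : Type} (Q : PropG (r + 2) ι) : Prop :=
  ∀ al : ℝ, 0 < al → ∀ K₀ : ℝ, 0 < K₀ → ∀ S₀ : ℕ, 1 ≤ S₀ →
  ∃ (Kr : ℝ) (Nr : ℕ) (Ar Vr : ℕ → ℝ), 1 ≤ Kr ∧ (∀ k < Nr, -Kr ≤ Vr k ∧ Vr k ≤ Ar k ∧ Ar k ≤ Kr) ∧
  ∀ S₂ : ℕ, S₀ ≤ S₂ → ∃ D₁ : ℕ, ∀ Db : ℕ, D₁ ≤ Db → ∃ Kd : ℕ,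
  ∃ y₁ R lam rr gg sg X g₂ dt₀ ℓ₀ : ℝ, 0 < y₁ ∧ 1 + y₁ ≤ R ∧ 0 < lam ∧ lam ≤ rr ∧ 0 < gg ∧
  0 < sg ∧ 0 < X ∧ X ≤ 1 ∧ 0 < g₂ ∧ 2 * X ≤ Sl (r + 1) * g₂ ∧ 0 < dt₀ ∧ 0 < ℓ₀ ∧
  lam + gg ≤ Sl (r + 1) * y₁ ∧ rr + gg ≤ Sl (r + 1) * (R + y₁) ∧
  ∀ dt ℓ : ℝ, 0 < dt → dt ≤ dt₀ → 0 < ℓ → ℓ ≤ ℓ₀ → ∃ h₁ : ℝ, 0 < h₁ ∧ ∀ hh : ℝ, 0 < hh → hh ≤ h₁ →
  ∃ (K₁ : ℝ) (Nv : ℕ) (Vv : ℕ → ℝ), (∀ j < Nv, -K₁ ≤ Vv j ∧ Vv j ≤ K₁) ∧ ∀ K' : ℝ, K₁ ≤ K' →
  ∃ ε₀ : ℝ, 0 < ε₀ ∧ ∀ ε : ℝ, 0 < ε → ε ≤ ε₀ →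
  ∀ (S : PCl (r + 2)) (g₀ : ℝ → ℝ) (P : List (Fin (r + 2)) × Fin (r + 2) → ℝ → ℝ → ℝ)
    (θ : ℝ) (P₂ : ℕ → List (Fin (r + 2)) × Fin (r + 2) → ℝ → ℝ → ℝ) (θ₂ Eb e₂ : ℕ → ℝ)
    (c : ℕ → Fin (r + 2)) (Pt : ℝ → ℝ → ℝ) (rt : ℝ → ℝ) (L T : ℕ → ℝ → ℝ → ℝ) (G : Set ℝ)
    (g : ℝ), IsClosed G → g ∈ G → (∀ l < r + 2, HasDerivAt (fun x => L l x x) (Sl l) g) →
    ∃ (p : ℕ → ι) (M : ℕ) (B₀ B₁ : ℕ → ℝ),
    (∀ j < M, B₀ j < B₁ j) ∧ ∀ k₀ : ℕ → ℕ, (∀ j < M, Q (p j) (k₀ j) S P θ c Pt rt L T κ G g) →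
    ∀ μ : ℝ, 0 < μ → ∃ q₁ : ℝ, 0 < q₁ ∧ ∀ (q t : ℝ) (x : ℕ → ℝ),
      q < q₁ → (∀ j < M, x j ∈ G ∧ t + B₀ j * q ≤ x j ∧ x j ≤ t + B₁ j * q ∧
        Q (p j) (k₀ j) S P θ c Pt rt L T κ G (x j)) →
      ∀ (N : ℕ) (A V : ℕ → ℝ) (Na : ℕ) (Va : ℕ → ℝ) (S₁ : PCl (r + 2)), SubC S₁ S →
      RecG S₁ al g₀ P θ P₂ θ₂ Eb e₂ c Pt rt h K₀ g L T Sl κ G S₀ N A V S₂ Na Va K' ε q t →
      (∀ k < Na, |Va k| ≤ K') →
      (∀ k < Nr, ∃ j < N, A j = Ar k ∧ V j = Vr k) → (∀ k < Nv, ∃ j < Na, Va j = Vv k) →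
      ∀ (i j : ℕ) (e₀ π₀ : ℝ) (Ψ : Fml (r + 2)) (w p₁ p₂ eN uN pN pa₁ pa₂ ea ua pa : ℝ),
      i < Na → j < Na → Va i = -y₁ → Va j = 0 →
      (∀ k < Na, μ ≤ L (r + 1) (t + Va k * q) (t + Va k * q) ∧
        μ ≤ L r (t + Va k * q) (t + Va k * q) ∧ L r (t + Va k * q) (t + Va k * q) + μ ≤ 1 ∧
        e₀ + L (r + 1) (t + Va k * q) (t + Va k * q) + μ ≤ 1 ∧
        π₀ + μ ≤ L (r + 1) (t + Va k * q) (t + Va k * q) ∧
        L (r + 1) (t + Va k * q) (t + Va k * q) + L r (t + Va k * q) (t + Va k * q) + μ ≤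
          1 + π₀) →
      AlO S₁ c L Db Na Va i j R hb dt lam rr ℓ g₂ X hh μ e₀ π₀ q t Ψ w p₁ p₂ eN uN pN pa₁ pa₂ ea
        ua pa →
      (∀ Ps x : ℝ, L (r + 1) (t + -y₁ * q) (t + -y₁ * q) ≤ Ps →
        x + (L r t t + (Sl r - 1 - y₁) * q) + 4 * sg * q ≤
          L (r + 1) (t + -y₁ * q) (t + -y₁ * q) + lam * q →
        x + (L r t t + (Sl r - 1 - y₁) * q) + 4 * sg * q ≤ Ps →
        MxN S₁ c r (c (r + 1)) Kd (t + -y₁ * q) Ps x
          (NzF Ψ c r (c (r + 1)) Db Db Db w (t + -y₁ * q) p₁ p₂ eN uN pN)) → False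

set_option maxHeartbeats 1000000 in
/-- **The first jet of a steep coordinate, when a family of labels has small rate.** -/
theorem f1us_B {r : ℕ} (hr : 1 ≤ r) {h hb β' : ℝ} {Sl : ℕ → ℝ} {κ : ℕ → Kg} {ι : Type}
    {Q : PropG (r + 2) ι} {Dv : ℕ} (hκ : ∀ l < r, κ l = .one) (hb0 : 0 < hb) (hb1 : hb ≤ 1)
    (hβ : β' ≤ (1 - hb) * Sl (r + 1) * Real.log 2) (hs : 0 < Sl (r + 1)) (ha : 1 ≤ Sl r)
    (hV : VmB r h hb Sl κ Q) :
    F1US (r + 2) r h Sl κ (sumQ Q (sumQ (ChUQ : PropG (r + 2) Unit)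
      (AttUQ : PropG (r + 2) Unit)))
      (fun e : PosR => LowE (AdmL (r + 2)) β' Dv e) := by
  classical
  intro al hal K₀ hK₀ S₀ hS₀
  obtain ⟨Kr, Nr, Ar, Vr, hKr, hAV, hV⟩ := hV al hal K₀ hK₀ S₀ hS₀
  obtain ⟨D₀, hD₀, halo⟩ := alo_rec r S₀ hS₀
  obtain ⟨Kl, hKl, hlbf⟩ := recG_lbf (r + 2) S₀ (by omega) hS₀
  refine ⟨Kr, Nr, Ar, Vr, hKr, hAV, fun S₂ hS₂ dd hdd => ?_⟩
  obtain ⟨D₁, hV⟩ := hV S₂ hS₂
  obtain ⟨Db, hDb⟩ : ∃ Db : ℕ, Db = max D₀ (max D₁ Dv) := ⟨_, rfl⟩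
  have hDb2 : D₀ ≤ Db := by rw [hDb]; exact le_max_left _ _
  have hDb3 : D₁ ≤ Db := by rw [hDb]; exact (le_max_left _ _).trans (le_max_right _ _)
  have hDb4 : Dv ≤ Db := by rw [hDb]; exact (le_max_right _ _).trans (le_max_right _ _)
  obtain ⟨Kd, y₁, R, lam, rr, gg, sg, X, g₂, dt₀, ℓ₀, hy₁, hyR, hlam, hrr, hgg, hsg, hX, hX1, hg₂,
    hXg, hdt₀, hℓ₀, hly, hrR, hV⟩ := hV Db hDb3
  obtain ⟨b, hbd⟩ : ∃ b : ℝ, b = Sl (r + 1) := ⟨_, rfl⟩
  rw [← hbd] at hβ hs hly hrR hXg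
  obtain ⟨a, had⟩ : ∃ a : ℝ, Sl r = a := ⟨_, rfl⟩
  rw [had] at ha
  have hr0 : (0 : ℝ) ≤ r := Nat.cast_nonneg r
  have hR0 : 0 < R := by linarith only [hyR, hy₁]
  obtain ⟨δN, C₂, hδN, hC₂, Hmx⟩ := mxn_B Db Kd Kl r hr hb0 hb1 hlam hdd
  have hC20 : 0 < C₂ := by linarith only [hC₂]
  -- the constants
  obtain ⟨φ, hφ⟩ : ∃ φ : ℝ, φ = min (min 1 (δN * lam / (8 * (r + 1))))
    (min (4 * sg / C₂) (dd / (16 * ((2 * r + 1) * (3 * r + 5))))) := ⟨_, rfl⟩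
  have hφ0 : 0 < φ := by
    rw [hφ]
    positivity
  have hφ1 : φ ≤ 1 := by
    rw [hφ]
    exact (min_le_left _ _).trans (min_le_left _ _)
  have hφN : (r + 1) * φ ≤ δN * lam / 8 := by
    have h1 : φ ≤ δN * lam / (8 * (r + 1)) := by
      rw [hφ]
      exact (min_le_left _ _).trans (min_le_right _ _)
    rw [le_div_iff₀ (by positivity)] at h1
    linarith only [h1]
  have hφC : φ / 8 < sg / C₂ := by
    have h1 : φ ≤ 4 * sg / C₂ := by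
      rw [hφ]
      exact (min_le_right _ _).trans (min_le_left _ _)
    have h2 : 4 * sg / C₂ = 4 * (sg / C₂) := by ring
    have h3 : 0 < sg / C₂ := by positivity
    linarith only [h1, h2, h3]
  have hφd : (2 * r + 1) * ((3 * r + 5) * φ) ≤ dd / 16 := by
    have h1 : φ ≤ dd / (16 * ((2 * r + 1) * (3 * r + 5))) := by
      rw [hφ]
      exact (min_le_right _ _).trans (min_le_right _ _)
    rw [le_div_iff₀ (by positivity)] at h1
    linarith only [h1]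
  have hrφ : 0 ≤ (r : ℝ) * φ := mul_nonneg hr0 hφ0.le
  obtain ⟨dt, hdt⟩ : ∃ dt : ℝ, dt = min dt₀ (min (δN / 2) (φ / lam)) := ⟨_, rfl⟩
  have hdt0 : 0 < dt := by
    rw [hdt]
    exact lt_min hdt₀ (lt_min (by linarith only [hδN]) (by positivity))
  have hdta : dt ≤ dt₀ := by
    rw [hdt]
    exact min_le_left _ _
  have hdtN : dt ≤ δN / 2 := by
    rw [hdt]
    exact (min_le_right _ _).trans (min_le_left _ _)
  have hdtφ : dt * lam ≤ φ := by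
    have h1 : dt ≤ φ / lam := by
      rw [hdt]
      exact (min_le_right _ _).trans (min_le_right _ _)
    rwa [le_div_iff₀ hlam] at h1
  obtain ⟨ℓ, h₁, ε₁, e₁, hℓ, hℓ₁, hh₁, hε₁, he₁, halo⟩ := halo Db hDb2 (b := b) (h := hb)
    (δ := dt) (lam := lam) (rr := rr) (gg := gg) (R := R) (K₁ := K₀) (ℓ₀ := ℓ₀) (X := X)
    (g₂ := g₂) hs hb0 hb1 hdt0 hlam hrr hgg hR0.le hK₀.le hℓ₀ hX hg₂ hXg
  obtain ⟨h₂, hh₂, hV⟩ := hV dt ℓ hdt0 hdta hℓ hℓ₁
  obtain ⟨hh, hhd⟩ : ∃ hh : ℝ, hh = min h₁ h₂ := ⟨_, rfl⟩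
  have hhh : 0 < hh := by
    rw [hhd]
    exact lt_min hh₁ hh₂
  have hhh1 : hh ≤ h₁ := by
    rw [hhd]
    exact min_le_left _ _
  obtain ⟨K₁, Nv, Vv, hVv, hV⟩ := hV hh hhh (by
    rw [hhd]
    exact min_le_right _ _)
  obtain ⟨Xc, hXc⟩ : ∃ Xc : ℝ, Xc = 12 * y₁ + 32 * (r + 1) * φ + lam := ⟨_, rfl⟩
  have hXc0 : 0 < Xc := by
    rw [hXc]
    linarith only [hy₁, hrφ, hφ0, hlam]
  have h3X : 0 ≤ 3 ^ r * Xc := by positivity
  have hay : 0 < a * y₁ := mul_pos (by linarith only [ha]) hy₁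
  obtain ⟨kf, hkf⟩ : ∃ kf : ℝ, kf = max (3 ^ r * Xc) (a * y₁ + a + 3 * (r + 1) * φ) := ⟨_, rfl⟩
  have hkX : 3 ^ r * Xc ≤ kf := by
    rw [hkf]
    exact le_max_left _ _
  have hks : a * y₁ + a + 3 * (r + 1) * φ ≤ kf := by
    rw [hkf]
    exact le_max_right _ _
  have hkf0 : 0 < kf := by linarith only [hks, ha, hay, hrφ, hφ0]
  -- the windows
  obtain ⟨Va, hVa⟩ : ∃ Va : ℕ → ℝ, Va = fun k => if k < Nv then Vv k else if k = Nv then -y₁ else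
    if k = Nv + 1 then 0 else jfV r (-y₁) Xc (k - (Nv + 2)) := ⟨_, rfl⟩
  have v0 : ∀ k < Nv, Va k = Vv k := fun k hk => by rw [hVa]; simp only [hk, if_true]
  have v1 : Va Nv = -y₁ := by rw [hVa]; simp
  have v2 : Va (Nv + 1) = 0 := by rw [hVa]; simp
  have v3 : ∀ k, Va (Nv + 2 + k) = jfV r (-y₁) Xc k := fun k => by
    rw [hVa]
    simp only [show ¬ Nv + 2 + k < Nv by omega, show ¬ Nv + 2 + k = Nv by omega,
      show ¬ Nv + 2 + k = Nv + 1 by omega, if_false, Nat.add_sub_cancel_left]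
  obtain ⟨K₃, hK₃⟩ : ∃ K₃ : ℝ,
    K₃ = kf + y₁ + 3 ^ r * Xc + lam + a * y₁ + a + sg + 3 := ⟨_, rfl⟩
  have hK30 : 0 < K₃ := by
    rw [hK₃]
    linarith only [hkf0, hy₁, h3X, hlam, hay, ha, hsg]
  obtain ⟨K₂, hK₂⟩ : ∃ K₂ : ℝ, K₂ = max (max K₁ (R + 1)) (max (K₀ + 1) K₃) := ⟨_, rfl⟩
  have hKa : K₁ ≤ K₂ := by rw [hK₂]; exact (le_max_left _ _).trans (le_max_left _ _)
  have hKb : R + 1 ≤ K₂ := by rw [hK₂]; exact (le_max_right _ _).trans (le_max_left _ _)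
  have hKd : K₀ + 1 ≤ K₂ := by rw [hK₂]; exact (le_max_left _ _).trans (le_max_right _ _)
  have hKc : K₃ ≤ K₂ := by rw [hK₂]; exact (le_max_right _ _).trans (le_max_right _ _)
  obtain ⟨Nn, hNn⟩ : ∃ Nn : ℕ, Nn = Nv + 2 + (r + 1) := ⟨_, rfl⟩
  have hVaK : ∀ k < Nn, -K₂ ≤ Va k ∧ Va k ≤ K₂ := by
    intro k hk
    rcases Nat.lt_or_ge k Nv with h1 | h1
    · rw [v0 k h1]
      obtain ⟨h2, h3⟩ := hVv k h1
      exact ⟨by linarith only [h2, hKa], by linarith only [h3, hKa]⟩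
    · rcases Nat.lt_or_ge k (Nv + 2) with h2 | h2
      · obtain ⟨j, rfl⟩ : ∃ j, k = Nv + j := ⟨k - Nv, by omega⟩
        have hj : j < 2 := by omega
        interval_cases j
        · rw [Nat.add_zero, v1]
          exact ⟨by linarith only [hKb, hyR], by linarith only [hKb, hyR, hy₁]⟩
        · rw [v2]
          exact ⟨by linarith only [hKb, hyR, hy₁], by linarith only [hKb, hyR, hy₁]⟩
      · obtain ⟨j, rfl⟩ : ∃ j, k = Nv + 2 + j := ⟨k - (Nv + 2), by omega⟩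
        rw [v3]
        obtain ⟨h3, h4⟩ := jfV_mem (r := r) (vv := -y₁) (X := Xc) (by linarith only [hy₁]) hXc0.le
          (show j ≤ r by omega)
        rw [hK₃] at hKc
        exact ⟨by linarith only [h3, hKc, hkf0, hlam, hay, ha, hsg],
          by linarith only [h4, hKb, hyR, hy₁]⟩
  refine ⟨⟨e₁, he₁⟩, kf, φ, by
    rw [had]
    linarith only [hks, hay, hrφ, hφ0], hφ0, K₂, Nn, Va, hVaK, fun K' hK' => ?_⟩
  obtain ⟨ε₀, hε₀, hV⟩ := hV K' (hKa.trans hK')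
  refine ⟨min (min ε₀ ε₁) (min (φ / 2) sg), by positivity, fun ε hε hεε => ?_⟩
  have hεa := hεε.trans ((min_le_left _ _).trans (min_le_left _ _))
  have hεb := hεε.trans ((min_le_left _ _).trans (min_le_right _ _))
  have hεc := hεε.trans ((min_le_right _ _).trans (min_le_left _ _))
  have hεd := hεε.trans ((min_le_right _ _).trans (min_le_right _ _))
  intro S g₀ P θ P₂ θ₂ Eb e₂ c Pt rt L T G g hG hg hder hZ
  obtain ⟨i₀, ⟨a1, a2, a3, a4, a5, a6, a7⟩, hiD, φ₁, k₂, hφ10, hφ11, hrt⟩ := hZ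
  have hK'0 : K₀ ≤ K' := by linarith only [hKd, hK']
  have hK'p : 0 < K' := by linarith only [hK'0, hK₀]
  by_cases hpos : 0 < L (r + 1) g g
  swap
  · obtain ⟨q₁, hq₁, H⟩ := rec_pos (by omega : r + 1 < r + 2) (hder (r + 1) (by omega)) hK₀ hK'0
      hpos
    exact ⟨fun _ => Sum.inr (Sum.inl ()), 0, fun _ => 0, fun _ => 1, fun j hj => by omega,
      fun k₀ _ => ⟨q₁, hq₁, fun q t x hq _ N A V N' V' R => (H hq R).elim⟩⟩
  by_cases hposu : 0 < L r g g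
  swap
  · obtain ⟨q₁, hq₁, H⟩ := rec_pos (by omega : r < r + 2) (hder r (by omega)) hK₀ hK'0 hposu
    exact ⟨fun _ => Sum.inr (Sum.inl ()), 0, fun _ => 0, fun _ => 1, fun j hj => by omega,
      fun k₀ _ => ⟨q₁, hq₁, fun q t x hq _ N A V N' V' R => (H hq R).elim⟩⟩
  have e1 : r + 2 - 1 = r + 1 := rfl
  have e2 : r + 2 - 2 = r := rfl
  rw [e1] at a1 a5 a6 a7
  rw [e2] at a2 a7
  obtain ⟨μ₁, d, hμ₁, hd, hmar⟩ := mar_lin (hder r (by omega)) (hder (r + 1) (by omega)) hpos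
    hposu a5 a6 a7
  obtain ⟨p, M, B₀, B₁, hB, hV⟩ := hV ε hε hεa S g₀ P θ P₂ θ₂ Eb e₂ c Pt rt L T G g hG hg hder
  refine ⟨fun j => if j < M then Sum.inl (p j) else if j = M then Sum.inr (Sum.inl ()) else
    Sum.inr (Sum.inr ()), M + 2, fun j => if j < M then B₀ j else 0,
    fun j => if j < M then B₁ j else 1, fun j hj => ?_, fun k₀ hk₀ => ?_⟩
  · by_cases h4 : j < M
    · simp only [h4, if_true]
      exact hB j h4
    · simp only [h4, if_false]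
      exact one_pos
  have hch : ChUQ (n := r + 2) () (k₀ M) S P θ c Pt rt L T κ G g := by
    have h4 := hk₀ M (by omega)
    simp only [lt_irrefl, if_false, if_true] at h4
    exact h4
  have hat : AttUQ (n := r + 2) () (k₀ (M + 1)) S P θ c Pt rt L T κ G g := by
    have h4 := hk₀ (M + 1) (by omega)
    simp only [show ¬ M + 1 < M by omega, show ¬ M + 1 = M by omega, if_false] at h4
    exact h4
  obtain ⟨μ, hμ⟩ : ∃ μ : ℝ, μ = min μ₁ ((1 / 2) ^ k₀ (M + 1)) := ⟨_, rfl⟩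
  have hμ0 : 0 < μ := by rw [hμ]; positivity
  have hμa : μ ≤ μ₁ := by rw [hμ]; exact min_le_left _ _
  have hμb : μ ≤ (1 / 2) ^ k₀ (M + 1) := by rw [hμ]; exact min_le_right _ _
  obtain ⟨q₁, hq₁, hV⟩ := hV k₀ (fun j hj => by
    have h4 := hk₀ j (by omega)
    simp only [hj, if_true] at h4
    exact h4) μ hμ0
  have hKK : 0 < K' + K₀ := by linarith only [hK'p, hK₀]
  have hKK3 : 0 < 3 * K' + K₀ := by linarith only [hK'p, hK₀]
  have hb8 : 0 < 8 * b + 8 * rr := by linarith only [hs, hrr, hlam]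
  have hKR : 0 < K₀ + R + 1 := by linarith only [hK₀, hR0]
  refine ⟨min q₁ (min (min (d / (K' + K₀)) ((1 / 2) ^ k₂ / (K₀ + R + 1))) (min
    (μ / (8 * b + 8 * rr)) (min ((1 / 2) ^ k₀ (M + 1) / (3 * K' + K₀)) μ))), by positivity,
    fun q t x hq hx N A V N' V' Rc hpr hwn pf pr Nf hpf hpr1 hpr2 hNf => ?_⟩
  have q1 := hq.trans_le (min_le_left _ _)
  have q2 := hq.trans_le ((min_le_right _ _).trans ((min_le_left _ _).trans (min_le_left _ _)))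
  have q3 := hq.trans_le ((min_le_right _ _).trans ((min_le_left _ _).trans (min_le_right _ _)))
  have q4 := hq.trans_le ((min_le_right _ _).trans ((min_le_right _ _).trans (min_le_left _ _)))
  have q5 := hq.trans_le ((min_le_right _ _).trans ((min_le_right _ _).trans
    ((min_le_right _ _).trans (min_le_left _ _))))
  have q6 := hq.trans_le ((min_le_right _ _).trans ((min_le_right _ _).trans
    ((min_le_right _ _).trans (min_le_right _ _))))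
  rw [lt_div_iff₀ hKK] at q2
  rw [lt_div_iff₀ hKK3] at q5
  rw [lt_div_iff₀ hKR] at q3
  rw [lt_div_iff₀ hb8] at q4
  have hq0 := Rc.q0
  have h9 : 0 < K' * q := mul_pos hK'p hq0
  have h10 : 0 < K₀ * q := mul_pos hK₀ hq0
  -- the record with the windows `Va`
  have Ra := Rc.mono (K₁ := K') (ε₁ := ε) (N₁ := N) (A₁ := A) (V₁ := V) (N₁' := Nn)
    (V₁' := Va) le_rfl le_rfl (fun k hk => ⟨k, hk, rfl, rfl⟩) (fun k hk => by
      obtain ⟨j, hj, e⟩ := hwn k hk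
      exact ⟨j, hj, e.symm⟩)
  have hnear := Rc.near
  have hVaA : ∀ k < Nn, |Va k| ≤ K' := fun k hk => by
    obtain ⟨h2, h3⟩ := hVaK k hk
    exact abs_le.2 ⟨by linarith only [h2, hK'], by linarith only [h3, hK']⟩
  have hwd : ∀ k < Nn, |t + Va k * q - g| ≤ (K' + K₀) * q := by
    intro k hk
    have h1 : |Va k * q| ≤ K' * q := by
      rw [abs_mul, abs_of_pos hq0]
      exact mul_le_mul_of_nonneg_right (hVaA k hk) hq0.le
    calc |t + Va k * q - g| = |(t - g) + Va k * q| := by congr 1; ring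
      _ ≤ |t - g| + |Va k * q| := abs_add_le _ _
      _ ≤ K₀ * q + K' * q := add_le_add hnear h1
      _ = (K' + K₀) * q := by ring
  have hmw : ∀ k < Nn, μ ≤ L (r + 1) (t + Va k * q) (t + Va k * q) ∧
      μ ≤ L r (t + Va k * q) (t + Va k * q) ∧ L r (t + Va k * q) (t + Va k * q) + μ ≤ 1 ∧
      i₀.2.1 + L (r + 1) (t + Va k * q) (t + Va k * q) + μ ≤ 1 ∧
      i₀.2.2.2 + μ ≤ L (r + 1) (t + Va k * q) (t + Va k * q) ∧
      L (r + 1) (t + Va k * q) (t + Va k * q) + L r (t + Va k * q) (t + Va k * q) + μ ≤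
        1 + i₀.2.2.2 := by
    intro k hk
    obtain ⟨b1, b2, b3, b4, b5, b6⟩ := hmar (t + Va k * q) ((hwd k hk).trans (by
      linarith only [q2]))
    exact ⟨by linarith only [hμa, b1], by linarith only [hμa, b2], by linarith only [hμa, b3],
      by linarith only [hμa, b4], by linarith only [hμa, b5], by linarith only [hμa, b6]⟩
  have hn0 : Nv < Nn := by omega
  have hn1 : Nv + 1 < Nn := by omega
  have htG : t ∈ G := by
    have h1 := Ra.memG.2 (Nv + 1) hn1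
    rwa [v2, zero_mul, add_zero] at h1
  -- few bits, or alive
  have hM : Bas S (fun J F A => (cnt F.p (ptr F J) A : ℝ) ≤
      Real.exp ((4 * ((r + 2 : ℕ) : ℝ) + 1) * J)) := by
    obtain ⟨s, d', e, K, N', hC⟩ := Rc.clx
    exact Bas.mono 0 hC.cnt fun J _ F A h1 => h1 J le_rfl
  obtain ⟨rdt, hrdt, hct⟩ := hch t htG
  have hct' : Chn S c 0 (r + 1) t t (L r t t) (fun l => L l t t) rdt := hct
  have hksq : a * y₁ * q + a * q + 3 * (r + 1) * (φ * q) ≤ kf * q := by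
    have h1 := mul_le_mul_of_nonneg_right hks hq0.le
    linarith only [h1]
  have hK3q : kf * q + y₁ * q + 3 ^ r * Xc * q + lam * q + a * y₁ * q + a * q + sg * q + 3 * q ≤
      K' * q := by
    have h1 := mul_le_mul_of_nonneg_right (hKc.trans hK') hq0.le
    rw [hK₃] at h1
    linarith only [h1]
  have hφq0 : 0 < φ * q := mul_pos hφ0 hq0
  have hayq : 0 < a * y₁ * q := mul_pos hay hq0
  have haq : q ≤ a * q := by
    have h1 := mul_le_mul_of_nonneg_right ha hq0.le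
    linarith only [h1]
  have hrφq : 0 ≤ (r : ℝ) * (φ * q) := mul_nonneg hr0 hφq0.le
  have hyq : 0 < y₁ * q := mul_pos hy₁ hq0
  have h3q : 0 ≤ 3 ^ r * Xc * q := mul_nonneg h3X hq0.le
  have hlq : 0 < lam * q := mul_pos hlam hq0
  have hsq : 0 < sg * q := mul_pos hsg hq0
  have ht1 := Rc.t1
  rcases f1_or_alive Rc.tmc Rc.ne Rc.pos hM hct' (fun l hl => hrdt l (by
      show l < r + 2 - 1
      omega)) (pf := pf) (Nf := Nf) (pr := pr) (N := L r t t + (Sl r - 1) * q - t)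
      (φ := φ * q) (kf := kf * q) (σ := φ * q) (η := dd * q) hφq0.le hφq0 (mul_pos hdd hq0) hpf
      hpr2 hNf (by
        rw [had]
        linarith only [hpr1, hksq, hayq, haq, hrφq, hφq0, hq0]) (by
        linarith only [hksq, hayq, haq, hrφq, hφq0, hq0]) (by
        linarith only [ht1, hK3q, hyq, h3q, hlq, hayq, haq, hsq, hq0]) (by
        have h1 := mul_le_mul_of_nonneg_right hφd hq0.le
        linarith only [h1]) with ⟨S', hne, hs', hF⟩ | ⟨S', hne, hs', hal⟩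
  · exact ⟨S', hne, hs', φ * q / 8, by linarith only [hφq0], hF⟩
  exfalso
  have R' := Ra.sub hne hs'
  -- the labels of the chain
  obtain ⟨S₁, hs₁, R₁, hlab⟩ := hlbf R' hK'p hVaA (le_refl (3 * K' * q)) (fun k hk => by
      obtain ⟨rd, -, h2⟩ := hch _ (R'.memG.2 k hk)
      exact ⟨rd, h2.sub hs'⟩) (fun k hk => by
      obtain ⟨rk, E, h1, h2, h3, h4, h5⟩ := hat _ (R'.memG.2 k hk) ((hwd k hk).trans (by
        linarith only [q5, h9]))
      refine ⟨rk, E, h3, ?_, fun e he => ?_⟩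
      · show E + L (r + 2 - 1) _ _ + 3 * K' * q ≤ 1
        linarith only [h4, h10, q5]
      · obtain ⟨K, hK⟩ := h5 e he
        exact ⟨K, hK.sub hs'⟩)
  -- the natural labels
  have hXq : X * q ≤ μ := by
    have h1 : X * q ≤ 1 * q := mul_le_mul_of_nonneg_right hX1 hq0.le
    linarith only [h1, q6]
  have hs1 : SubC S₁ S := fun τ J F A h => hs' τ J F A (hs₁ τ J F A h)
  have hat' : ∀ k ≥ k₂, AltAt S₁ ((range (r + 1)).image c) ((range r).image c) (c (r + 1))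
      i₀.1.2.2 i₀.2.1 i₀.2.2.1 i₀.2.2.2 (fun w => L (r + 1) w w) g φ₁ e₁ k := by
    intro k hk
    have h4 := hrt k hk
    rw [a1, a2] at h4
    exact h4.sub hs1
  obtain ⟨S₂', hs₂, R₂, Ψ, w, p₁, p₂, eN, uN, pN, pa₁, pa₂, ea, ua, pa, H⟩ := halo hh hhh hhh1 R₁
    hbd.symm (hKb.trans hK') hεb hVaA (fun k hk => by
      obtain ⟨rd, -, h2⟩ := hch _ (R₁.memG.2 k hk)
      exact ⟨rd, h2.sub hs1⟩) (μ := μ) (fun k hk => by
      obtain ⟨rk, E, c1, c2, c3, c4, c5⟩ := hat _ (R₁.memG.2 k hk) ((hwd k hk).trans (by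
        linarith only [q5, h9]))
      exact ⟨E, rk, c3, by
        have c4' : E + L (r + 1) (t + Va k * q) (t + Va k * q) ≤ 1 - (1 / 2) ^ k₀ (M + 1) := c4
        linarith only [c4', hμb], (hmw k hk).2.2.1, c5.sub hs1⟩) (x := g) (e₀ := i₀.2.1)
    (ρ₀ := i₀.2.2.1) (π₀ := i₀.2.2.2) (φ := φ₁) (e := e₁) (Kf := i₀.1.2.2) (k₁ := k₂) hnear
    (hiD.trans hDb4) he₁ le_rfl (hφ11.trans hβ) hat' (by linarith only [q3])
    (by exact_mod_cast a4) (by exact_mod_cast a3) hμ0 (by linarith only [q4]) (i := Nv)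
    (j := Nv + 1) hn0 hn1 (by
      rw [v1, abs_neg, abs_of_pos hy₁]
      linarith only [hyR]) (by
      rw [v2, abs_zero]
      linarith only [hR0]) (by
      rw [v1, v2]
      linarith only [hly]) (by
      rw [v1]
      linarith only [hrR]) (hmw Nv hn0).1 (by
      have h1 := (hmw (Nv + 1) hn1).2.2.2.1
      linarith only [h1])
    (by
      have h1 := (hmw Nv hn0).2.2.2.2.1
      linarith only [h1, hμ0]) (by
      have h1 := (hmw Nv hn0).2.2.2.2.2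
      linarith only [h1, hμ0])
    (by
      have h1 := (hmw (Nv + 1) hn1).2.2.2.2.2
      linarith only [h1, hμ0])
  have hs3 : SubC S₂' S := fun τ J F A h => hs1 τ J F A (hs₂ τ J F A h)
  have hs4 : SubC S₂' S' := fun τ J F A h => hs₁ τ J F A (hs₂ τ J F A h)
  refine hV q t x q1 (fun j hj => by
      obtain ⟨h4, h5, h6, h7⟩ := hx j (by omega)
      simp only [hj, if_true] at h5 h6 h7
      exact ⟨h4, h5, h6, h7⟩) N A V Nn Va S₂' hs3 R₂ hVaA hpr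
    (fun k hk => ⟨k, by omega, v0 k hk⟩) Nv (Nv + 1) i₀.2.1 i₀.2.2.2 Ψ w p₁ p₂ eN uN pN pa₁ pa₂ ea
    ua pa hn0 hn1 v1 v2 hmw H fun Ps xs h1 h2 h3 => ?_
  -- the mixed derivative
  obtain ⟨E, rd, hE, hlb⟩ := hlab Nv hn0
  have hCG : ChG S₂' c (r + 1) (fun l x => L l x x) G := ⟨fun w hw => by
    obtain ⟨rd, c1, c2⟩ := hch w hw
    exact ⟨_, rd, c1, c2.sub hs3⟩⟩
  rw [v1] at hE hlb
  rw [had] at h2 h3
  exact Hmx R₂ hκ had
    { a1 := ha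
      y1 := hy₁
      l0 := hlam
      s0 := hsg
      φ0 := hφ0
      φ1 := hφ1
      φN := hφN
      φC := hφC
      φX := by
        rw [hXc]
        linarith only [hy₁, hlam]
      sX := by
        rw [hXc]
        linarith only [hrφ, hφ0, hlam]
      lX := by
        rw [hXc]
        linarith only [hrφ, hφ0, hlam, hy₁, hdtφ]
      X30 := h3X
      kX := hkX
      ks := hks
      dt0 := hdt0
      dtN := hdtN
      dtφ := hdtφ
      ε0 := hε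
      εφ := by linarith only [hεc]
      εs := hεd } (by
      have h4 := hKc.trans hK'
      rw [hK₃] at h4
      exact h4) hCG htG (fun k hk => by
      have h4 := R₂.memG.2 (Nv + 2 + k) (by omega)
      rwa [v3] at h4) (fun l hl => hE l (by
        show l ≤ r + 2 - 1
        omega)) (fun e he => by
      refine (Bas.mono 0 (hlb e he) ?_).sub hs₂
      rintro J - F A ⟨V, z, z', g, hg⟩
      exact ⟨V, z, z', g, fun l _ hl => hg l (by omega)⟩) hμ0 v1 v2 H hpf hpr1 hpr2 hNf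
    (hal.sub hs4) h1 h2 h3

end Pool.FLN19
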