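import Pool.Agent.H19.FLN.Jnt
import Pool.Agent.H6.ASM.V0a

/-!
# The part of small rate, from a void statement

`VmP`: `VmB` for all slopes with `Φ`, with some property. `partC_of`: the part `PartC` of small rate
from it.
-/

set_option autoImplicit false

namespace Pool.FLN19

open Pool.GEN Pool.PKG Pool.ALT Pool.LA91 Pool.ASM
open Pool.V0F (ChUQ AttUQ)

/-- **Void, from the mixed derivative**, for all slopes with `Φ`, with some property. -/
def VmP (κ : ℕ → Kg) (Φ : (ℕ → ℝ) → Prop) : Prop :=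
  ∃ (ι : Type) (_ : Countable ι) (Q : PropG 4 ι), AePG 4 Q ∧ HerQ Q ∧
    ∀ h hb : ℝ, 0 < h → h ≤ 1 → 0 < hb → hb ≤ 1 → ∀ Sl : ℕ → ℝ, Φ Sl →
      VmB 2 h hb Sl κ Q

/-- **The part of small rate**, the first jet of the place 2, from the void statement. -/
theorem partC_of {κ : ℕ → Kg} {Φ : (ℕ → ℝ) → Prop} (hκ : ∀ l < 2, κ l = .one)
    (h2 : ∀ Sl, Φ Sl → 1 ≤ Sl 2) (h3 : ∀ Sl, Φ Sl → 0 < Sl 3) (H : VmP κ Φ) :
    PartC 2 κ Φ (fun _ => AdmL 4) (fun Sl => Sl 3 * Real.log 2) := by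
  obtain ⟨ι, hc, Q, hQ, hh, H⟩ := H
  refine ⟨ι ⊕ (Unit ⊕ Unit), inferInstance, sumQ Q (sumQ (ChUQ : PropG 4 Unit)
      (AttUQ : PropG 4 Unit)), aePG_sum hQ hh (aePG_sum (Pool.V0F.aePG_chU 4) (Pool.V0F.her_chU 4)
      (Pool.V0F.aePG_attU 4)), her_sum hh (her_sum (Pool.V0F.her_chU 4) (Pool.V0F.her_attU 4)),
    fun h h0 h1 Sl hS b D => ?_⟩
  have hl : 0 < Real.log 2 := Real.log_pos one_lt_two
  have hs3 := h3 Sl hS
  have hb0 := b.2
  have hm : 0 < Sl 3 * Real.log 2 := mul_pos hs3 hl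
  obtain ⟨hb, hbd⟩ : ∃ hb : ℝ, hb = min 1 (b / (Sl 3 * Real.log 2)) := ⟨_, rfl⟩
  have hbp : 0 < hb := by
    rw [hbd]
    exact lt_min one_pos (div_pos hb0 hm)
  have hb1 : hb ≤ 1 := by
    rw [hbd]
    exact min_le_left _ _
  have hb2 : hb * (Sl 3 * Real.log 2) ≤ b := by
    rw [← le_div_iff₀ hm, hbd]
    exact min_le_right _ _
  exact f1us_B (r := 2) (by norm_num) hκ hbp hb1 (by
    show Sl 3 * Real.log 2 - b ≤ (1 - hb) * Sl 3 * Real.log 2
    linarith only [hb2]) hs3 (h2 Sl hS) (H h hb h0 h1 hbp hb1 Sl hS)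

/-- **The field `sC` of the sheet** `ShA` from the void statement. -/
theorem shA_sC (H : VmP (kg4 .one .one .stp .sta) (fun Sl => NAs Sl ∧ Sl 3 ≤ Sl 2)) :
    PartC 2 (kg4 .one .one .stp .sta) (fun Sl => NAs Sl ∧ Sl 3 ≤ Sl 2) (fun _ => AdmL 4)
      (fun Sl => Sl 3 * Real.log 2) :=
  partC_of (fun l hl => by interval_cases l <;> rfl) (fun Sl hS => by
    have := hS.1.2.2.1
    linarith) (fun Sl hS => by
    have := hS.1.2.2.2
    linarith) H

end Pool.FLN19
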