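import Pool.Agent.H19.FLN.Cls
import Pool.Agent.H19.FLN.F1a
import Pool.Agent.H42.D2.Nqc

/-!
# Two labels of a place over an alive coordinate, at the windows of a record

`MxN`: the derivative with respect to `c r` of the difference of a closed label and a label of a family
is small at the own point, on a part of each event. `mxn_B`: at a window of a record, for the natural
labels of a family of small rate.
-/

set_option autoImplicit false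

namespace Pool.FLN19

open Finset Real MvPolynomial
open Pool.Agent.H49.Ent Pool.Agent.H32.Dense Pool.STK Pool.KA Pool.KSAT Pool.K2S Pool.PB Pool.GEN
open Pool.S6C Pool.RCD Pool.LA91 Pool.OWN68 Pool.PKG
open Pool.GRD (LbP)
open Pool.BFL (Pb)
open Pool.AJX (LbX FwX)
open Pool.AJW (JfU jfV jfV_mem nX aX aX_ge)
open Pool.NPZ (Fm4 NpC NpH ChJ)
open Pool.ALT

/-- **The mixed derivative of the closed labels** `Hs` and the labels `G` of the family `Θ`. -/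
def MxN {m : ℕ} (S : PCl m) (c : ℕ → Fin m) (r : ℕ) (κ : Fin m) (Kd : ℕ) (v Ps x : ℝ)
    (Θ : Fml m) : Prop :=
  Bas S (fun J F A => ∀ (V : Type) (z : PtT F → V) (z' : LnT F → V)
    (G : V → MvPolynomial (Option (Fin m)) ℝ), Θ J F A V z z' G →
    ∀ (Vs : Type) (zs : PtT F → Vs) (zs' : LnT F → Vs)
      (Hs : Vs → MvPolynomial (Option (Fin m)) ℝ),
      LbP F ((range (r + 1)).image c) κ Kd J ⌊v * J⌋₊ ⌊Ps * J⌋₊ A zs zs' Hs →
      ∃ B : F.Ω → Prop, Sub B A ∧ Pe F.p A ≤ 32 * Pe F.p B ∧ ∀ ω, B ω →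
        |eval (bt F ω) (pderiv (some (c r)) (Hs (zs' (slam F ⌊v * J⌋₊ ω)) -
          G (z' (slam F ⌊v * J⌋₊ ω))))| ≤ 2 ^ (-x * J))

theorem MxN.sub {m : ℕ} {S S' : PCl m} (hs : ∀ (τ : ℝ) (J : ℕ) (F : Fam m J)
    (A : F.Ω → Prop), S'.St τ J F A → S.St τ J F A) {c : ℕ → Fin m} {r : ℕ} {κ : Fin m} {Kd : ℕ}
    {v Ps x : ℝ} {Θ : Fml m} (h : MxN S c r κ Kd v Ps x Θ) : MxN S' c r κ Kd v Ps x Θ :=
  Bas.sub hs h

/-- A smaller family, a larger degree. -/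
theorem nph_imp {K K₁ : ℕ} {h δ : ℝ} {m : ℕ} {S : PCl m} {c : ℕ → Fin m} {r₀ r : ℕ}
    {v w lam q₁ ρ g₀ : ℝ} {E pc s n lv rd : ℕ → ℝ} {κ : Fin m} {I : Finset (Fin m)} {Kc K' : ℕ}
    {e P pN pa q d rG eG a : ℝ} {Θ Θ' : Fm4 m}
    (H : NpH K h δ S c r₀ r v w lam q₁ ρ g₀ E pc s n lv rd κ I Kc K' e P pN pa q d rG eG a Θ)
    (hK : K ≤ K₁) (hi : ∀ (J : ℕ) (F : Fam m J) (A : F.Ω → Prop) (V : Type) (z : PtT F → V)
      (z' : LnT F → V) (G : V → MvPolynomial (Option (Fin m)) ℝ)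
      (g : V → ℕ → MvPolynomial (Option (Fin m)) ℝ), Θ' J F A V z z' G g → Θ J F A V z z' G g)
    (hs : ∀ (J : ℕ) (F : Fam m J) (A B : F.Ω → Prop) (V : Type) (z : PtT F → V) (z' : LnT F → V)
      (G : V → MvPolynomial (Option (Fin m)) ℝ) (g : V → ℕ → MvPolynomial (Option (Fin m)) ℝ),
      Sub B A → Θ' J F A V z z' G g → Θ' J F B V z z' G g) :
    NpH K₁ h δ S c r₀ r v w lam q₁ ρ g₀ E pc s n lv rd κ I Kc K' e P pN pa q d rG eG a Θ' :=
  { H with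
    npc := fun J F A V z z' G g h => H.npc J F A V z z' G g (hi J F A V z z' G g h)
    lb := fun J F A V z z' G g h => (H.lb J F A V z z' G g (hi J F A V z z' G g h)).mono
      (Finset.Subset.refl _) hK le_rfl le_rfl le_rfl
    hs := hs
    row := fun sa sb h1 h2 h3 => Bas.mono 0 (H.row sa sb h1 h2 h3) fun J _ F A HR V z z' G g hG =>
      HR V z z' G g (hi J F A V z z' G g hG) }

/-- **A natural label has a partner at the later window**, on a part. -/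
theorem nzq_of {m : ℕ} {S : PCl m} {Ψ : Fml m} {c : ℕ → Fin m} {r₀ : ℕ} {κ : Fin m}
    {K K₁ Ku Kb : ℕ} {w v p₁ p₂ e u p a pa₁ pa₂ ea ua pa : ℝ}
    (hN : NzO S Ψ c r₀ κ K K₁ Ku w a pa₁ pa₂ ea ua pa)
    (hΨs : ∀ (J : ℕ) (F : Fam m J) (A B : F.Ω → Prop) (V : Type)
      (z : PtT F → V) (z' : LnT F → V) (G : V → MvPolynomial (Option (Fin m)) ℝ), Sub B A →
      Ψ J F A V z z' G → Ψ J F B V z z' G)
    (hex : Bas S (fun J F A => ∃ (V : Type) (z : PtT F → V) (z' : LnT F → V)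
      (G : V → MvPolynomial (Option (Fin m)) ℝ),
      NzQ Ψ c r₀ κ K K₁ Ku Kb w v p₁ p₂ e u p a pa₁ pa₂ ea ua pa J F A V z z' G)) :
    Bas S (fun J F A => ∀ (V : Type) (z : PtT F → V) (z' : LnT F → V)
      (G : V → MvPolynomial (Option (Fin m)) ℝ),
      NzF Ψ c r₀ κ K K₁ Kb w v p₁ p₂ e u p J F A V z z' G →
      ∃ B : F.Ω → Prop, Sub B A ∧ Pe F.p A ≤ 8 * Pe F.p B ∧
        NzQ Ψ c r₀ κ K K₁ Ku Kb w v p₁ p₂ e u p a pa₁ pa₂ ea ua pa J F B V z z' G) := by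
  refine Bas.mono 0 ((hN 1 one_pos).and hex) ?_
  rintro J - F A ⟨HN, _, _, _, _, _, _, _, _, _, _, _, _, _, _, _, _, _, _, _, _, _, Va, Y₁, Y₂, za,
    za', Ga, Q₁, y₁, y₁', B₁, Q₂, y₂, y₂', B₂, fa, a3⟩ V z z' G ⟨V₀, V₁, V₂, z₀, z₀', G₀, P₁, z₁,
    z₁', G₁, P₂, z₂, z₂', H, f, a1, a2⟩
  obtain ⟨B, b1, b2, b3⟩ := HN V₀ z₀ z₀' G₀ a1 Q₁ Y₁ y₁ y₁' B₁ a3.l1 a3.q1 Q₂ Y₂ y₂ y₂' B₂ a3.l2
    a3.q2 A (fun ω h => h) (by rw [div_one, one_mul])
  exact ⟨B, b1, b2, V₀, V₁, V₂, z₀, z₀', G₀, P₁, z₁, z₁', G₁, P₂, z₂, z₂', H, f,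
    hΨs J F A B V₀ z₀ z₀' G₀ b1 a1, a2.sub b1, _, Y₁, Y₂, _, _, _, Q₁, y₁, y₁', B₁, Q₂, y₂, y₂',
    B₂, id, a3.l1.sub b1, a3.q1, a3.l2.sub b1, a3.q2, fun _ => rfl, fun _ => rfl, b3⟩

/-- **The constants** of `mxn_B`: `a` the slope of the coordinate, `t - y₁ q` the window of the labels,
`δN`, `C₂` the constants of the class theorem. -/
structure MxK (r : ℕ) (a y₁ δN C₂ lam sg φ Xc dt kf ε : ℝ) : Prop where
  a1 : 1 ≤ a
  y1 : 0 < y₁
  l0 : 0 < lam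
  s0 : 0 < sg
  φ0 : 0 < φ
  φ1 : φ ≤ 1
  φN : (r + 1) * φ ≤ δN * lam / 8
  φC : φ / 8 < sg / C₂
  φX : 32 * (r + 1) * φ ≤ Xc
  sX : 12 * y₁ ≤ Xc
  lX : lam + dt * lam / 8 - -y₁ + 3 * φ ≤ Xc
  X30 : 0 ≤ 3 ^ r * Xc
  kX : 3 ^ r * Xc ≤ kf
  ks : a * y₁ + a + 3 * (r + 1) * φ ≤ kf
  dt0 : 0 < dt
  dtN : dt ≤ δN / 2
  dtφ : dt * lam ≤ φ
  ε0 : 0 < ε
  εφ : 2 * ε ≤ φ
  εs : ε ≤ sg

set_option maxHeartbeats 1000000 in
/-- **The mixed derivative at a window of a record**, for the natural labels of a family of small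
rate. -/
theorem mxn_B (Db Kd Kl r : ℕ) (hr : 1 ≤ r) {hb : ℝ} (hb0 : 0 < hb) (hb1 : hb ≤ 1) {lam dd : ℝ}
    (hlam : 0 < lam) (hdd : 0 < dd) : ∃ δN C₂ : ℝ, 0 < δN ∧ 1 ≤ C₂ ∧
    ∀ {S : PCl (r + 2)} {al : ℝ} {g₀ : ℝ → ℝ}
    {P : List (Fin (r + 2)) × Fin (r + 2) → ℝ → ℝ → ℝ} {θ : ℝ}
    {P₂ : ℕ → List (Fin (r + 2)) × Fin (r + 2) → ℝ → ℝ → ℝ} {θ₂ Eb e₂ : ℕ → ℝ}
    {c : ℕ → Fin (r + 2)} {Pt : ℝ → ℝ → ℝ} {rt : ℝ → ℝ} {h K₀ g : ℝ} {L T : ℕ → ℝ → ℝ → ℝ}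
    {Sl : ℕ → ℝ} {κ : ℕ → Kg} {G : Set ℝ} {S₀ N : ℕ} {A V : ℕ → ℝ} {S₂ Na : ℕ} {Va : ℕ → ℝ}
    {K' ε q t : ℝ}
    (_ : RecG S al g₀ P θ P₂ θ₂ Eb e₂ c Pt rt h K₀ g L T Sl κ G S₀ N A V S₂ Na Va K' ε q t)
    (_ : ∀ l < r, κ l = .one) {a y₁ sg φ Xc dt kf : ℝ}
    (_ : Sl r = a) (_ : MxK r a y₁ δN C₂ lam sg φ Xc dt kf ε)
    (_ : kf + y₁ + 3 ^ r * Xc + lam + a * y₁ + a + sg + 3 ≤ K')
    (_ : ChG S c (r + 1) (fun l x => L l x x) G) (_ : t ∈ G)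
    (_ : ∀ k ≤ r, t + jfV r (-y₁) Xc k * q ∈ G) {E rd : ℕ → ℝ}
    (_ : ∀ i < r + 1, 0 ≤ E i ∧ L i (t + -y₁ * q) (t + -y₁ * q) + E i + 3 * K' * q ≤ 1 ∧
      0 ≤ rd i ∧ rd i + 3 * K' * q ≤ 1)
    (_ : ∀ e : ℝ, 0 < e → Bas S (fun J F A => ∃ (V : Type) (z : PtT F → V) (z' : LnT F → V)
      (g : V → ℕ → MvPolynomial (Option (Fin (r + 2))) ℝ),
      LbX F c 0 (r + 1) Kl e E (t + -y₁ * q) rd
        (fun i => L i (t + -y₁ * q) (t + -y₁ * q)) A z z' g))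
    {i j : ℕ} {Rr rr ℓ g₂ Xa hh μ e₀ π₀ : ℝ} {Ψ : Fml (r + 2)}
    {w p₁ p₂ eN uN pN pa₁ pa₂ ea ua pa : ℝ} (_ : 0 < μ) (_ : Va i = -y₁) (_ : Va j = 0)
    (_ : AlO S c L Db Na Va i j Rr hb dt lam rr ℓ g₂ Xa hh μ e₀ π₀ q t Ψ w p₁ p₂ eN uN pN pa₁ pa₂
      ea ua pa) {pf : ℕ → ℝ} {pr : ℝ} {Nf : ℕ → ℕ → ℝ}
    (_ : ∀ l < r, L l t t - φ * q ≤ pf l ∧ pf l ≤ L l t t) (_ : L r t t - φ * q ≤ pr)
    (_ : pr ≤ L r t t) (_ : ∀ l < r, ∀ j ≤ 1, Nf l j = L l t t + kf * q - (j : ℕ) * t)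
    (_ : AlvQ S t (fun _ F => F.T) (qJets (r + 2) c 0 r 1 (fun _ _ => t) (fun l _ => pf l) Nf)
      (qJet (r + 2) ((range r).image c) (c r) 1 t pr (L r t t + (Sl r - 1) * q - t))
      (φ * q / 8) (dd * q / 8))
    {Ps x : ℝ} (_ : L (r + 1) (t + -y₁ * q) (t + -y₁ * q) ≤ Ps)
    (_ : x + (L r t t + (a - 1 - y₁) * q) + 4 * sg * q ≤
      L (r + 1) (t + -y₁ * q) (t + -y₁ * q) + lam * q)
    (_ : x + (L r t t + (a - 1 - y₁) * q) + 4 * sg * q ≤ Ps),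
    MxN S c r (c (r + 1)) Kd (t + -y₁ * q) Ps x
      (NzF Ψ c r (c (r + 1)) Db Db Db w (t + -y₁ * q) p₁ p₂ eN uN pN) := by
  classical
  obtain ⟨K₁, hK₁⟩ : ∃ K₁ : ℕ, K₁ = max (Db * max 1 Db) (max Kl Kd) := ⟨_, rfl⟩
  have hKD : Db * max 1 Db ≤ K₁ := by
    rw [hK₁]
    exact le_max_left _ _
  have hKl : Kl ≤ K₁ := by
    rw [hK₁]
    exact (le_max_left _ _).trans (le_max_right _ _)
  have hKd : Kd ≤ K₁ := by
    rw [hK₁]
    exact (le_max_right _ _).trans (le_max_right _ _)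
  obtain ⟨δN, C₂, hδN, hC₂, Hcls⟩ := flat_cls K₁ r hb0 hb1 (ε := dd / (80 * lam)) (by positivity)
  refine ⟨δN, C₂, hδN, hC₂, ?_⟩
  intro S al g₀ P θ P₂ θ₂ Eb e₂ c Pt rt h K₀ g L T Sl κ G S₀ N A V S₂ Na Va K' ε q t R hκ a y₁ sg φ
    Xc dt kf hs Kn hK' hCG hGt hGw E rd hE hlb i j Rr rr ℓ g₂ Xa hh μ e₀ π₀ Ψ w p₁ p₂ eN uN pN pa₁
    pa₂ ea ua pa hμ hVi hVj H pf pr Nf hpf hpr hpr' hNf hal Ps x hPs hx1 hx2
  have hq0 := R.q0
  have ht0 := R.t0
  have ht1 := R.t1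
  have ha1 := Kn.a1
  have hy0 := Kn.y1
  have hay0 : 0 < a * y₁ := mul_pos (by linarith only [ha1]) hy0
  have hrφ0 : 0 ≤ (r + 1 : ℝ) * φ := mul_nonneg (by positivity) Kn.φ0.le
  have hkf0 : 0 < kf := by linarith only [Kn.ks, ha1, hay0, hrφ0]
  -- the multiples of the scale
  have hKq : kf * q + y₁ * q + 3 ^ r * Xc * q + lam * q + a * y₁ * q + a * q + sg * q + 3 * q ≤
      K' * q := by
    have h1 := mul_le_mul_of_nonneg_right hK' hq0.le
    linarith only [h1]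
  have hXq3 : 0 ≤ 3 ^ r * Xc * q := mul_nonneg Kn.X30 hq0.le
  have hkfq : 0 < kf * q := mul_pos hkf0 hq0
  have hyq : 0 < y₁ * q := mul_pos hy0 hq0
  have hayq : 0 < a * y₁ * q := mul_pos hay0 hq0
  have haq : q ≤ a * q := by
    have h1 := mul_le_mul_of_nonneg_right ha1 hq0.le
    linarith only [h1]
  have hayy : y₁ * q ≤ a * y₁ * q := by
    have h1 := mul_le_mul_of_nonneg_right ha1 hyq.le
    linarith only [h1]
  have hsq : 0 < sg * q := mul_pos Kn.s0 hq0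
  have hlq : 0 < lam * q := mul_pos Kn.l0 hq0
  have ht : 0 < t := by linarith only [ht0, hKq, hXq3, hkfq, hyq, hayq, haq, hsq, hlq, hq0]
  have ht' : t < 1 := by linarith only [ht1, hKq, hXq3, hkfq, hyq, hayq, haq, hsq, hlq, hq0]
  have hφq0 : 0 < φ * q := mul_pos Kn.φ0 hq0
  have hφq : φ * q ≤ q := by
    have h1 := mul_le_mul_of_nonneg_right Kn.φ1 hq0.le
    linarith only [h1]
  have hdq : dt * lam * q ≤ φ * q := mul_le_mul_of_nonneg_right Kn.dtφ hq0.le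
  have hdl0 : 0 < dt * lam := mul_pos Kn.dt0 Kn.l0
  have hdl0q : 0 < dt * lam * q := mul_pos hdl0 hq0
  have hεq0 : 0 < ε * q := mul_pos Kn.ε0 hq0
  have hεq : 2 * (ε * q) ≤ φ * q := by
    have h1 := mul_le_mul_of_nonneg_right Kn.εφ hq0.le
    linarith only [h1]
  have hεs : ε * q ≤ sg * q := mul_le_mul_of_nonneg_right Kn.εs hq0.le
  have eW : t + Va j * q = t := by
    rw [hVj]
    ring
  have U : JfU r 0 (-y₁) Xc φ (kf + y₁) kf :=
    { vv0 := by linarith only [hy0]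
      φ0 := Kn.φ0
      XK := by
        have h1 := Kn.sX
        push_cast
        linarith only [h1]
      φX := Kn.φX
      kfX := Kn.kX
      lamk := by linarith only [] }
  -- the windows
  have hE' : ∀ i < r, 0 ≤ E i ∧ L i (t + -y₁ * q) (t + -y₁ * q) + E i + 3 * K' * q ≤ 1 ∧
      0 ≤ rd i ∧ rd i ≤ 1 - 3 * K' * q := fun i hi => by
    obtain ⟨h1, h2, h3, h4⟩ := hE i (by omega)
    exact ⟨h1, h2, h3, by linarith only [h4]⟩
  have hsK : y₁ + 3 ^ r * Xc ≤ K' := by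
    linarith only [hK', ha1, hkf0, hay0, Kn.l0, Kn.s0]
  have hlK : kf + y₁ ≤ K' := by
    linarith only [hK', ha1, hay0, Kn.l0, Kn.s0, Kn.X30]
  have HC := R.chj (K := 0) hκ hr (by omega) hCG U hGt hGw (by linarith only [hsK]) hlK Kn.εφ
    (g₁ := φ * q / 4) (by linarith only [hφq0]) (m₁ := 3 * K' * q) (by
      linarith only [hKq, hXq3, hkfq, hyq, hayq, haq, hsq, hlq, hφq, hq0]) (ρ := 1 - 3 * K' * q)
    (by linarith only [hKq, hXq3, hkfq, hyq, hayq, haq, hsq, hlq, hφq, hq0]) hE'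
    (qv := lam + dt * lam / 8) (by linarith only [hdl0, Kn.l0]) Kn.lX
  have HC' : ChJ S c 0 r (t + Va i * q) (t + Va j * q) ((kf + y₁) * q) ((lam + dt * lam / 8) * q)
      (φ * q) (φ * q / 4) E (fun i => L i (t + -y₁ * q) (t + -y₁ * q)) (fun i => L i t t)
      (nX r (fun l x => L l x x) (t + -y₁ * q) (Xc * q))
      (fun l => aX r (Xc * q) l - (t - (t + -y₁ * q)) - 2 * (φ * q)) rd := by
    rw [hVi, eW]
    exact HC
  -- the level at the window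
  have hv0 : 0 ≤ t + -y₁ * q := by
    linarith only [ht0, hKq, hXq3, hkfq, hyq, hayq, haq, hsq, hlq, hq0]
  have hLv : t + -y₁ * q ≤ L (r + 1) (t + -y₁ * q) (t + -y₁ * q) :=
    R.low_at (by omega) hv0 le_rfl (by linarith only [ht', hyq])
  have hvq : q + sg * q ≤ t + -y₁ * q := by
    linarith only [ht0, hKq, hXq3, hkfq, hyq, hayq, haq, hsq, hlq, hq0]
  have hδφ : dt * (lam * q) / 4 + δN * lam * q / 8 + (r + 1) * (φ * q) < δN * (lam * q) / 2 := by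
    have h1 := mul_le_mul_of_nonneg_right Kn.dtN hlq.le
    have h2 := mul_le_mul_of_nonneg_right Kn.φN hq0.le
    have h3 : 0 < δN * (lam * q) := mul_pos hδN hlq
    linarith only [h1, h2, h3]
  have NP := nbf_nph R.pos H hμ.le HC' K₁ (e := φ * q / 8) (δN := δN) (δ₂ := δN * lam * q / 8)
    (b := t) (by linarith only [hφq0]) (by linarith only [hdq]) le_rfl
    (by linarith only [hφq0]) (by linarith only [Kn.dtN, hδN])
    (by linarith only [hdl0q]) (by positivity) hδφ (by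
      rw [hVi]
      linarith only [hdq, hφq, hLv, hvq, hsq, hq0]) (by rw [eW]) ht'.le
  rw [hVi, eW] at NP
  have hpp := NP.pNP
  have hpN1 := H.pN1
  rw [hVi] at hpN1
  have hpN2 := NP.Pe
  obtain ⟨Θ, hΘ⟩ : ∃ Θ : Fm4 (r + 2), Θ = fun J F A V z z' G g =>
      NbF Ψ c r (c (r + 1)) Db w (t + -y₁ * q) p₁ p₂ eN uN pN t pa₁ pa₂ ea ua pa K₁ (φ * q / 8)
        E rd (fun i => L i (t + -y₁ * q) (t + -y₁ * q)) J F A V z z' G g ∧
      LbX F c 0 (r + 1) K₁ (φ * q / 8) E (t + -y₁ * q) rd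
        (fun i => L i (t + -y₁ * q) (t + -y₁ * q)) A z z' g := ⟨_, rfl⟩
  have NP' := nph_imp (Θ' := Θ) NP hKD (fun J F A V z z' G g h => by
      rw [hΘ] at h
      exact h.1) (fun J F A B V z z' G g hB h => by
      rw [hΘ] at h ⊢
      exact ⟨NP.hs J F A B V z z' G g hB h.1, h.2.sub hB⟩)
  have hΘu : ∀ (J : ℕ) (F : Fam (r + 2) J) (A : F.Ω → Prop) (V : Type) (z : PtT F → V)
      (z' : LnT F → V) (G : V → MvPolynomial (Option (Fin (r + 2))) ℝ)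
      (g : V → ℕ → MvPolynomial (Option (Fin (r + 2))) ℝ), Θ J F A V z z' G g →
      LbX F c 0 (r + 1) K₁ (φ * q / 8) E (t + -y₁ * q) rd
        (fun i => L i (t + -y₁ * q) (t + -y₁ * q)) A z z' g := fun J F A V z z' G g h => by
    rw [hΘ] at h
    exact h.2
  -- the first jet
  have HX := R.fwx (K := 0) R.tmc hκ (by omega) hCG U hGt hGw (by linarith only [hsK]) hlK Kn.εφ
    (pf := pf) (fun l hl => (hpf l hl).1) (E := E) (rd := rd) (fun i hi => by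
      obtain ⟨h1, h2, -, -⟩ := hE i (by omega)
      have h3 : 0 ≤ L i (t + -y₁ * q) (t + -y₁ * q) :=
        hv0.trans (R.low_at (by omega) hv0 le_rfl (by linarith only [ht', hyq]))
      have h4 : 0 < K' * q := by linarith only [hKq, hXq3, hkfq, hyq, hayq, haq, hsq, hlq, hq0]
      linarith only [h2, h3, h4]) (fun i hi => (hE i (by omega)).2.2.1) (Kc := K₁)
    (e := φ * q / 8) (δ := δN * (lam * q) / 4) (by positivity) (by linarith only [hφq0]) le_rfl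
    (Nf := Nf) hNf
  -- the chain
  have hvG : t + -y₁ * q ∈ G := by
    have h1 := hGw 0 (Nat.zero_le _)
    rwa [Pool.AJW.jfV_zero] at h1
  obtain ⟨uv, rv, hrv, hcv⟩ := hCG.ch _ hvG
  obtain ⟨ut, rw', hrw, hct⟩ := hCG.ch t hGt
  -- the levels
  have hKx : |t + -y₁ * q - t| ≤ K' * q := by
    rw [add_sub_cancel_left, abs_mul, abs_neg, abs_of_pos hq0, abs_of_pos hy0]
    linarith only [hKq, hXq3, hkfq, hyq, hayq, haq, hsq, hlq, hq0]
  have hdu := abs_le.1 (R.dL r (by omega) _ hKx)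
  rw [hs] at hdu
  have e1 : a * (t + -y₁ * q - t) = -(a * y₁ * q) := by ring
  rw [e1] at hdu
  obtain ⟨hdu1, hdu2⟩ := hdu
  obtain ⟨N₁, hN₁⟩ : ∃ N₁ : ℝ, N₁ = L r t t + (Sl r - 1) * q - t := ⟨_, rfl⟩
  rw [← hN₁] at hal
  rw [hs] at hN₁
  have hksq : a * y₁ * q + a * q + 3 * (r + 1) * (φ * q) ≤ kf * q := by
    have h1 := mul_le_mul_of_nonneg_right Kn.ks hq0.le
    linarith only [h1]
  have hrφ : 0 ≤ (r : ℝ) * (φ * q) := mul_nonneg (Nat.cast_nonneg r) hφq0.le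
  have hlr : ∀ l : ℕ, l < r → ((l : ℝ) + 1) * (3 * (φ * q)) ≤ r * (3 * (φ * q)) := fun l hl => by
    refine mul_le_mul_of_nonneg_right ?_ (by positivity)
    exact_mod_cast (show l + 1 ≤ r by omega)
  have hmin : min (1 : ℝ) (1 - t) = 1 - t := min_eq_right (by linarith only [ht])
  have hkt : kf * q + a * q ≤ 1 - t := by
    linarith only [ht1, hKq, hXq3, hkfq, hyq, hayq, haq, hsq, hlq, hq0]
  have hpp' : L r t t - a * y₁ * q - φ * q ≤ min (L r (t + -y₁ * q) (t + -y₁ * q)) pr :=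
    le_min (by linarith only [hdu1, hεq, hφq0]) (by linarith only [hpr, hayq])
  have hF := jetN_F1 R.tmc (hct.take (Nat.zero_le r) (Nat.le_succ r)) (k := c r) (j := 1)
    (wv := fun _ _ => t) (pv := fun l _ => pf l) (Nv := Nf)
    (lv := fun l => kf * q - ((l : ℝ) + 1) * (3 * (φ * q))) (w₁ := t + -y₁ * q) (w₂ := t)
    (p₁ := L r (t + -y₁ * q) (t + -y₁ * q)) (p₂ := pr) (N₁ := N₁) (N₂ := N₁) (p₀ := 1) (lam := 1)
    (σ₀ := φ * q) (f := fun J F => ptr F J) (y := fun _ F => F.T)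
    (fun _ _ _ _ _ => le_rfl) (by linarith only [hyq]) le_rfl ht' le_rfl one_pos hφq0
    (fun l _ hl => by
      have h1 := hlr l hl
      linarith only [h1, hksq, hrφ, hayq, haq, hφq0, hq0])
    (fun l _ hl j' hj' => by
      have h1 : 0 ≤ (l : ℝ) * (φ * q) := mul_nonneg (Nat.cast_nonneg l) hφq0.le
      rw [hNf l hl j' hj']
      linarith only [h1, hφq0])
    (fun l _ hl j' _ => by
      have h1 : 0 ≤ (l : ℝ) * (φ * q) := mul_nonneg (Nat.cast_nonneg l) hφq0.le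
      have h2 : L l t t - φ * q ≤ min (pf l) (L l t t) :=
        le_min (hpf l hl).1 (by linarith only [hφq0])
      rw [hmin]
      linarith only [h1, h2, hkt, haq, hq0, hφq0])
    (fun l _ hl j' _ l' _ hl' => by
      have h1 : ((l' : ℝ) + 1 + 1) * (3 * (φ * q)) ≤ ((l : ℝ) + 1) * (3 * (φ * q)) := by
        refine mul_le_mul_of_nonneg_right ?_ (by positivity)
        have : (l' : ℝ) + 1 ≤ l := by exact_mod_cast hl'
        linarith only [this]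
      have h2 : L l t t - φ * q ≤ min (pf l) (L l t t) :=
        le_min (hpf l hl).1 (by linarith only [hφq0])
      linarith only [h1, h2, hφq0]) le_rfl
    (by
      rw [hmin, hN₁]
      push_cast
      linarith only [hpp', hkt, hksq, hrφ, hφq0, hayq, haq, hq0])
    (fun l _ hl => by
      have h1 := hlr l hl
      rw [hN₁]
      push_cast
      linarith only [h1, hpp', hksq, hrφ, hφq0, hayq, haq, hφq, hq0])
    (fun J F => ⟨id, fun _ => rfl⟩) kn_T (h := dd * q / 32) (by positivity)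
  -- the class theorem
  have hL0 : ∀ l < r + 1, t + -y₁ * q ≤ L l (t + -y₁ * q) (t + -y₁ * q) := fun l hl =>
    R.low_at (by omega) hv0 le_rfl (by linarith only [ht', hyq])
  have hXc : 0 < Xc * q := mul_pos (U.X0) hq0
  have hlX : lam * q + φ * q ≤ Xc * q := by
    have h1 := mul_le_mul_of_nonneg_right Kn.lX hq0.le
    linarith only [h1, hdl0q, hyq, hφq0]
  have key := Hcls R.tmc NP' (Finset.Subset.refl _) hΘu hcv (σ := sg * q) (χ := K' * q) hsq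
    (by linarith only [hKq, hXq3, hkfq, hyq, hayq, haq, hlq, hq0])
    (by linarith only [ht1, hyq])
    (fun l hl => by
      obtain ⟨h1, h2, h3, h4⟩ := hE l hl
      have h5 : 0 < K' * q := by linarith only [hKq, hXq3, hkfq, hyq, hayq, haq, hsq, hlq, hq0]
      refine ⟨h1, by linarith only [h2, h5], h3, ?_, ?_, ?_⟩
      · linarith only [h4, h5, hKq, hXq3, hkfq, hyq, hayq, haq, hsq, hlq, hq0]
      · linarith only [hL0 l hl, hvq, hq0]
      · have h6 : 0 < sg * q / C₂ := by positivity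
        linarith only [h6])
    (by
      have h1 := mul_lt_mul_of_pos_right Kn.φC hq0
      have e2 : sg / C₂ * q = sg * q / C₂ := by ring
      rw [e2] at h1
      linarith only [h1])
    HX (exs_qjets fun l _ hl j' _ => exs_jet (hrw l (by omega))
      (att_prec (hpf l hl).2 ht'.le (hct.att l (Nat.zero_le _) (by omega)))) hal
    (exs_jet (hrw r (by omega)) (att_prec hpr' ht'.le (hct.att r (Nat.zero_le _) (by omega)))) hF
    le_rfl (Ps := Ps) (X' := Xc * q)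
    (b₁ := N₁ + (t + -y₁ * q) + sg * q - L r (t + -y₁ * q) (t + -y₁ * q)) (x := x)
    (y' := N₁ + (t + -y₁ * q) + 2 * (sg * q)) (η₀ := 1 / 2)
    (fun l hl => by
      have h1 := aX_ge (r := r) hXc.le l
      unfold nX
      linarith only [h1, hXc]) hXc
    (by
      rw [hN₁]
      linarith only [hdu2, hεs, haq, hayy]) (by linarith only [])
    (by linarith only [hpp, hPs])
    (by
      rw [hN₁]
      linarith only [hx1])
    (by
      rw [hN₁]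
      linarith only [hx2])
    (by
      rw [hN₁]
      linarith only [hx1, hpN2, hlX, hφq0])
    (by linarith only []) (by norm_num) (by norm_num)
    (by
      have e2 : dd / (80 * lam) * (lam * q) = dd * q / 80 := by
        field_simp
      rw [e2]
      have h1 : 0 < dd * q := mul_pos hdd hq0
      linarith only [h1])
  -- the labels
  have A1 := H.alp 1 (by linarith only [hμ]) le_rfl
  have hnza := H.nza
  have hnzq := H.nzq
  rw [hVi, eW] at hnzq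
  rw [eW] at hnza
  have hq8 := nzq_of hnza A1.hs hnzq
  have key8 := Pool.GRW.bas_part key (c := 8) (by norm_num)
  refine Bas.mono 0 ((hq8.and (hlb (φ * q / 8) (by linarith only [hφq0]))).and
    (key8.and (Pool.GRW.tmc_bas R.tmc one_pos))) ?_
  rintro J - F A ⟨⟨hzq, V₂, z₂, z₂', g, hg⟩, hk, hA, -⟩ V z z' G hzf Vs zs zs' Hs hHs
  obtain ⟨B, b1, b2, b3⟩ := hzq V z z' G hzf
  have hc1 : ∀ ω, B ω → z (ptr F J ω) = z' (slam F ⌊(t + -y₁ * q) * J⌋₊ ω) := fun ω hω =>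
    hzf.lb.cls ω (b1 ω hω)
  have hc2 : ∀ ω, B ω → z₂ (ptr F J ω) = z₂' (slam F ⌊(t + -y₁ * q) * J⌋₊ ω) := fun ω hω =>
    (hg 0 le_rfl (by omega)).cls ω (b1 ω hω)
  have hcc : ∀ ω, B ω → (fun x => (z x, z₂ x)) (ptr F J ω) =
      (fun x => (z' x, z₂' x)) (slam F ⌊(t + -y₁ * q) * J⌋₊ ω) := fun ω hω => by
    show (z (ptr F J ω), z₂ (ptr F J ω)) = _
    rw [hc1 ω hω, hc2 ω hω]
  have hXX : LbX F c 0 (r + 1) K₁ (φ * q / 8) E (t + -y₁ * q) rd
      (fun i => L i (t + -y₁ * q) (t + -y₁ * q)) B (fun x => (z x, z₂ x)) (fun x => (z' x, z₂' x))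
      (fun x => g x.2) := fun l a b => by
    have h1 := lbok_code ((hg l a b).sub b1) (fun x => (z x, z₂ x)) (fun x => (z' x, z₂' x))
      Prod.snd (fun _ => rfl) hcc
    exact h1.mono (Finset.Subset.refl _) hKl le_rfl le_rfl le_rfl
  have hΘ1 : Θ J F B (V × V₂) (fun x => (z x, z₂ x)) (fun x => (z' x, z₂' x)) (fun x => G x.1)
      (fun x => g x.2) := by
    rw [hΘ]
    exact ⟨⟨b3.code _ _ Prod.fst (fun _ => rfl) hcc, fun l a b => hXX l a (by omega)⟩, hXX⟩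
  have hB0 : 0 < Pe F.p B := by linarith only [b2, hA]
  have hfin := hk B b1 b2 _ _ _ _ _ hΘ1 Vs zs zs' Hs
    ((hHs.sub b1).mono (Finset.Subset.refl _) hKd le_rfl)
  obtain ⟨Q, hQ⟩ : ∃ Q : F.Ω → Prop, Q = fun ω => ∀ h' : ℝ,
      |h'| ≤ 2 ^ (-(N₁ + (t + -y₁ * q) + 2 * (sg * q)) * J) →
      |eval (Function.update (bt F ω) (some (c r)) (F.x ω (c r) + h')) (pderiv (some (c r))
        (Hs (zs' (slam F ⌊(t + -y₁ * q) * J⌋₊ ω)) -
          G (z' (slam F ⌊(t + -y₁ * q) * J⌋₊ ω))))| ≤ 2 ^ (-x * J) := ⟨_, rfl⟩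
  have hfin' : Pb (Pool.Agent.H49.Ent.cond F.p B True) (fun ω => ¬ Q ω) ≤ 1 / 2 := by
    rw [hQ]
    exact hfin
  refine ⟨fun ω => B ω ∧ Q ω, fun ω hω => b1 ω hω.1, ?_, ?_⟩
  · rw [Pb_cond hB0, div_le_iff₀ hB0] at hfin'
    have h2 : Pe F.p B ≤ Pe F.p (fun ω => B ω ∧ ¬ Q ω) + Pe F.p (fun ω => B ω ∧ Q ω) := by
      rw [← pb_pe, ← pb_pe, ← pb_pe]
      refine le_trans (Pool.GRD.Pb_mono_pos F.isLaw.nonneg fun ω _ h3 => ?_)
        (Pb_or' F.isLaw.nonneg _ _)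
      by_cases h4 : Q ω
      · exact Or.inr ⟨h3, h4⟩
      · exact Or.inl ⟨h3, h4⟩
    linarith only [b2, h2, hfin', hB0]
  · rintro ω ⟨-, h1⟩
    rw [hQ] at h1
    have h2 := h1 0 (by
      rw [abs_zero]
      positivity)
    have e2 : Function.update (bt F ω) (some (c r)) (F.x ω (c r) + 0) = bt F ω := by
      rw [add_zero]
      exact Function.update_eq_self _ _
    rw [e2] at h2
    exact h2

end Pool.FLN19
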