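import Pool.Agent.H92.GN.Rec

/-!
# The part of an event where a function has few values in the cells

`split_cells`: an event has a part `D` where `Y` has at most `M` values in each cell of `z`, such
that a part disjoint from `D` with at most `M'` values of `Y` in each cell is small.
-/

set_option autoImplicit false

namespace Pool.FLN19

open Finset Real
open Pool.Agent.H49.Ent Pool.Agent.H32.Dense Pool.STK Pool.KA Pool.K2S Pool.PB Pool.S6C Pool.RCD

section law

variable {Ω α V : Type} [Fintype Ω]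

/-- The values of a function in a cell are at most the mass of the cell. -/
theorem sum_cell {q : Ω → ℝ} (hq : IsLaw q) (Y : Ω → α) (z : Ω → V) (I : Finset α) (v : V) :
    ∑ y ∈ I, law q (fun ω => (Y ω, z ω)) (y, v) ≤ law q z v := by
  classical
  have e4 : ∀ y, law q (fun ω => (Y ω, z ω)) (y, v) =
      ∑ ω, if Y ω = y then (if z ω = v then q ω else 0) else 0 := by
    intro y
    unfold law
    refine sum_congr rfl fun ω _ => ?_
    by_cases hy : Y ω = y <;> by_cases hz : z ω = v <;> simp [hy, hz, Prod.ext_iff]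
  rw [sum_congr rfl fun y _ => e4 y, sum_comm]
  unfold law
  refine sum_le_sum fun ω _ => ?_
  rw [sum_ite_eq]
  have hn : 0 ≤ (if z ω = v then q ω else 0) := by
    split_ifs
    · exact hq.nonneg ω
    · exact le_rfl
  split_ifs with h1 <;> simp_all

/-- The masses of some values. -/
theorem sum_vals {q : Ω → ℝ} (hq : IsLaw q) (X : Ω → α) (I : Finset α) :
    ∑ x ∈ I, law q X x ≤ 1 := by
  classical
  rw [← hq.sum_one]
  unfold law
  rw [sum_comm]
  refine sum_le_sum fun ω _ => ?_
  rw [sum_ite_eq]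
  split_ifs
  · exact le_rfl
  · exact hq.nonneg ω

/-- The mass of an event is at most the masses of its values. -/
theorem mass_le {q : Ω → ℝ} (hq : IsLaw q) (X : Ω → α) (B : Ω → Prop) (I : Finset α)
    (h : ∀ ω, 0 < q ω → B ω → X ω ∈ I) : Pe q B ≤ ∑ x ∈ I, law q X x := by
  classical
  rw [Pe_eq]
  unfold law
  rw [sum_comm]
  refine sum_le_sum fun ω _ => ?_
  rw [sum_ite_eq]
  have h0 := hq.nonneg ω
  split_ifs with h1 h2
  · exact le_rfl
  · have : ¬ 0 < q ω := fun h3 => h2 (h ω h3 h1)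
    linarith
  · exact h0
  · exact le_rfl

/-- The mass of an event is at most the masses of a part and of the rest. -/
theorem Pe_rest {p : Ω → ℝ} (hp : IsLaw p) (A D : Ω → Prop) :
    Pe p A ≤ Pe p D + Pe p (fun ω => A ω ∧ ¬ D ω) := by
  classical
  rw [Pe_eq, Pe_eq, Pe_eq, ← sum_add_distrib]
  refine sum_le_sum fun ω _ => ?_
  have h0 := hp.nonneg ω
  by_cases hA : A ω <;> by_cases hD : D ω <;> simp [hA, hD, h0]

/-- **The part with few values in the cells.** -/
theorem split_cells {p : Ω → ℝ} (hp : IsLaw p) (Y : Ω → α) (z : Ω → V) {A : Ω → Prop}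
    (hA : 0 < Pe p A) {M : ℝ} (hM : 0 < M) : ∃ D : Ω → Prop, Sub D A ∧
    (∀ v, (cnt p Y (fun ω => D ω ∧ z ω = v) : ℝ) ≤ M) ∧
    ∀ (B : Ω → Prop) (M' : ℝ), Sub B A → (∀ ω, B ω → ¬ D ω) → 0 ≤ M' →
      (∀ v, (cnt p Y (fun ω => B ω ∧ z ω = v) : ℝ) ≤ M') → Pe p B ≤ M' / M * Pe p A := by
  classical
  obtain ⟨q, hq⟩ : ∃ q, q = Pool.Agent.H49.Ent.cond p A True := ⟨_, rfl⟩
  have hql : IsLaw q := by rw [hq]; exact isLaw_cond hp hA
  obtain ⟨r, hr⟩ : ∃ r : Ω → ℝ, r = fun ω => law q (fun ω => (Y ω, z ω)) (Y ω, z ω) /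
    law q z (z ω) := ⟨_, rfl⟩
  obtain ⟨D, hD⟩ : ∃ D : Ω → Prop, D = fun ω => (A ω ∧ 0 < p ω) ∧ 1 / M ≤ r ω := ⟨_, rfl⟩
  have hpos : ∀ ω, A ω → 0 < p ω → 0 < q ω := fun ω h1 h2 => by
    rw [hq]
    refine (cond_pos_iff hp.nonneg A True ω).2 ⟨h2, ?_⟩
    simpa using h1
  have hDA : Sub D A := fun ω hω => by
    rw [hD] at hω
    exact hω.1.1
  refine ⟨D, hDA, fun v => ?_, fun B M' hBA hBD hM' hcell => ?_⟩
  · obtain ⟨I, hI⟩ : ∃ I, I = cset p Y (fun ω => D ω ∧ z ω = v) := ⟨_, rfl⟩
    rw [← cset_card, ← hI]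
    rcases I.eq_empty_or_nonempty with he | ⟨y₀, hy₀⟩
    · rw [he, card_empty, Nat.cast_zero]
      exact hM.le
    have hv : 0 < law q z v := by
      rw [hI] at hy₀
      obtain ⟨ω, h1, ⟨h2, h3⟩, -⟩ := of_mem_cset hy₀
      rw [← h3]
      exact law_pos hql.nonneg z (hpos ω (hDA ω h2) h1)
    have e2 : (I.card : ℝ) * (1 / M * law q z v) ≤ ∑ y ∈ I, law q (fun ω => (Y ω, z ω)) (y, v) := by
      rw [← nsmul_eq_mul]
      refine card_nsmul_le_sum I _ _ fun y hy => ?_
      rw [hI] at hy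
      obtain ⟨ω, h1, ⟨h2, h3⟩, rfl⟩ := of_mem_cset hy
      rw [hD, hr] at h2
      have h4 := h2.2
      simp only at h4
      rw [h3, le_div_iff₀ hv] at h4
      exact h4
    have e4 : (I.card : ℝ) * (1 / M * law q z v) ≤ law q z v := e2.trans (sum_cell hql Y z I v)
    have e5 : (I.card : ℝ) * (1 / M) ≤ 1 := by
      by_contra hcon
      push Not at hcon
      nlinarith
    rw [mul_one_div, div_le_one hM] at e5
    exact e5
  · -- a part without the values of large mass
    obtain ⟨X, hX⟩ : ∃ X, X = cset p (fun ω => (Y ω, z ω)) B := ⟨_, rfl⟩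
    obtain ⟨Vs, hVs⟩ : ∃ Vs, Vs = cset p z B := ⟨_, rfl⟩
    have h1 : Pe q B ≤ ∑ x ∈ X, law q (fun ω => (Y ω, z ω)) x := by
      refine mass_le hql (fun ω => (Y ω, z ω)) B X fun ω h2 h3 => ?_
      rw [hX]
      rw [hq] at h2
      have h4 := (cond_pos_iff hp.nonneg A True ω).1 h2
      exact mem_cset (fun ω => (Y ω, z ω)) h4.1 h3
    have h2 : ∀ x ∈ X, law q (fun ω => (Y ω, z ω)) x ≤ 1 / M * law q z x.2 := by
      intro x hx
      rw [hX] at hx
      obtain ⟨ω, h3, h4, rfl⟩ := of_mem_cset hx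
      have h5 : ¬ D ω := hBD ω h4
      have hv := law_pos hql.nonneg z (hpos ω (hBA ω h4) h3)
      by_contra hcon
      push Not at hcon
      apply h5
      rw [hD]
      refine ⟨⟨hBA ω h4, h3⟩, ?_⟩
      rw [hr]
      show 1 / M ≤ _
      rw [le_div_iff₀ hv]
      exact hcon.le
    have h3 : ∑ x ∈ X, law q z x.2 = ∑ v ∈ Vs, ∑ x ∈ X with x.2 = v, law q z x.2 := by
      refine (Finset.sum_fiberwise_of_maps_to (fun x hx => ?_) _).symm
      rw [hX] at hx
      obtain ⟨ω, h3, h4, rfl⟩ := of_mem_cset hx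
      rw [hVs]
      exact mem_cset z h3 h4
    have h4 : ∀ v ∈ Vs, ∑ x ∈ X with x.2 = v, law q z x.2 ≤ M' * law q z v := by
      intro v _
      have e1 : ∑ x ∈ X with x.2 = v, law q z x.2 = ∑ x ∈ X with x.2 = v, law q z v :=
        sum_congr rfl fun x hx => by rw [(mem_filter.1 hx).2]
      rw [e1, sum_const, nsmul_eq_mul]
      have e2 : (X.filter fun x => x.2 = v).card ≤ (cset p Y fun ω => B ω ∧ z ω = v).card := by
        refine Finset.card_le_card_of_injOn (fun x => x.1) (fun x hx => ?_) fun x hx x' hx' he => ?_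
        · have hx' := mem_filter.1 (Finset.mem_coe.1 hx)
          have h6 := hx'.1
          rw [hX] at h6
          obtain ⟨ω, h7, h8, h9⟩ := of_mem_cset h6
          refine Finset.mem_coe.2 ?_
          show x.1 ∈ _
          have e1 : Y ω = x.1 := congrArg Prod.fst h9
          rw [← e1]
          refine mem_cset Y h7 ⟨h8, ?_⟩
          have e2 : z ω = x.2 := congrArg Prod.snd h9
          rw [e2]
          exact hx'.2
        · have k1 := (mem_filter.1 (Finset.mem_coe.1 hx)).2
          have k2 := (mem_filter.1 (Finset.mem_coe.1 hx')).2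
          exact Prod.ext he (k1.trans k2.symm)
      have e3 := hcell v
      rw [← cset_card] at e3
      have e4 : ((X.filter fun x => x.2 = v).card : ℝ) ≤ M' := by
        refine le_trans ?_ e3
        exact_mod_cast e2
      have e5 : 0 ≤ law q z v := by
        unfold law
        refine sum_nonneg fun ω _ => ?_
        split_ifs
        · exact hql.nonneg ω
        · exact le_rfl
      exact mul_le_mul_of_nonneg_right e4 e5
    have h5 : Pe q B ≤ M' / M := by
      refine h1.trans ((sum_le_sum h2).trans ?_)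
      rw [← mul_sum, h3]
      calc 1 / M * ∑ v ∈ Vs, ∑ x ∈ X with x.2 = v, law q z x.2
          ≤ 1 / M * ∑ v ∈ Vs, M' * law q z v :=
            mul_le_mul_of_nonneg_left (sum_le_sum h4) (by positivity)
        _ = M' / M * ∑ v ∈ Vs, law q z v := by
            rw [← mul_sum]
            ring
        _ ≤ M' / M * 1 := mul_le_mul_of_nonneg_left (sum_vals hql z Vs) (by positivity)
        _ = M' / M := mul_one _
    have h6 : Pe q B = Pe p B / Pe p A := by
      rw [hq, Pe_cond]
      congr 2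
      funext ω
      exact propext ⟨fun h => h.2, fun h => ⟨hBA ω h, h⟩⟩
    rw [h6, div_le_iff₀ hA] at h5
    exact h5

end law

end Pool.FLN19
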