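import Pool.Agent.H91.LA.Nbxc
import Pool.Agent.H13.FLN.Det

/-!
# Triangular maps

`tq`: the point of the time `t` with the own coordinates `v 0, v 1, …` over the charts `g 0, g 1, …` of
the coordinates `c 0, c 1, …`, in any algebra. `tq_hom`: functoriality. `tq_own`: its own coordinates.
`tq_pt`: a point is the point of its own coordinates. `tq_deg`, `tq_tdeg`: the degrees.
-/

set_option autoImplicit false

namespace Pool.FLN19

open Finset MvPolynomial
open Pool.Agent.H49.Ent Pool.Agent.H32.Dense Pool.STK Pool.KA Pool.KSAT Pool.K2S Pool.PB Pool.GEN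
open Pool.S6C Pool.RCD Pool.LA91

variable {m : ℕ}

/-- **The point with given own coordinates.** -/
noncomputable def tq {A : Type} [CommRing A] [Algebra ℝ A] (c : ℕ → Fin m)
    (g : ℕ → MvPolynomial (Option (Fin m)) ℝ) (t : A) (v : ℕ → A) : ℕ → Option (Fin m) → A
  | 0 => fun o => if o = none then t else 0
  | n + 1 => Function.update (tq c g t v n) (some (c n)) (v n + aeval (tq c g t v n) (g n))

section

variable {A B : Type} [CommRing A] [Algebra ℝ A] [CommRing B] [Algebra ℝ B] (c : ℕ → Fin m)
  (g : ℕ → MvPolynomial (Option (Fin m)) ℝ)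

theorem tq_none (t : A) (v : ℕ → A) (n : ℕ) : tq c g t v n none = t := by
  induction n with
  | zero =>
    show (if (none : Option (Fin m)) = none then t else 0) = t
    exact if_pos rfl
  | succ n ih =>
    show Function.update (tq c g t v n) (some (c n)) _ none = t
    rw [Function.update_of_ne (by simp)]
    exact ih

theorem tq_hom (φ : A →ₐ[ℝ] B) (t : A) (v : ℕ → A) (n : ℕ) (o : Option (Fin m)) :
    φ (tq c g t v n o) = tq c g (φ t) (fun l => φ (v l)) n o := by
  induction n generalizing o with
  | zero =>
    show φ (if o = none then t else 0) = if o = none then φ t else 0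
    split_ifs
    · rfl
    · exact map_zero φ
  | succ n ih =>
    show φ (Function.update (tq c g t v n) (some (c n)) (v n + aeval (tq c g t v n) (g n)) o) =
      Function.update (tq c g (φ t) (fun l => φ (v l)) n) (some (c n))
        (φ (v n) + aeval (tq c g (φ t) (fun l => φ (v l)) n) (g n)) o
    by_cases h : o = some (c n)
    · subst h
      rw [Function.update_self, Function.update_self, map_add, comp_aeval_apply]
      congr 2
      congr 1
      funext o
      exact ih o
    · rw [Function.update_of_ne h, Function.update_of_ne h]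
      exact ih o

/-- The coordinates do not depend on the later values. -/
theorem tq_congr (t : A) {v v' : ℕ → A} {n : ℕ} (h : ∀ l < n, v l = v' l) :
    tq c g t v n = tq c g t v' n := by
  induction n with
  | zero => rfl
  | succ n ih =>
    have h1 := ih fun l hl => h l (by omega)
    show Function.update (tq c g t v n) (some (c n)) (v n + aeval (tq c g t v n) (g n)) =
      Function.update (tq c g t v' n) (some (c n)) (v' n + aeval (tq c g t v' n) (g n))
    rw [h1, h n (Nat.lt_succ_self n)]

theorem tq_succ_ne (t : A) (v : ℕ → A) (n : ℕ) {o : Option (Fin m)} (h : o ≠ some (c n)) :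
    tq c g t v (n + 1) o = tq c g t v n o := Function.update_of_ne h _ _

theorem tq_succ_eq (t : A) (v : ℕ → A) (n : ℕ) :
    tq c g t v (n + 1) (some (c n)) = v n + aeval (tq c g t v n) (g n) := Function.update_self _ _ _

/-- The earlier coordinates. -/
theorem tq_stab (t : A) (v : ℕ → A) {n k : ℕ} (hc : Set.InjOn c (Set.Iio k)) {l : ℕ} (hl : l < n)
    (hnk : n ≤ k) : tq c g t v k (some (c l)) = tq c g t v n (some (c l)) := by
  induction k with
  | zero => omega
  | succ k ih =>
    rcases Nat.lt_or_ge k n with h | h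
    · rw [show k + 1 = n by omega]
    · rw [tq_succ_ne c g t v k (fun h1 => by
        have h2 := hc (Set.mem_Iio.2 (by omega)) (Set.mem_Iio.2 (Nat.lt_succ_self k))
          (Option.some.inj h1)
        omega)]
      exact ih (hc.mono (Set.Iio_subset_Iio (Nat.le_succ k))) h

end

section real

variable {c : ℕ → Fin m} {g : ℕ → MvPolynomial (Option (Fin m)) ℝ}

theorem tq_eval {t : ℝ} {v : ℕ → ℝ} {n : ℕ} (P : MvPolynomial (Option (Fin m)) ℝ) :
    aeval (tq c g t v n) P = eval (tq c g t v n) P := by
  rw [← coe_aeval_eq_eval]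
  rfl

/-- **The own coordinates of the point.** -/
theorem tq_own {t : ℝ} {v : ℕ → ℝ} {n : ℕ} (hc : Set.InjOn c (Set.Iio n))
    (hg : ∀ l < n, DepC c l (g l)) {l : ℕ} (hl : l < n) :
    tq c g t v n (some (c l)) - eval (tq c g t v n) (g l) = v l := by
  have h1 := tq_stab c g t v (n := l + 1) (k := n) hc (Nat.lt_succ_self l) hl
  rw [h1, tq_succ_eq, tq_eval]
  have h2 : eval (tq c g t v n) (g l) = eval (tq c g t v l) (g l) := by
    refine hg l hl _ _ ?_ fun i hi => ?_
    · rw [tq_none, tq_none]
    · exact tq_stab c g t v (n := l) (k := n) hc hi (by omega)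
  rw [h2]
  ring

/-- **A point is the point of its own coordinates.** -/
theorem tq_pt {b : Option (Fin m) → ℝ} {t : ℝ} {v : ℕ → ℝ} {n : ℕ}
    (hc : Set.InjOn c (Set.Iio n)) (hg : ∀ l < n, DepC c l (g l)) (ht : t = b none)
    (hv : ∀ l < n, v l = b (some (c l)) - eval b (g l)) {l : ℕ} (hl : l < n) :
    tq c g t v n (some (c l)) = b (some (c l)) := by
  induction n generalizing l with
  | zero => omega
  | succ n ih =>
    have hi := fun k (hk : k < n) => ih (hc.mono (Set.Iio_subset_Iio (Nat.le_succ n)))
      (fun l hl => hg l (by omega)) (fun l hl => hv l (by omega)) (l := k) hk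
    rcases Nat.lt_or_ge l n with h | h
    · rw [tq_stab c g t v (n := n) (k := n + 1) hc h (Nat.le_succ n)]
      exact hi l h
    · rw [show l = n by omega, tq_succ_eq, tq_eval, hv n (Nat.lt_succ_self n)]
      have h2 : eval (tq c g t v n) (g n) = eval b (g n) := by
        refine hg n (Nat.lt_succ_self n) _ _ ?_ fun i hi' => hi i hi'
        rw [tq_none, ht]
      rw [h2]
      ring

/-- The value of a polynomial over the chain at a point. -/
theorem tq_ev {b : Option (Fin m) → ℝ} {t : ℝ} {v : ℕ → ℝ} {n : ℕ}
    (hc : Set.InjOn c (Set.Iio n)) (hg : ∀ l < n, DepC c l (g l)) (ht : t = b none)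
    (hv : ∀ l < n, v l = b (some (c l)) - eval b (g l)) {P : MvPolynomial (Option (Fin m)) ℝ}
    (hP : DepC c n P) : eval (tq c g t v n) P = eval b P := by
  refine hP _ _ ?_ fun i hi => tq_pt hc hg ht hv hi
  rw [tq_none, ht]

/-- **The last own coordinate moves the last coordinate only.** -/
theorem tq_last (c : ℕ → Fin m) (g : ℕ → MvPolynomial (Option (Fin m)) ℝ) (t : ℝ) (v : ℕ → ℝ)
    (r : ℕ) (h : ℝ) : tq c g t (Function.update v r (v r + h)) (r + 1) =
      Function.update (tq c g t v (r + 1)) (some (c r)) (tq c g t v (r + 1) (some (c r)) + h) := by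
  have h1 : tq c g t (Function.update v r (v r + h)) r = tq c g t v r :=
    tq_congr c g t fun l hl => Function.update_of_ne (by omega) _ _
  funext o
  by_cases ho : o = some (c r)
  · subst ho
    rw [tq_succ_eq, Function.update_self, Function.update_self, tq_succ_eq, h1]
    ring
  · rw [tq_succ_ne c g _ _ r ho, Function.update_of_ne ho, tq_succ_ne c g _ _ r ho, h1]

end real

/-! ### Degrees -/

/-- The degree of the coordinates. -/
def dg (K k : ℕ) : ℕ → ℕ
  | 0 => k
  | n + 1 => max k (max (dg K k n) (K * dg K k n))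

theorem dg_mono (K k n : ℕ) : dg K k n ≤ dg K k (n + 1) := (le_max_left _ _).trans (le_max_right _ _)

theorem tdeg_aeval {σ : Type} (Q : MvPolynomial (Option (Fin m)) ℝ)
    (f : Option (Fin m) → MvPolynomial σ ℝ) {K D : ℕ} (hf : ∀ i, (f i).totalDegree ≤ D)
    (h : Q.totalDegree ≤ K) : (aeval f Q).totalDegree ≤ K * D := by
  rw [aeval_def, eval₂_eq]
  refine totalDegree_finsetSum_le fun α hα => ?_
  refine (totalDegree_mul _ _).trans ?_
  have h1 : (algebraMap ℝ (MvPolynomial σ ℝ) (MvPolynomial.coeff α Q)).totalDegree = 0 :=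
    totalDegree_C _
  have h2 : (∏ i ∈ α.support, f i ^ α i).totalDegree ≤ α.degree * D := by
    refine (totalDegree_finsetProd _ _).trans ?_
    rw [Finsupp.degree_apply, Finset.sum_mul]
    refine Finset.sum_le_sum fun i _ => ?_
    exact (totalDegree_pow _ _).trans (Nat.mul_le_mul_left (α i) (hf i))
  rw [h1, zero_add]
  exact h2.trans (Nat.mul_le_mul_right D ((le_totalDegree hα).trans h))

theorem tq_deg {c : ℕ → Fin m} {g : ℕ → MvPolynomial (Option (Fin m)) ℝ} {t : Polynomial ℝ}
    {v : ℕ → Polynomial ℝ} {K k n : ℕ} (hg : ∀ l < n, (g l).totalDegree ≤ K)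
    (ht : t.natDegree ≤ k) (hv : ∀ l < n, (v l).natDegree ≤ k) (o : Option (Fin m)) :
    (tq c g t v n o).natDegree ≤ dg K k n := by
  induction n generalizing o with
  | zero =>
    show (if o = none then t else 0).natDegree ≤ k
    split_ifs
    · exact ht
    · rw [Polynomial.natDegree_zero]
      exact Nat.zero_le _
  | succ n ih =>
    have ih' := ih (fun l hl => hg l (by omega)) (fun l hl => hv l (by omega))
    by_cases ho : o = some (c n)
    · subst ho
      rw [tq_succ_eq]
      refine (Polynomial.natDegree_add_le _ _).trans (max_le ?_ ?_)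
      · exact (hv n (Nat.lt_succ_self n)).trans (le_max_left _ _)
      · refine (Pool.FLN13.deg_comp _ _ ih' (hg n (Nat.lt_succ_self n))).trans ?_
        exact (le_max_right _ _).trans (le_max_right _ _)
    · rw [tq_succ_ne c g t v n ho]
      exact (ih' o).trans (dg_mono K k n)

theorem tq_tdeg {σ : Type} {c : ℕ → Fin m} {g : ℕ → MvPolynomial (Option (Fin m)) ℝ}
    {t : MvPolynomial σ ℝ} {v : ℕ → MvPolynomial σ ℝ} {K k n : ℕ}
    (hg : ∀ l < n, (g l).totalDegree ≤ K) (ht : t.totalDegree ≤ k)
    (hv : ∀ l < n, (v l).totalDegree ≤ k) (o : Option (Fin m)) :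
    (tq c g t v n o).totalDegree ≤ dg K k n := by
  induction n generalizing o with
  | zero =>
    show (if o = none then t else 0).totalDegree ≤ k
    split_ifs
    · exact ht
    · rw [totalDegree_zero]
      exact Nat.zero_le _
  | succ n ih =>
    have ih' := ih (fun l hl => hg l (by omega)) (fun l hl => hv l (by omega))
    by_cases ho : o = some (c n)
    · subst ho
      rw [tq_succ_eq]
      refine (totalDegree_add _ _).trans (max_le ?_ ?_)
      · exact (hv n (Nat.lt_succ_self n)).trans (le_max_left _ _)
      · refine (tdeg_aeval _ _ ih' (hg n (Nat.lt_succ_self n))).trans ?_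
        exact (le_max_right _ _).trans (le_max_right _ _)
    · rw [tq_succ_ne c g t v n ho]
      exact (ih' o).trans (dg_mono K k n)

end Pool.FLN19
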